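import Pool.Agent.X55.Art.Mom
import Pool.Agent.Y586.SW.GM
import Pool.Agent.H114R2.Stk.T9

set_option autoImplicit false

/-! # A central limit theorem for sums of periodic functions -/

namespace Pool.Agent.X55.Art

open Finset Filter Topology
open Pool.Agent.Y586.SW (Sm tay)

/-- two coprime moduli -/
theorem two_modC (u v : ℕ) (hu : 1 ≤ u) (hv : 1 ≤ v) (huv : Nat.Coprime u v) (A B : ℕ → ℂ)
    (hA : ∀ n, A n = A (n % u)) (hB : ∀ n, B n = B (n % v)) :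
    ∑ n ∈ range (u * v), A n * B n = (∑ n ∈ range u, A n) * ∑ n ∈ range v, B n := by
  classical
  rw [sum_mul_sum, ← sum_product']
  set φ : ℕ → ℕ × ℕ := fun n => (n % u, n % v) with hφ
  have hmaps : ∀ n ∈ range (u * v), φ n ∈ range u ×ˢ range v := by
    intro n _
    rw [hφ, mem_product, mem_range, mem_range]
    exact ⟨Nat.mod_lt _ (by omega), Nat.mod_lt _ (by omega)⟩
  have hinj : Set.InjOn φ (range (u * v) : Set ℕ) := by
    intro n hn n' hn' h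
    rw [mem_coe, mem_range] at hn hn'
    rw [hφ] at h
    have h1 := Prod.mk.inj h
    have h4 : n ≡ n' [MOD (u * v)] := (Nat.modEq_and_modEq_iff_modEq_mul huv).1 ⟨h1.1, h1.2⟩
    exact Nat.ModEq.eq_of_lt_of_lt h4 hn hn'
  have hsurj : Set.SurjOn φ (range (u * v) : Set ℕ) ((range u ×ˢ range v : Finset _) : Set (ℕ × ℕ)) := by
    apply surjOn_of_injOn_of_card_le φ (fun n hn => hmaps n hn) hinj
    rw [card_product, card_range, card_range, card_range]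
  refine sum_nbij φ hmaps hinj hsurj ?_
  intro n _
  show A n * B n = A (n % u) * B (n % v)
  rw [← hA n, ← hB n]

theorem prodC (I : Finset ℕ) (hI : ∀ p ∈ I, p.Prime) (G : ℕ → ℕ → ℂ) (hG : ∀ p ∈ I, ∀ n, G p n = G p (n % p)) :
    ∑ n ∈ range (∏ p ∈ I, p), ∏ p ∈ I, G p n = ∏ p ∈ I, ∑ n ∈ range p, G p n := by
  classical
  induction I using Finset.induction_on with
  | empty => simp
  | insert a I ha ih =>
    have ih' := ih (fun p hp => hI p (mem_insert_of_mem hp)) (fun p hp => hG p (mem_insert_of_mem hp))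
    rw [prod_insert ha, prod_insert ha, ← ih']
    obtain ⟨Q, hQ⟩ : ∃ Q, Q = ∏ p ∈ I, p := ⟨_, rfl⟩
    rw [← hQ]
    have hQ1 : 1 ≤ Q := by
      rw [hQ]
      exact Nat.one_le_iff_ne_zero.2 (prod_ne_zero_iff.2 fun p hp => (hI p (mem_insert_of_mem hp)).ne_zero)
    have hc : Nat.Coprime a Q := by
      rw [hQ]
      apply Nat.Coprime.prod_right
      intro p hp
      refine (Nat.coprime_primes (hI a (mem_insert_self a I)) (hI p (mem_insert_of_mem hp))).2 ?_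
      intro h
      exact ha (h ▸ hp)
    have hP : ∀ n, (fun n => ∏ p ∈ I, G p n) n = (fun n => ∏ p ∈ I, G p n) (n % Q) := by
      intro n
      refine prod_congr rfl fun p hp => ?_
      rw [hG p (mem_insert_of_mem hp) n, hG p (mem_insert_of_mem hp) (n % Q)]
      congr 1
      rw [Nat.mod_mod_of_dvd n (by rw [hQ]; exact dvd_prod_of_mem _ hp)]
    have h1 := two_modC a Q (hI a (mem_insert_self a I)).one_lt.le hQ1 hc (G a) (fun n => ∏ p ∈ I, G p n)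
      (hG a (mem_insert_self a I)) hP
    rw [← h1]
    exact sum_congr rfl fun n _ => prod_insert ha

theorem full_sum (g : ℕ → ℝ) (R t : ℕ) (hg : ∀ n, g n = g (n % R)) :
    ∑ n ∈ range (R * t), g n = t * ∑ n ∈ range R, g n := by
  induction t with
  | zero => simp
  | succ t ih =>
    rw [Nat.mul_add, mul_one, sum_range_add, ih]
    have : ∀ x ∈ range R, g (R * t + x) = g x := by
      intro x _
      rw [hg (R * t + x), Nat.mul_add_mod, ← hg x]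
    rw [sum_congr rfl this]
    push_cast
    ring

theorem inc_sum (g : ℕ → ℝ) (R N : ℕ) (hR : 1 ≤ R) (hg : ∀ n, g n = g (n % R)) (h1 : ∀ n, |g n| ≤ 1) :
    |∑ n ∈ range N, g n - N * (1 / (R : ℝ) * ∑ n ∈ range R, g n)| ≤ 2 * R := by
  have hR0 : (0 : ℝ) < R := by exact_mod_cast hR
  obtain ⟨T, hT⟩ : ∃ T, T = ∑ n ∈ range R, g n := ⟨_, rfl⟩
  have hTa : |T| ≤ R := by
    rw [hT]
    refine (abs_sum_le_sum_abs _ _).trans ((sum_le_sum fun n _ => h1 n).trans ?_)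
    simp
  have h2 : N = R * (N / R) + N % R := (Nat.div_add_mod N R).symm
  have h3 : ∑ n ∈ range N, g n = (N / R : ℕ) * T + ∑ n ∈ range (N % R), g (R * (N / R) + n) := by
    conv_lhs => rw [h2]
    rw [sum_range_add, full_sum g R _ hg, hT]
  have h4 : |∑ n ∈ range (N % R), g (R * (N / R) + n)| ≤ R := by
    refine (abs_sum_le_sum_abs _ _).trans ((sum_le_sum fun n _ => h1 _).trans ?_)
    rw [sum_const, card_range, nsmul_eq_mul, mul_one]
    exact_mod_cast (Nat.mod_lt N (by omega)).le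
  have h5 : (N : ℝ) = R * (N / R : ℕ) + (N % R : ℕ) := by exact_mod_cast h2
  have h6 : (N : ℝ) * (1 / (R : ℝ) * T) = (N / R : ℕ) * T + (N % R : ℕ) / R * T := by
    rw [h5]
    field_simp
  rw [← hT, h3, h6]
  have h7 : |((N % R : ℕ) : ℝ) / R * T| ≤ R := by
    rw [abs_mul, abs_div, abs_of_nonneg (Nat.cast_nonneg _), abs_of_pos hR0]
    have h8 : ((N % R : ℕ) : ℝ) / R ≤ 1 := by
      rw [div_le_one hR0]
      exact_mod_cast (Nat.mod_lt N (by omega)).le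
    have h9 : 0 ≤ ((N % R : ℕ) : ℝ) / R := by positivity
    calc ((N % R : ℕ) : ℝ) / R * |T| ≤ 1 * R := mul_le_mul h8 hTa (abs_nonneg _) zero_le_one
      _ = R := one_mul _
  rw [add_sub_add_left_eq_sub]
  refine (abs_sub _ _).trans ?_
  linarith

theorem Icc_sum (g : ℕ → ℝ) (N : ℕ) : ∑ n ∈ Finset.Icc 1 N, g n = ∑ n ∈ range N, g n + g N - g 0 := by
  induction N with
  | zero => simp
  | succ N ih =>
    rw [sum_Icc_succ_top (by omega), ih, sum_range_succ]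
    ring

theorem inc_avg (g : ℕ → ℝ) (R Q N : ℕ) (hR : 1 ≤ R) (hQ : 1 ≤ Q) (hRQ : R ∣ Q) (hg : ∀ n, g n = g (n % R))
    (h1 : ∀ n, |g n| ≤ 1) (hN : 1 ≤ N) :
    |1 / (N : ℝ) * ∑ n ∈ Finset.Icc 1 N, g n - 1 / (Q : ℝ) * ∑ n ∈ range Q, g n| ≤ 4 * R / N := by
  obtain ⟨t, rfl⟩ := hRQ
  have ht : 1 ≤ t := by
    rcases Nat.eq_zero_or_pos t with rfl | h
    · omega
    · exact h
  have hR0 : (0 : ℝ) < R := by exact_mod_cast hR
  have ht0 : (0 : ℝ) < t := by exact_mod_cast ht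
  have hN0 : (0 : ℝ) < N := by exact_mod_cast hN
  have hR1 : (1 : ℝ) ≤ R := by exact_mod_cast hR
  rw [full_sum g R t hg]
  have h2 := inc_sum g R N hR hg h1
  have h3 : 1 / (((R * t : ℕ)) : ℝ) * (t * ∑ n ∈ range R, g n) = 1 / (R : ℝ) * ∑ n ∈ range R, g n := by
    push_cast
    field_simp
  rw [h3, le_div_iff₀ hN0]
  have h4 : |1 / (N : ℝ) * ∑ n ∈ Finset.Icc 1 N, g n - 1 / (R : ℝ) * ∑ n ∈ range R, g n| * N =
      |∑ n ∈ Finset.Icc 1 N, g n - N * (1 / (R : ℝ) * ∑ n ∈ range R, g n)| := by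
    nth_rewrite 2 [← abs_of_pos hN0]
    rw [← abs_mul]
    congr 1
    field_simp
  rw [h4, Icc_sum]
  have h5 := h1 N
  have h6 := h1 0
  rw [abs_le] at h2 h5 h6 ⊢
  constructor <;> linarith [h2.1, h2.2, h5.1, h5.2, h6.1, h6.2]

theorem mom_cmp (I : Finset ℕ) (x : ℕ) (hx : 1 ≤ x) (hI : ∀ p ∈ I, p.Prime ∧ p ≤ x) (F : ℕ → ℕ → ℝ)
    (hF : ∀ p ∈ I, ∀ n, F p n = F p (n % p)) (hF1 : ∀ p ∈ I, ∀ n, |F p n| ≤ 1) (k N : ℕ) (hN : 1 ≤ N) :
    |1 / (N : ℝ) * ∑ n ∈ Finset.Icc 1 N, (∑ p ∈ I, F p n) ^ k -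
      1 / ((∏ p ∈ I, p : ℕ) : ℝ) * ∑ n ∈ range (∏ p ∈ I, p), (∑ p ∈ I, F p n) ^ k| ≤ 4 * (x : ℝ) ^ (2 * k) / N := by
  classical
  have hN0 : (0 : ℝ) < N := by exact_mod_cast hN
  have hexp : ∀ n, (∑ p ∈ I, F p n) ^ k = ∑ φ ∈ Fintype.piFinset (fun _ : Fin k => I), ∏ i, F (φ i) n := by
    intro n
    have h := Finset.prod_univ_sum (fun _ : Fin k => I) (fun _ p => F p n)
    rw [← h, prod_const, card_univ, Fintype.card_fin]
  obtain ⟨Q, hQ⟩ : ∃ Q, Q = ∏ p ∈ I, p := ⟨_, rfl⟩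
  have hQ1 : 1 ≤ Q := by
    rw [hQ]
    exact Nat.one_le_iff_ne_zero.2 (prod_ne_zero_iff.2 fun p hp => (hI p hp).1.ne_zero)
  rw [← hQ]
  have e1 : ∑ n ∈ Finset.Icc 1 N, (∑ p ∈ I, F p n) ^ k =
      ∑ φ ∈ Fintype.piFinset (fun _ : Fin k => I), ∑ n ∈ Finset.Icc 1 N, ∏ i, F (φ i) n := by
    rw [sum_comm]
    exact sum_congr rfl fun n _ => hexp n
  have e2 : ∑ n ∈ range Q, (∑ p ∈ I, F p n) ^ k =
      ∑ φ ∈ Fintype.piFinset (fun _ : Fin k => I), ∑ n ∈ range Q, ∏ i, F (φ i) n := by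
    rw [sum_comm]
    exact sum_congr rfl fun n _ => hexp n
  rw [e1, e2, mul_sum, mul_sum, ← sum_sub_distrib]
  refine (abs_sum_le_sum_abs _ _).trans ?_
  have hterm : ∀ φ ∈ Fintype.piFinset (fun _ : Fin k => I),
      |1 / (N : ℝ) * ∑ n ∈ Finset.Icc 1 N, ∏ i, F (φ i) n - 1 / (Q : ℝ) * ∑ n ∈ range Q, ∏ i, F (φ i) n| ≤
        4 * (x : ℝ) ^ k / N := by
    intro φ hφ
    rw [Fintype.mem_piFinset] at hφ
    obtain ⟨R, hR⟩ : ∃ R, R = ∏ p ∈ univ.image φ, p := ⟨_, rfl⟩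
    have hsub : univ.image φ ⊆ I := by
      intro p hp
      rw [mem_image] at hp
      obtain ⟨i, _, rfl⟩ := hp
      exact hφ i
    have hR1 : 1 ≤ R := by
      rw [hR]
      exact Nat.one_le_iff_ne_zero.2 (prod_ne_zero_iff.2 fun p hp => (hI p (hsub hp)).1.ne_zero)
    have hRQ : R ∣ Q := by
      rw [hR, hQ]
      exact prod_dvd_prod_of_subset _ _ _ hsub
    have hRx : R ≤ x ^ k := by
      rw [hR]
      refine (prod_le_pow_card _ _ x fun p hp => (hI p (hsub hp)).2).trans ?_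
      apply Nat.pow_le_pow_right hx
      refine card_image_le.trans ?_
      simp
    have h1 := inc_avg (fun n => ∏ i, F (φ i) n) R Q N hR1 hQ1 hRQ (by
      intro n
      refine prod_congr rfl fun i _ => ?_
      rw [hF _ (hφ i) n, hF _ (hφ i) (n % R), Nat.mod_mod_of_dvd]
      rw [hR]
      exact dvd_prod_of_mem _ (mem_image_of_mem φ (mem_univ i))) (by
      intro n
      show |∏ i, F (φ i) n| ≤ 1
      rw [abs_prod]
      exact prod_le_one (fun i _ => abs_nonneg _) (fun i _ => hF1 _ (hφ i) n)) hN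
    refine h1.trans ?_
    have h2 : (R : ℝ) ≤ (x : ℝ) ^ k := by exact_mod_cast hRx
    gcongr
  refine (sum_le_sum hterm).trans ?_
  rw [sum_const, nsmul_eq_mul, Fintype.card_piFinset]
  simp only [prod_const, card_univ, Fintype.card_fin]
  have hIx : I.card ≤ x := by
    have : I ⊆ Finset.Icc 1 x := by
      intro p hp
      rw [Finset.mem_Icc]
      exact ⟨(hI p hp).1.one_lt.le, (hI p hp).2⟩
    simpa using card_le_card this
  have h3 : ((I.card ^ k : ℕ) : ℝ) ≤ (x : ℝ) ^ k := by exact_mod_cast Nat.pow_le_pow_left hIx k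
  calc ((I.card ^ k : ℕ) : ℝ) * (4 * (x : ℝ) ^ k / N) ≤ (x : ℝ) ^ k * (4 * (x : ℝ) ^ k / N) :=
        mul_le_mul_of_nonneg_right h3 (by positivity)
    _ = 4 * (x : ℝ) ^ (2 * k) / N := by ring

/-- the Taylor expansion on average -/
theorem taylor_avg {α : Type*} (T : Finset α) (S : α → ℝ) (τ c : ℝ) (hc : 0 ≤ c) (K : ℕ) :
    ‖(c : ℂ) * ∑ n ∈ T, Complex.exp (Complex.I * ((τ * S n : ℝ) : ℂ)) -
      ∑ j ∈ range K, (Complex.I * (τ : ℂ)) ^ j / (j.factorial : ℂ) * ((c * ∑ n ∈ T, S n ^ j : ℝ) : ℂ)‖ ≤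
    |τ| ^ K / (K.factorial : ℝ) * (c * ∑ n ∈ T, |S n| ^ K) := by
  have h1 : ∑ j ∈ range K, (Complex.I * (τ : ℂ)) ^ j / (j.factorial : ℂ) * ((c * ∑ n ∈ T, S n ^ j : ℝ) : ℂ) =
      (c : ℂ) * ∑ n ∈ T, Sm K (τ * S n) := by
    unfold Sm
    rw [sum_comm, mul_sum]
    refine sum_congr rfl fun j _ => ?_
    push_cast
    rw [mul_sum, mul_sum, mul_sum]
    refine sum_congr rfl fun n _ => ?_
    rw [mul_pow, mul_pow, mul_pow]
    ring
  rw [h1, ← mul_sub, ← sum_sub_distrib, norm_mul, Complex.norm_real, Real.norm_of_nonneg hc]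
  have h2 : ‖∑ n ∈ T, (Complex.exp (Complex.I * ((τ * S n : ℝ) : ℂ)) - Sm K (τ * S n))‖ ≤
      ∑ n ∈ T, |τ| ^ K / (K.factorial : ℝ) * |S n| ^ K := by
    refine (norm_sum_le _ _).trans (sum_le_sum fun n _ => ?_)
    refine (tay K (τ * S n)).trans (le_of_eq ?_)
    rw [abs_mul, mul_pow]
    ring
  rw [← mul_sum] at h2
  calc c * ‖∑ n ∈ T, (Complex.exp (Complex.I * ((τ * S n : ℝ) : ℂ)) - Sm K (τ * S n))‖
      ≤ c * (|τ| ^ K / (K.factorial : ℝ) * ∑ n ∈ T, |S n| ^ K) := mul_le_mul_of_nonneg_left h2 hc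
    _ = _ := by ring

/-- comparison of the characteristic functions -/
theorem char_cmp (I : Finset ℕ) (x : ℕ) (hx : 1 ≤ x) (hI : ∀ p ∈ I, p.Prime ∧ p ≤ x) (F : ℕ → ℕ → ℝ)
    (hF : ∀ p ∈ I, ∀ n, F p n = F p (n % p)) (hF1 : ∀ p ∈ I, ∀ n, |F p n| ≤ 1) (j N : ℕ) (hN : 1 ≤ N)
    (τ m : ℝ) (hm : 1 / ((∏ p ∈ I, p : ℕ) : ℝ) * ∑ n ∈ range (∏ p ∈ I, p), (∑ p ∈ I, F p n) ^ (2 * j) ≤ m) :
    ‖((1 / (N : ℝ) : ℝ) : ℂ) * ∑ n ∈ Finset.Icc 1 N, Complex.exp (Complex.I * ((τ * ∑ p ∈ I, F p n : ℝ) : ℂ)) -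
      ((1 / ((∏ p ∈ I, p : ℕ) : ℝ) : ℝ) : ℂ) * ∑ n ∈ range (∏ p ∈ I, p),
        Complex.exp (Complex.I * ((τ * ∑ p ∈ I, F p n : ℝ) : ℂ))‖ ≤
    |τ| ^ (2 * j) / ((2 * j).factorial : ℝ) * (2 * m + 4 * (x : ℝ) ^ (4 * j) / N) +
      Real.exp |τ| * (4 * (x : ℝ) ^ (4 * j) / N) := by
  classical
  have hx1 : (1 : ℝ) ≤ x := by exact_mod_cast hx
  have hN0 : (0 : ℝ) < N := by exact_mod_cast hN
  obtain ⟨Q, hQ⟩ : ∃ Q, Q = ∏ p ∈ I, p := ⟨_, rfl⟩
  rw [← hQ] at hm ⊢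
  have t1 := taylor_avg (Finset.Icc 1 N) (fun n => ∑ p ∈ I, F p n) τ (1 / (N : ℝ)) (by positivity) (2 * j)
  have t2 := taylor_avg (range Q) (fun n => ∑ p ∈ I, F p n) τ (1 / (Q : ℝ)) (by positivity) (2 * j)
  simp only [(even_two_mul j).pow_abs] at t1 t2
  have c2 := mom_cmp I x hx hI F hF hF1 (2 * j) N hN
  rw [← hQ, show 2 * (2 * j) = 4 * j by ring] at c2
  have c3 : ‖∑ i ∈ range (2 * j), (Complex.I * (τ : ℂ)) ^ i / (i.factorial : ℂ) *
        ((1 / (N : ℝ) * ∑ n ∈ Finset.Icc 1 N, (∑ p ∈ I, F p n) ^ i : ℝ) : ℂ) -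
      ∑ i ∈ range (2 * j), (Complex.I * (τ : ℂ)) ^ i / (i.factorial : ℂ) *
        ((1 / (Q : ℝ) * ∑ n ∈ range Q, (∑ p ∈ I, F p n) ^ i : ℝ) : ℂ)‖ ≤
      Real.exp |τ| * (4 * (x : ℝ) ^ (4 * j) / N) := by
    rw [← sum_sub_distrib]
    refine (norm_sum_le _ _).trans ?_
    have h3 : ∀ i ∈ range (2 * j), ‖(Complex.I * (τ : ℂ)) ^ i / (i.factorial : ℂ) *
        ((1 / (N : ℝ) * ∑ n ∈ Finset.Icc 1 N, (∑ p ∈ I, F p n) ^ i : ℝ) : ℂ) -
        (Complex.I * (τ : ℂ)) ^ i / (i.factorial : ℂ) *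
        ((1 / (Q : ℝ) * ∑ n ∈ range Q, (∑ p ∈ I, F p n) ^ i : ℝ) : ℂ)‖ ≤
        |τ| ^ i / (i.factorial : ℝ) * (4 * (x : ℝ) ^ (4 * j) / N) := by
      intro i hi
      rw [mem_range] at hi
      rw [← mul_sub, norm_mul, norm_div, norm_pow, norm_mul, Complex.norm_I, one_mul, Complex.norm_real,
        Real.norm_eq_abs, Complex.norm_natCast, ← Complex.ofReal_sub, Complex.norm_real, Real.norm_eq_abs]
      apply mul_le_mul_of_nonneg_left _ (by positivity)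
      have h4 := mom_cmp I x hx hI F hF hF1 i N hN
      rw [← hQ] at h4
      refine h4.trans ?_
      have h5 : (x : ℝ) ^ (2 * i) ≤ (x : ℝ) ^ (4 * j) := pow_le_pow_right₀ hx1 (by omega)
      gcongr
    refine (sum_le_sum h3).trans ?_
    rw [← sum_mul]
    exact mul_le_mul_of_nonneg_right (Real.sum_le_exp_of_nonneg (abs_nonneg τ) (2 * j)) (by positivity)
  have c4 : 1 / (N : ℝ) * ∑ n ∈ Finset.Icc 1 N, (∑ p ∈ I, F p n) ^ (2 * j) ≤ m + 4 * (x : ℝ) ^ (4 * j) / N := by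
    have := (abs_le.1 c2).2
    linarith
  have hτ0 : 0 ≤ |τ| ^ (2 * j) / ((2 * j).factorial : ℝ) := by positivity
  have c5 := mul_le_mul_of_nonneg_left c4 hτ0
  have c6 := mul_le_mul_of_nonneg_left hm hτ0
  set a1 := ((1 / (N : ℝ) : ℝ) : ℂ) * ∑ n ∈ Finset.Icc 1 N, Complex.exp (Complex.I * ((τ * ∑ p ∈ I, F p n : ℝ) : ℂ)) with ha1
  set a2 := ((1 / (Q : ℝ) : ℝ) : ℂ) * ∑ n ∈ range Q, Complex.exp (Complex.I * ((τ * ∑ p ∈ I, F p n : ℝ) : ℂ)) with ha2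
  set b1 := ∑ i ∈ range (2 * j), (Complex.I * (τ : ℂ)) ^ i / (i.factorial : ℂ) *
        ((1 / (N : ℝ) * ∑ n ∈ Finset.Icc 1 N, (∑ p ∈ I, F p n) ^ i : ℝ) : ℂ) with hb1
  set b2 := ∑ i ∈ range (2 * j), (Complex.I * (τ : ℂ)) ^ i / (i.factorial : ℂ) *
        ((1 / (Q : ℝ) * ∑ n ∈ range Q, (∑ p ∈ I, F p n) ^ i : ℝ) : ℂ) with hb2
  have c7 : ‖a1 - a2‖ ≤ ‖a1 - b1‖ + ‖b1 - b2‖ + ‖a2 - b2‖ := by
    have e : a1 - a2 = (a1 - b1) + (b1 - b2) - (a2 - b2) := by ring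
    rw [e]
    exact (norm_sub_le _ _).trans (by
      have := norm_add_le (a1 - b1) (b1 - b2)
      linarith)
  simp only [(even_two_mul j).pow_abs] at c5 c6 ⊢
  linarith

theorem norm_prod_sub {ι : Type*} (I : Finset ι) (a b : ι → ℂ) (ha : ∀ i ∈ I, ‖a i‖ ≤ 1)
    (hb : ∀ i ∈ I, ‖b i‖ ≤ 1) : ‖∏ i ∈ I, a i - ∏ i ∈ I, b i‖ ≤ ∑ i ∈ I, ‖a i - b i‖ := by
  classical
  induction I using Finset.induction_on with
  | empty => simp
  | insert i I hi ih =>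
    have ih' := ih (fun j hj => ha j (mem_insert_of_mem hj)) (fun j hj => hb j (mem_insert_of_mem hj))
    rw [prod_insert hi, prod_insert hi, sum_insert hi]
    have h1 : ‖∏ j ∈ I, b j‖ ≤ 1 := by
      rw [norm_prod]
      exact prod_le_one (fun j _ => norm_nonneg _) (fun j hj => hb j (mem_insert_of_mem hj))
    have e : a i * ∏ j ∈ I, a j - b i * ∏ j ∈ I, b j =
        a i * (∏ j ∈ I, a j - ∏ j ∈ I, b j) + (a i - b i) * ∏ j ∈ I, b j := by ring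
    rw [e]
    refine (norm_add_le _ _).trans ?_
    rw [norm_mul, norm_mul]
    have h2 : ‖a i‖ * ‖∏ j ∈ I, a j - ∏ j ∈ I, b j‖ ≤ 1 * ∑ j ∈ I, ‖a j - b j‖ :=
      mul_le_mul (ha i (mem_insert_self i I)) ih' (norm_nonneg _) zero_le_one
    have h3 : ‖a i - b i‖ * ‖∏ j ∈ I, b j‖ ≤ ‖a i - b i‖ * 1 := mul_le_mul_of_nonneg_left h1 (norm_nonneg _)
    linarith

theorem exp_neg_quad (t : ℝ) (ht : 0 ≤ t) : |Real.exp (-t) - (1 - t)| ≤ t ^ 2 / 2 := by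
  have h1 : 1 - t ≤ Real.exp (-t) := by
    have := Real.add_one_le_exp (-t)
    linarith
  have h2 : Real.exp (-t) ≤ 1 - t + t ^ 2 / 2 := by
    have h3 := Real.quadratic_le_exp_of_nonneg ht
    have h4 : Real.exp (-t) * Real.exp t = 1 := by rw [← Real.exp_add]; simp
    have h5 : 0 < Real.exp t := Real.exp_pos t
    have h6 : (1 - t + t ^ 2 / 2) * (1 + t + t ^ 2 / 2) = 1 + t ^ 4 / 4 := by ring
    have h7 : 0 < 1 - t + t ^ 2 / 2 := by nlinarith [sq_nonneg (t - 1)]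
    have h8 : 1 ≤ (1 - t + t ^ 2 / 2) * Real.exp t := by
      have := mul_le_mul_of_nonneg_left h3 h7.le
      nlinarith [sq_nonneg (t ^ 2)]
    by_contra hcon
    push Not at hcon
    have := mul_lt_mul_of_pos_right hcon h5
    linarith
  rw [abs_of_nonneg (by linarith)]
  linarith

/-- the characteristic function of the model -/
theorem model_char (I : Finset ℕ) (hI : ∀ p ∈ I, p.Prime) (F : ℕ → ℕ → ℝ)
    (hF : ∀ p ∈ I, ∀ n, F p n = F p (n % p)) (hF1 : ∀ p ∈ I, ∀ n, |F p n| ≤ 1)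
    (hF0 : ∀ p ∈ I, ∑ n ∈ range p, F p n = 0) (τ : ℝ) :
    ‖((1 / ((∏ p ∈ I, p : ℕ) : ℝ) : ℝ) : ℂ) * ∑ n ∈ range (∏ p ∈ I, p),
        Complex.exp (Complex.I * ((τ * ∑ p ∈ I, F p n : ℝ) : ℂ)) -
      ((Real.exp (-(τ ^ 2 * (∑ p ∈ I, 1 / (p : ℝ) * ∑ n ∈ range p, F p n ^ 2) / 2)) : ℝ) : ℂ)‖ ≤
    (|τ| ^ 3 / 6 + τ ^ 4 / 8) * (∑ p ∈ I, 1 / (p : ℝ) * ∑ n ∈ range p, F p n ^ 2) := by
  classical
  set v : ℕ → ℝ := fun p => 1 / (p : ℝ) * ∑ n ∈ range p, F p n ^ 2 with hv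
  set a : ℕ → ℂ := fun p => ((1 / (p : ℝ) : ℝ) : ℂ) * ∑ n ∈ range p, Complex.exp (Complex.I * ((τ * F p n : ℝ) : ℂ)) with ha
  set b : ℕ → ℂ := fun p => ((Real.exp (-(τ ^ 2 * v p / 2)) : ℝ) : ℂ) with hb
  have h1 : ((1 / ((∏ p ∈ I, p : ℕ) : ℝ) : ℝ) : ℂ) * ∑ n ∈ range (∏ p ∈ I, p),
        Complex.exp (Complex.I * ((τ * ∑ p ∈ I, F p n : ℝ) : ℂ)) = ∏ p ∈ I, a p := by
    have e1 : ∀ n, Complex.exp (Complex.I * ((τ * ∑ p ∈ I, F p n : ℝ) : ℂ)) =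
        ∏ p ∈ I, Complex.exp (Complex.I * ((τ * F p n : ℝ) : ℂ)) := by
      intro n
      rw [← Complex.exp_sum]
      congr 1
      push_cast
      rw [mul_sum, mul_sum]
    rw [sum_congr rfl fun n _ => e1 n, prodC I hI (fun p n => Complex.exp (Complex.I * ((τ * F p n : ℝ) : ℂ)))
      (fun p hp n => by
        show Complex.exp (Complex.I * ((τ * F p n : ℝ) : ℂ)) = Complex.exp (Complex.I * ((τ * F p (n % p) : ℝ) : ℂ))
        rw [← hF p hp n])]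
    rw [ha, prod_mul_distrib]
    congr 1
    push_cast
    rw [prod_div_distrib]
    simp
  have h2 : ((Real.exp (-(τ ^ 2 * (∑ p ∈ I, v p) / 2)) : ℝ) : ℂ) = ∏ p ∈ I, b p := by
    rw [hb, ← Complex.ofReal_prod, ← Real.exp_sum]
    congr 2
    rw [sum_neg_distrib, ← sum_div, ← mul_sum]
  rw [h1, h2]
  have hp0 : ∀ p ∈ I, (0 : ℝ) < p := fun p hp => by exact_mod_cast (hI p hp).pos
  have hv0 : ∀ p ∈ I, 0 ≤ v p := fun p hp =>
    mul_nonneg (by positivity) (sum_nonneg fun n _ => sq_nonneg _)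
  have hv1 : ∀ p ∈ I, v p ≤ 1 := by
    intro p hp
    have h3 : ∑ n ∈ range p, F p n ^ 2 ≤ p := by
      calc ∑ n ∈ range p, F p n ^ 2 ≤ ∑ _n ∈ range p, (1 : ℝ) := by
            refine sum_le_sum fun n _ => ?_
            have := hF1 p hp n
            rw [← sq_abs]
            have h4 := abs_nonneg (F p n)
            nlinarith
        _ = p := by simp
    show 1 / (p : ℝ) * ∑ n ∈ range p, F p n ^ 2 ≤ 1
    rw [one_div_mul_eq_div, div_le_one (hp0 p hp)]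
    exact h3
  refine (norm_prod_sub I a b ?_ ?_).trans ?_
  · intro p hp
    show ‖((1 / (p : ℝ) : ℝ) : ℂ) * ∑ n ∈ range p, Complex.exp (Complex.I * ((τ * F p n : ℝ) : ℂ))‖ ≤ 1
    rw [norm_mul, Complex.norm_real, Real.norm_of_nonneg (by positivity), one_div_mul_eq_div, div_le_one (hp0 p hp)]
    refine (norm_sum_le _ _).trans ?_
    have : ∀ n ∈ range p, ‖Complex.exp (Complex.I * ((τ * F p n : ℝ) : ℂ))‖ ≤ 1 := by
      intro n _
      rw [mul_comm, Complex.norm_exp_ofReal_mul_I]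
    refine (sum_le_sum this).trans ?_
    simp
  · intro p hp
    show ‖((Real.exp (-(τ ^ 2 * v p / 2)) : ℝ) : ℂ)‖ ≤ 1
    rw [Complex.norm_real, Real.norm_of_nonneg (Real.exp_pos _).le]
    apply Real.exp_le_one_iff.2
    have := hv0 p hp
    have : 0 ≤ τ ^ 2 * v p := by positivity
    linarith
  · rw [mul_sum]
    refine sum_le_sum fun p hp => ?_
    have hpp := hp0 p hp
    have g1 : ‖a p - (((1 - τ ^ 2 * v p / 2 : ℝ)) : ℂ)‖ ≤ |τ| ^ 3 / 6 * v p := by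
      have t := taylor_avg (range p) (F p) τ (1 / (p : ℝ)) (by positivity) 3
      have e3 : ∑ j ∈ range 3, (Complex.I * (τ : ℂ)) ^ j / (j.factorial : ℂ) *
          ((1 / (p : ℝ) * ∑ n ∈ range p, F p n ^ j : ℝ) : ℂ) = (((1 - τ ^ 2 * v p / 2 : ℝ)) : ℂ) := by
        rw [sum_range_succ, sum_range_succ, sum_range_succ, sum_range_zero]
        simp only [pow_zero, pow_one, hF0 p hp, sum_const, card_range, nsmul_eq_mul, mul_one, mul_zero]
        have e4 : 1 / (p : ℝ) * p = 1 := by field_simp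
        rw [e4, mul_pow, Complex.I_sq]
        rw [hv]
        simp only [Nat.factorial]
        push_cast
        ring
      rw [e3] at t
      refine t.trans ?_
      have e5 : ((3 : ℕ).factorial : ℝ) = 6 := by norm_num [Nat.factorial]
      rw [e5]
      apply mul_le_mul_of_nonneg_left _ (by positivity)
      show 1 / (p : ℝ) * ∑ n ∈ range p, |F p n| ^ 3 ≤ 1 / (p : ℝ) * ∑ n ∈ range p, F p n ^ 2
      apply mul_le_mul_of_nonneg_left _ (by positivity)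
      refine sum_le_sum fun n _ => ?_
      have h5 := hF1 p hp n
      have h6 := abs_nonneg (F p n)
      rw [← sq_abs (F p n)]
      nlinarith [sq_nonneg (|F p n|)]
    have g2 : ‖b p - (((1 - τ ^ 2 * v p / 2 : ℝ)) : ℂ)‖ ≤ τ ^ 4 / 8 * v p := by
      show ‖((Real.exp (-(τ ^ 2 * v p / 2)) : ℝ) : ℂ) - (((1 - τ ^ 2 * v p / 2 : ℝ)) : ℂ)‖ ≤ τ ^ 4 / 8 * v p
      rw [← Complex.ofReal_sub, Complex.norm_real, Real.norm_eq_abs]
      have hvp := hv0 p hp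
      have hvp1 := hv1 p hp
      refine (exp_neg_quad (τ ^ 2 * v p / 2) (by positivity)).trans ?_
      have e6 : (τ ^ 2 * v p / 2) ^ 2 / 2 = τ ^ 4 / 8 * (v p * v p) := by ring
      rw [e6]
      apply mul_le_mul_of_nonneg_left _ (by positivity)
      nlinarith
    have e7 : a p - b p = (a p - (((1 - τ ^ 2 * v p / 2 : ℝ)) : ℂ)) - (b p - (((1 - τ ^ 2 * v p / 2 : ℝ)) : ℂ)) := by
      ring
    rw [e7]
    refine (norm_sub_le _ _).trans ?_
    rw [add_mul]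
    exact add_le_add g1 g2

end Pool.Agent.X55.Art
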