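import Pool.Agent.X55.Art.Clt1

set_option autoImplicit false

/-! # The central limit theorem, sequences -/

namespace Pool.Agent.X55.Art

open Finset Filter Topology ProbabilityTheory
open Pool.Agent.TH894.NE (mean Per)
open Pool.Agent.Y586.SW (Sm tay)

/-- the moments, on ranges -/
theorem momR (I : Finset ℕ) (hI : ∀ p ∈ I, p.Prime) (F : ℕ → ℕ → ℝ)
    (hF : ∀ p ∈ I, ∀ n, F p n = F p (n % p)) (hF1 : ∀ p ∈ I, ∀ n, |F p n| ≤ 1)
    (hF0 : ∀ p ∈ I, ∑ n ∈ range p, F p n = 0) (j : ℕ) (hj : 1 ≤ j)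
    (hjW : (j : ℝ) ≤ ∑ p ∈ I, 1 / (p : ℝ) * ∑ n ∈ range p, F p n ^ 2) :
    1 / ((∏ p ∈ I, p : ℕ) : ℝ) * ∑ n ∈ range (∏ p ∈ I, p), (∑ p ∈ I, F p n) ^ (2 * j) ≤
      2 * (12 * j * (∑ p ∈ I, 1 / (p : ℝ) * ∑ n ∈ range p, F p n ^ 2)) ^ j := by
  classical
  have hm : ∀ (q : ℕ) (H : ℕ → ℝ), mean 1 q (fun n : Fin 1 → ℕ => H (n 0)) = 1 / (q : ℝ) * ∑ n ∈ range q, H n := by
    intro q H
    unfold mean
    rw [pow_one, box_one]
  have h := mom (d := 1) I (fun p => p) (fun p hp => (hI p hp).one_lt.le)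
    (fun p hp p' hp' hne => (Nat.coprime_primes (hI p hp) (hI p' hp')).2 hne)
    (fun p n => F p (n 0)) (fun p hp n => hF p hp (n 0)) (fun p hp n => hF1 p hp (n 0))
    (fun p hp => by rw [hm p (F p), hF0 p hp, mul_zero])
    (∑ p ∈ I, 1 / (p : ℝ) * ∑ n ∈ range p, F p n ^ 2)
    (le_of_eq (sum_congr rfl fun p _ => hm p (fun n => F p n ^ 2))) j hj hjW
  rw [← hm (∏ p ∈ I, p) (fun n => (∑ p ∈ I, F p n) ^ (2 * j))]
  exact h

theorem char_close (θ ε : ℝ) (hε : 0 < ε) : ∃ W₀ : ℝ, ∃ j : ℕ, ∃ η : ℝ, 1 ≤ W₀ ∧ 0 < η ∧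
    ∀ (I : Finset ℕ) (x N : ℕ) (F : ℕ → ℕ → ℝ) (W : ℝ), 1 ≤ x → 1 ≤ N → (∀ p ∈ I, p.Prime ∧ p ≤ x) →
      (∀ p ∈ I, ∀ n, F p n = F p (n % p)) → (∀ p ∈ I, ∀ n, |F p n| ≤ 1) →
      (∀ p ∈ I, ∑ n ∈ range p, F p n = 0) → (∑ p ∈ I, 1 / (p : ℝ) * ∑ n ∈ range p, F p n ^ 2) = W →
      W₀ ≤ W → (x : ℝ) ^ (4 * j) ≤ η * N →
      ‖((1 / (N : ℝ) : ℝ) : ℂ) * ∑ n ∈ Finset.Icc 1 N,
          Complex.exp (Complex.I * ((θ / Real.sqrt W * ∑ p ∈ I, F p n : ℝ) : ℂ)) -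
        ((Real.exp (-(θ ^ 2 / 2)) : ℝ) : ℂ)‖ ≤ ε := by
  classical
  have ht : ∀ᶠ j : ℕ in atTop, (12 * θ ^ 2) ^ j / (j.factorial : ℝ) < ε / 16 :=
    (FloorSemiring.tendsto_pow_div_factorial_atTop (12 * θ ^ 2)).eventually (gt_mem_nhds (by positivity))
  obtain ⟨j, hj1, hj⟩ := ((eventually_ge_atTop 1).and ht).exists
  obtain ⟨c, hc⟩ : ∃ c, c = 4 * (|θ| ^ 3 + θ ^ 4) / ε := ⟨_, rfl⟩
  have hc0 : 0 ≤ c := by rw [hc]; positivity
  obtain ⟨b, hb⟩ : ∃ b, b = |θ| ^ (2 * j) + Real.exp |θ| := ⟨_, rfl⟩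
  have hb0 : 0 < b := by rw [hb]; positivity
  refine ⟨max (max 1 j) (c ^ 2), j, ε / (16 * b), (le_max_left _ _).trans (le_max_left _ _), by positivity, ?_⟩
  intro I x N F W hx hN hI hF hF1 hF0 hW hW0 hxN
  have hW1 : 1 ≤ W := ((le_max_left _ _).trans (le_max_left _ _)).trans hW0
  have hWj : (j : ℝ) ≤ W := ((le_max_right _ _).trans (le_max_left _ _)).trans hW0
  have hWc : c ^ 2 ≤ W := (le_max_right _ _).trans hW0
  have hWpos : 0 < W := by linarith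
  have hs0 : 0 < Real.sqrt W := Real.sqrt_pos.2 hWpos
  have hs1 : 1 ≤ Real.sqrt W := by rw [Real.one_le_sqrt]; exact hW1
  have hsq : Real.sqrt W ^ 2 = W := Real.sq_sqrt hWpos.le
  have hcs : c ≤ Real.sqrt W := (le_abs_self c).trans (Real.abs_le_sqrt hWc)
  obtain ⟨τ, hτ⟩ : ∃ τ, τ = θ / Real.sqrt W := ⟨_, rfl⟩
  have hτW : τ ^ 2 * W = θ ^ 2 := by
    rw [hτ, div_pow, hsq]
    field_simp
  have hτθ : |τ| ≤ |θ| := by
    rw [hτ, abs_div, abs_of_pos hs0]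
    exact div_le_self (abs_nonneg _) hs1
  have hN0 : (0 : ℝ) < N := by exact_mod_cast hN
  rw [← hτ]
  have m1 := momR I (fun p hp => (hI p hp).1) F hF hF1 hF0 j hj1 (by rw [hW]; exact hWj)
  rw [hW] at m1
  have k1 := char_cmp I x hx hI F hF hF1 j N hN τ _ m1
  have k2 := model_char I (fun p hp => (hI p hp).1) F hF hF1 hF0 τ
  rw [hW, hτW] at k2
  -- the pieces
  have hfac : (0 : ℝ) < (2 * j).factorial := by exact_mod_cast Nat.factorial_pos _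
  have hfac1 : (1 : ℝ) ≤ (2 * j).factorial := by exact_mod_cast Nat.factorial_pos _
  have hjf : (0 : ℝ) < j.factorial := by exact_mod_cast Nat.factorial_pos _
  have p1 : |τ| ^ (2 * j) / ((2 * j).factorial : ℝ) * (2 * (2 * (12 * j * W) ^ j)) ≤ ε / 4 := by
    have e1 : |τ| ^ (2 * j) * (12 * j * W) ^ j = (12 * θ ^ 2) ^ j * (j : ℝ) ^ j := by
      rw [pow_mul, sq_abs, ← mul_pow, ← mul_pow]
      congr 1
      rw [← hτW]
      ring
    have e2 : |τ| ^ (2 * j) / ((2 * j).factorial : ℝ) * (2 * (2 * (12 * j * W) ^ j)) =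
        4 * ((12 * θ ^ 2) ^ j * (j : ℝ) ^ j / ((2 * j).factorial : ℝ)) := by
      rw [← e1]
      ring
    have e3 : (j.factorial : ℝ) * (j : ℝ) ^ j ≤ (2 * j).factorial := by
      have h := Nat.factorial_mul_pow_le_factorial (m := j) (n := j)
      rw [← two_mul] at h
      have h2 : j.factorial * j ^ j ≤ (2 * j).factorial :=
        (Nat.mul_le_mul_left _ (Nat.pow_le_pow_left (Nat.le_succ j) j)).trans h
      exact_mod_cast h2
    have e4 : (12 * θ ^ 2) ^ j * (j : ℝ) ^ j / ((2 * j).factorial : ℝ) ≤ (12 * θ ^ 2) ^ j / (j.factorial : ℝ) := by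
      rw [div_le_div_iff₀ hfac hjf]
      have h0 : 0 ≤ (12 * θ ^ 2) ^ j := by positivity
      calc (12 * θ ^ 2) ^ j * (j : ℝ) ^ j * (j.factorial : ℝ) = (12 * θ ^ 2) ^ j * ((j.factorial : ℝ) * (j : ℝ) ^ j) := by ring
        _ ≤ (12 * θ ^ 2) ^ j * (2 * j).factorial := mul_le_mul_of_nonneg_left e3 h0
    rw [e2]
    linarith
  have p2 : 4 * (x : ℝ) ^ (4 * j) / N ≤ ε / (4 * b) := by
    rw [div_le_iff₀ hN0]
    have : ε / (4 * b) * N = 4 * (ε / (16 * b) * N) := by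
      field_simp
      ring
    rw [this]
    linarith
  have p20 : 0 ≤ 4 * (x : ℝ) ^ (4 * j) / N := by positivity
  have p3 : |τ| ^ (2 * j) / ((2 * j).factorial : ℝ) * (4 * (x : ℝ) ^ (4 * j) / N) ≤
      |θ| ^ (2 * j) * (4 * (x : ℝ) ^ (4 * j) / N) := by
    apply mul_le_mul_of_nonneg_right _ p20
    calc |τ| ^ (2 * j) / ((2 * j).factorial : ℝ) ≤ |τ| ^ (2 * j) := div_le_self (by positivity) hfac1
      _ ≤ |θ| ^ (2 * j) := pow_le_pow_left₀ (abs_nonneg _) hτθ _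
  have p4 : Real.exp |τ| * (4 * (x : ℝ) ^ (4 * j) / N) ≤ Real.exp |θ| * (4 * (x : ℝ) ^ (4 * j) / N) :=
    mul_le_mul_of_nonneg_right (Real.exp_le_exp.2 hτθ) p20
  have p5 : (|θ| ^ (2 * j) + Real.exp |θ|) * (4 * (x : ℝ) ^ (4 * j) / N) ≤ ε / 4 := by
    rw [← hb]
    calc b * (4 * (x : ℝ) ^ (4 * j) / N) ≤ b * (ε / (4 * b)) := mul_le_mul_of_nonneg_left p2 hb0.le
      _ = ε / 4 := by field_simp
  have p6 : (|τ| ^ 3 / 6 + τ ^ 4 / 8) * W ≤ ε / 4 := by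
    have e1 : |τ| ^ 3 * W = |θ| ^ 3 / Real.sqrt W := by
      rw [hτ, abs_div, abs_of_pos hs0, div_pow]
      nth_rewrite 2 [← hsq]
      field_simp
    have e2 : τ ^ 4 * W = θ ^ 4 / W := by
      rw [hτ, div_pow]
      have : Real.sqrt W ^ 4 = W * W := by
        calc Real.sqrt W ^ 4 = Real.sqrt W ^ 2 * Real.sqrt W ^ 2 := by ring
          _ = W * W := by rw [hsq]
      rw [this]
      field_simp
    have e3 : θ ^ 4 / W ≤ θ ^ 4 / Real.sqrt W := by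
      apply div_le_div_of_nonneg_left (by positivity) hs0
      calc Real.sqrt W ≤ Real.sqrt W ^ 2 := by nlinarith
        _ = W := hsq
    have e4 : (|θ| ^ 3 + θ ^ 4) / Real.sqrt W ≤ ε / 4 := by
      rw [div_le_iff₀ hs0]
      have h : ε / 4 * c ≤ ε / 4 * Real.sqrt W := mul_le_mul_of_nonneg_left hcs (by positivity)
      refine le_trans (le_of_eq ?_) h
      rw [hc]
      field_simp
    have e5 : 0 ≤ |θ| ^ 3 / Real.sqrt W := by positivity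
    have e6 : 0 ≤ θ ^ 4 / Real.sqrt W := by positivity
    have e7 : (|τ| ^ 3 / 6 + τ ^ 4 / 8) * W = |τ| ^ 3 * W / 6 + τ ^ 4 * W / 8 := by ring
    rw [e7, e1, e2]
    rw [add_div] at e4
    linarith
  set a1 := ((1 / (N : ℝ) : ℝ) : ℂ) * ∑ n ∈ Finset.Icc 1 N, Complex.exp (Complex.I * ((τ * ∑ p ∈ I, F p n : ℝ) : ℂ)) with ha1
  set a2 := ((1 / ((∏ p ∈ I, p : ℕ) : ℝ) : ℝ) : ℂ) * ∑ n ∈ range (∏ p ∈ I, p), Complex.exp (Complex.I * ((τ * ∑ p ∈ I, F p n : ℝ) : ℂ)) with ha2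
  have k3 : ‖a1 - ((Real.exp (-(θ ^ 2 / 2)) : ℝ) : ℂ)‖ ≤ ‖a1 - a2‖ + ‖a2 - ((Real.exp (-(θ ^ 2 / 2)) : ℝ) : ℂ)‖ :=
    norm_sub_le_norm_sub_add_norm_sub _ _ _
  rw [mul_add] at k1
  rw [add_mul] at p5
  linarith

theorem exp_lip (u v : ℝ) : ‖Complex.exp (Complex.I * (u : ℂ)) - Complex.exp (Complex.I * (v : ℂ))‖ ≤ |u - v| := by
  have e : Complex.exp (Complex.I * (u : ℂ)) - Complex.exp (Complex.I * (v : ℂ)) =
      Complex.exp (Complex.I * (v : ℂ)) * (Complex.exp (Complex.I * ((u - v : ℝ) : ℂ)) - 1) := by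
    rw [mul_sub, ← Complex.exp_add, mul_one]
    congr 2
    push_cast
    ring
  rw [e, norm_mul]
  have h1 : ‖Complex.exp (Complex.I * (v : ℂ))‖ = 1 := by rw [mul_comm]; exact Complex.norm_exp_ofReal_mul_I v
  rw [h1, one_mul]
  have h2 := tay 1 (u - v)
  simpa [Sm] using h2

/-- **central limit theorem** for sums of periodic functions -/
theorem clt_seq (X : ℕ → ℕ) (I : ℕ → Finset ℕ) (F : ℕ → ℕ → ℕ → ℝ) (W err : ℕ → ℝ) (E : ℕ → ℕ → ℝ)
    (hX : ∀ N, 1 ≤ X N) (hI : ∀ N, ∀ p ∈ I N, p.Prime ∧ p ≤ X N)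
    (hF : ∀ N, ∀ p ∈ I N, ∀ n, F N p n = F N p (n % p)) (hF1 : ∀ N, ∀ p ∈ I N, ∀ n, |F N p n| ≤ 1)
    (hF0 : ∀ N, ∀ p ∈ I N, ∑ n ∈ range p, F N p n = 0)
    (hW : ∀ N, (∑ p ∈ I N, 1 / (p : ℝ) * ∑ n ∈ range p, F N p n ^ 2) = W N)
    (hWlim : Tendsto W atTop atTop) (hXN : ∀ j : ℕ, Tendsto (fun N : ℕ => (X N : ℝ) ^ j / N) atTop (𝓝 0))
    (hE : ∀ N m : ℕ, |E N m - ∑ p ∈ I N, F N p m| ≤ err N)
    (herr : Tendsto (fun N => err N / Real.sqrt (W N)) atTop (𝓝 0)) (t : ℝ) :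
    Tendsto (fun N : ℕ => (((Finset.Icc 1 N).filter (fun m => E N m ≤ t * Real.sqrt (W N))).card : ℝ) / N) atTop
      (𝓝 (cdf (gaussianReal 0 1) t)) := by
  classical
  rw [← tendsto_add_atTop_iff_nat 1]
  have key := Pool.Agent.H114R2.Stk.finite_cdf_tendsto (fun n => Finset.Icc 1 (n + 1))
    (fun n => ⟨1, by simp⟩) (fun n m => E (n + 1) m / Real.sqrt (W (n + 1))) 1 one_ne_zero ?_ t
  · refine (tendsto_congr' ?_).1 key
    have hev : ∀ᶠ n : ℕ in atTop, 0 < W (n + 1) :=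
      ((tendsto_add_atTop_iff_nat 1).2 hWlim).eventually_gt_atTop 0
    filter_upwards [hev] with n hn
    have hs : 0 < Real.sqrt (W (n + 1)) := Real.sqrt_pos.2 hn
    congr 2
    · congr 1
      apply filter_congr
      intro m _
      rw [div_le_iff₀ hs]
    · simp
  · intro θ
    have h1 : Tendsto (fun N : ℕ => (∑ a ∈ Finset.Icc 1 N,
        Complex.exp (θ * ((E N a / Real.sqrt (W N) : ℝ) : ℂ) * Complex.I)) / ((Finset.Icc 1 N).card : ℂ)) atTop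
        (𝓝 ((Real.exp (-(θ ^ 2 / 2)) : ℝ) : ℂ)) := by
      rw [Metric.tendsto_atTop]
      intro ε hε
      obtain ⟨W₀, j, η, hW₀, hη, H⟩ := char_close θ (ε / 4) (by positivity)
      have ev1 := hWlim.eventually_ge_atTop W₀
      have ev2 : ∀ᶠ N : ℕ in atTop, (X N : ℝ) ^ (4 * j) / N < η := (hXN (4 * j)).eventually (gt_mem_nhds hη)
      have ev3 : ∀ᶠ N : ℕ in atTop, |θ| * (err N / Real.sqrt (W N)) < ε / 4 := by
        have := herr.const_mul |θ|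
        rw [mul_zero] at this
        exact this.eventually (gt_mem_nhds (by positivity))
      obtain ⟨N₀, hN₀⟩ := eventually_atTop.1 ((ev1.and ev2).and (ev3.and (eventually_ge_atTop 1)))
      refine ⟨N₀, fun N hN => ?_⟩
      obtain ⟨⟨a1, a2⟩, a3, a4⟩ := hN₀ N hN
      have hN0 : (0 : ℝ) < N := by exact_mod_cast a4
      have hs : 0 < Real.sqrt (W N) := Real.sqrt_pos.2 (by linarith)
      have hx : (X N : ℝ) ^ (4 * j) ≤ η * N := by
        rw [div_lt_iff₀ hN0] at a2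
        exact a2.le
      have b1 := H (I N) (X N) N (F N) (W N) (hX N) a4 (hI N) (hF N) (hF1 N) (hF0 N) (hW N) a1 hx
      have b2 : ‖(∑ a ∈ Finset.Icc 1 N, Complex.exp (θ * ((E N a / Real.sqrt (W N) : ℝ) : ℂ) * Complex.I)) / ((Finset.Icc 1 N).card : ℂ) -
          ((1 / (N : ℝ) : ℝ) : ℂ) * ∑ n ∈ Finset.Icc 1 N,
          Complex.exp (Complex.I * ((θ / Real.sqrt (W N) * ∑ p ∈ I N, F N p n : ℝ) : ℂ))‖ ≤
          |θ| * (err N / Real.sqrt (W N)) := by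
        have e1 : (∑ a ∈ Finset.Icc 1 N, Complex.exp (θ * ((E N a / Real.sqrt (W N) : ℝ) : ℂ) * Complex.I)) / ((Finset.Icc 1 N).card : ℂ) =
            ((1 / (N : ℝ) : ℝ) : ℂ) * ∑ a ∈ Finset.Icc 1 N, Complex.exp (Complex.I * ((θ / Real.sqrt (W N) * E N a : ℝ) : ℂ)) := by
          rw [Nat.card_Icc, Nat.add_sub_cancel, div_eq_inv_mul]
          congr 1
          · push_cast
            rw [one_div]
          · refine sum_congr rfl fun a _ => ?_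
            congr 1
            push_cast
            ring
        rw [e1, ← mul_sub, ← sum_sub_distrib, norm_mul, Complex.norm_real, Real.norm_of_nonneg (by positivity)]
        have e2 : ‖∑ a ∈ Finset.Icc 1 N, (Complex.exp (Complex.I * ((θ / Real.sqrt (W N) * E N a : ℝ) : ℂ)) -
            Complex.exp (Complex.I * ((θ / Real.sqrt (W N) * ∑ p ∈ I N, F N p a : ℝ) : ℂ)))‖ ≤
            ∑ _a ∈ Finset.Icc 1 N, |θ| * (err N / Real.sqrt (W N)) := by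
          refine (norm_sum_le _ _).trans (sum_le_sum fun a _ => ?_)
          refine (exp_lip _ _).trans ?_
          rw [← mul_sub, abs_mul, abs_div, abs_of_pos hs, div_mul_eq_mul_div, mul_div_assoc]
          apply mul_le_mul_of_nonneg_left _ (abs_nonneg _)
          exact div_le_div_of_nonneg_right (hE N a) hs.le
        rw [sum_const, Nat.card_Icc, Nat.add_sub_cancel, nsmul_eq_mul] at e2
        calc 1 / (N : ℝ) * ‖∑ a ∈ Finset.Icc 1 N, (Complex.exp (Complex.I * ((θ / Real.sqrt (W N) * E N a : ℝ) : ℂ)) -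
            Complex.exp (Complex.I * ((θ / Real.sqrt (W N) * ∑ p ∈ I N, F N p a : ℝ) : ℂ)))‖
            ≤ 1 / (N : ℝ) * (N * (|θ| * (err N / Real.sqrt (W N)))) := mul_le_mul_of_nonneg_left e2 (by positivity)
          _ = |θ| * (err N / Real.sqrt (W N)) := by field_simp
      rw [dist_eq_norm]
      refine lt_of_le_of_lt (norm_sub_le_norm_sub_add_norm_sub _ (((1 / (N : ℝ) : ℝ) : ℂ) * ∑ n ∈ Finset.Icc 1 N,
          Complex.exp (Complex.I * ((θ / Real.sqrt (W N) * ∑ p ∈ I N, F N p n : ℝ) : ℂ))) _) ?_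
      linarith
    have h2 := (tendsto_add_atTop_iff_nat 1).2 h1
    have e3 : ((Real.exp (-(θ ^ 2 / 2)) : ℝ) : ℂ) = Complex.exp (-(((1 : NNReal) : ℝ) * θ ^ 2 / 2 : ℝ)) := by
      push_cast
      rw [one_mul]
    rw [← e3]
    exact h2

end Pool.Agent.X55.Art
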