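import Pool.Agent.X55.Art.Pl1

set_option autoImplicit false

/-! # The exceptional set at one `x`: all ranges -/

namespace Pool.Agent.X55.Art

open Finset Filter
open Pool.Agent.H730R2.AA
open Pool.Agent.TH894.NE (mean Per mean_mono mean_mul mean_add mean_const)
open Pool.Agent.TH890.AS (locDens artin_sets dens dens_art dens_nonneg dens_le_one order_zero)

theorem ev_nat {p : ℝ → Prop} (h : ∀ᶠ x : ℝ in atTop, p x) : ∃ x₀ : ℕ, ∀ x : ℕ, x₀ ≤ x → p x := by
  obtain ⟨x₀, hx₀⟩ := eventually_atTop.1 (tendsto_natCast_atTop_atTop (R := ℝ) |>.eventually h)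
  exact ⟨x₀, hx₀⟩

theorem range12 (β τ θ : ℝ) (hβ1 : β < 1) (hτ : 0 < τ) (hτβ : 4 * τ ≤ β) (hτ8 : τ ≤ 1 / 8)
    (h1 : 1 - β / 2 + 3 * τ ≤ θ) (h2 : 3 / 4 + 3 * τ ≤ θ) : ∃ N₀ : ℕ, ∀ N : ℕ, N₀ ≤ N → ∀ x : ℕ,
    Real.log N ≤ (x : ℝ) ^ (1 - β) → x ^ 2 ≤ N → ∀ B : ℤ,
    (((Finset.Icc 1 N).filter (fun m => (x : ℝ) ^ (1 - τ) ≤ |dv B x m|)).card : ℝ) ≤ (N : ℝ) ^ θ := by
  -- how large `x` has to be
  obtain ⟨y₁, hy₁⟩ := ev_nat ((tendsto_rpow_atTop hτ).eventually_ge_atTop (max 12 (6 / τ)))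
  obtain ⟨N₁, hN₁⟩ := ev_nat (Real.tendsto_log_atTop.eventually_ge_atTop
    (max (max 1 (((y₁ + 3 : ℕ) : ℝ) ^ (1 - β))) (max 1 (8 * Real.log 24 / τ))))
  refine ⟨max N₁ 2, fun N hN x hx hxN B => ?_⟩
  have hN2 : 2 ≤ N := (le_max_right _ _).trans hN
  have hNL := hN₁ N ((le_max_left _ _).trans hN)
  set L := Real.log N with hL
  have hL1 : ((y₁ + 3 : ℕ) : ℝ) ^ (1 - β) ≤ L := (le_max_right _ _).trans ((le_max_left _ _).trans hNL)
  have hL2 : 8 * Real.log 24 / τ ≤ L := (le_max_right _ _).trans ((le_max_right _ _).trans hNL)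
  have hL0 : 1 ≤ L := (le_max_left _ _).trans ((le_max_left _ _).trans hNL)
  have hN0 : (0 : ℝ) < N := by exact_mod_cast (by omega : 0 < N)
  -- `x` is large
  have hxy : y₁ + 3 ≤ x := by
    by_contra hcon
    push Not at hcon
    have h3 : (x : ℝ) < ((y₁ + 3 : ℕ) : ℝ) := by exact_mod_cast hcon
    have h4 : (x : ℝ) ^ (1 - β) < ((y₁ + 3 : ℕ) : ℝ) ^ (1 - β) :=
      Real.rpow_lt_rpow (Nat.cast_nonneg _) h3 (by linarith)
    linarith
  have hx3 : 3 ≤ x := by omega
  have hx0 : (0 : ℝ) < x := by exact_mod_cast (by omega : 0 < x)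
  have hx1 : (1 : ℝ) ≤ x := by exact_mod_cast (by omega : 1 ≤ x)
  have hxτ := hy₁ x (by omega)
  have hx12 : 12 ≤ (x : ℝ) ^ τ := (le_max_left _ _).trans hxτ
  have hx6 : 6 / τ ≤ (x : ℝ) ^ τ := (le_max_right _ _).trans hxτ
  set l := Real.log x with hl
  have hl1 : 1 ≤ l := by
    rw [hl, Real.le_log_iff_exp_le hx0]
    have h3 : (3 : ℝ) ≤ x := by exact_mod_cast hx3
    have := Real.exp_one_lt_d9
    linarith
  have hl0 : 0 < l := by linarith
  have h2l : 2 * l ≤ L := by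
    rw [hL, hl, ← Nat.cast_ofNat (R := ℝ) (n := 2), ← Real.log_pow]
    apply Real.log_le_log (by positivity)
    exact_mod_cast hxN
  obtain ⟨j, hj⟩ : ∃ j, j = ⌊L / (2 * l)⌋₊ := ⟨_, rfl⟩
  have hj1 : 1 ≤ j := by
    rw [hj]
    apply Nat.le_floor
    rw [Nat.cast_one, le_div_iff₀ (by positivity)]
    linarith
  have hj0 : (1 : ℝ) ≤ j := by exact_mod_cast hj1
  have hjle : (j : ℝ) ≤ L / (2 * l) := by rw [hj]; exact Nat.floor_le (by positivity)
  have hjlt : L / (2 * l) < j + 1 := by rw [hj]; exact Nat.lt_floor_add_one _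
  have hjl : (j : ℝ) * (2 * l) ≤ L := by rwa [le_div_iff₀ (by positivity)] at hjle
  have hjl2 : L < (j + 1) * (2 * l) := by rwa [div_lt_iff₀ (by positivity)] at hjlt
  have hxN2 : x ^ (2 * j) ≤ N := by
    have h3 : Real.log ((x : ℝ) ^ (2 * j)) ≤ Real.log N := by
      rw [Real.log_pow, ← hl, ← hL]
      push_cast
      linarith
    have h4 := (Real.log_le_log_iff (by positivity) hN0).1 h3
    exact_mod_cast h4
  have hjL : (j : ℝ) ≤ L := by
    have : (j : ℝ) * 1 ≤ j * (2 * l) := mul_le_mul_of_nonneg_left (by linarith) (by linarith)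
    linarith
  have hfin : ∀ s : ℝ, 0 ≤ s → 12 * (j : ℝ) ≤ (x : ℝ) ^ (1 - 2 * τ - s) →
      Real.log 24 + L - s * (j * l) ≤ θ * L →
      (((Finset.Icc 1 N).filter (fun m => (x : ℝ) ^ (1 - τ) ≤ |dv B x m|)).card : ℝ) ≤ (N : ℝ) ^ θ := by
    intro s hs hs1 hs2
    refine (dev_card2 B x N j (by omega) (by omega) hj1 hxN2 τ s hτ.le hs1 hs).trans ?_
    rw [Real.rpow_def_of_pos hN0, ← hL, ← hl]
    calc 24 * Real.exp (L - s * (j * l)) = Real.exp (Real.log 24 + (L - s * (j * l))) := by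
          rw [Real.exp_add, Real.exp_log (by norm_num)]
      _ ≤ Real.exp (L * θ) := by
          apply Real.exp_le_exp.2
          linarith
  have hlog : Real.log 24 ≤ τ / 8 * L := by
    rw [div_le_iff₀ hτ] at hL2
    linarith
  rcases le_total l (τ * L) with hcase | hcase
  · apply hfin (β - 3 * τ) (by linarith)
    · have h3 : 12 * (j : ℝ) ≤ (x : ℝ) ^ τ * (x : ℝ) ^ (1 - β) :=
        mul_le_mul hx12 (hjL.trans hx) (by linarith) (by positivity)
      refine h3.trans (le_of_eq ?_)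
      rw [← Real.rpow_add hx0]
      ring_nf
    · have h3 : (1 / 2 - τ) * L ≤ j * l := by nlinarith
      have h4 : (β - 3 * τ) * ((1 / 2 - τ) * L) ≤ (β - 3 * τ) * (j * l) :=
        mul_le_mul_of_nonneg_left h3 (by linarith)
      have h5 : (β / 2 - 5 / 2 * τ) * L ≤ (β - 3 * τ) * ((1 / 2 - τ) * L) := by
        have h6 : β / 2 - 5 / 2 * τ ≤ (β - 3 * τ) * (1 / 2 - τ) := by nlinarith
        calc (β / 2 - 5 / 2 * τ) * L ≤ ((β - 3 * τ) * (1 / 2 - τ)) * L :=
              mul_le_mul_of_nonneg_right h6 (by linarith)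
          _ = _ := by ring
      have h7 : (1 - β / 2 + 3 * τ) * L ≤ θ * L := mul_le_mul_of_nonneg_right h1 (by linarith)
      have h8 : 0 ≤ τ * L := by positivity
      nlinarith
  · apply hfin (1 - 3 * τ) (by linarith)
    · have h3 : (j : ℝ) ≤ 1 / (2 * τ) := by
        rw [le_div_iff₀ (by positivity)]
        by_contra hcon
        push Not at hcon
        have h4 : L < j * (2 * τ) * L := by
          have : 1 * L < j * (2 * τ) * L := mul_lt_mul_of_pos_right hcon (by linarith)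
          linarith
        have h5 : j * (2 * τ) * L ≤ j * (2 * l) := by
          have : (j : ℝ) * 2 * (τ * L) ≤ j * 2 * l := mul_le_mul_of_nonneg_left hcase (by positivity)
          linarith
        linarith
      have h4 : 12 * (j : ℝ) ≤ 6 / τ := by
        have : 12 * (1 / (2 * τ)) = 6 / τ := by field_simp; ring
        linarith
      refine (h4.trans hx6).trans (le_of_eq ?_)
      ring_nf
    · have h3 : L / 4 ≤ j * l := by
        have h4 : (j : ℝ) + 1 ≤ 2 * j := by linarith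
        have h5 : (j + 1) * (2 * l) ≤ (2 * j) * (2 * l) := mul_le_mul_of_nonneg_right h4 (by positivity)
        linarith
      have h4 : (1 - 3 * τ) * (L / 4) ≤ (1 - 3 * τ) * (j * l) := mul_le_mul_of_nonneg_left h3 (by linarith)
      have h7 : (3 / 4 + 3 * τ) * L ≤ θ * L := mul_le_mul_of_nonneg_right h2 (by linarith)
      have h8 : 0 ≤ τ * L := by positivity
      nlinarith

/-- the sum of the local densities over all the primes -/
theorem loc_main (B : ℤ) (x : ℕ) :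
    |∑ p ∈ (range (x + 1)).filter Nat.Prime, locDens B 2 p - mainT B x| ≤ 1 := by
  classical
  have hsub : PR B x ⊆ (range (x + 1)).filter Nat.Prime := by
    intro p hp
    rw [PR, mem_filter] at hp
    rw [mem_filter]
    exact ⟨hp.1, hp.2.1⟩
  have h1 : ∑ p ∈ PR B x, locDens B 2 p = mainT B x := by
    unfold mainT
    refine sum_congr rfl fun p hp => ?_
    rw [PR, mem_filter] at hp
    rw [loc2 B p hp.2.1 hp.2.2.1 hp.2.2.2, mul_comm]
  rw [← sum_sdiff hsub, h1, add_sub_cancel_right]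
  have h2 : ∀ p ∈ (range (x + 1)).filter Nat.Prime \ PR B x, locDens B 2 p ≤ if p = 2 then 1 else 0 := by
    intro p hp
    rw [Finset.mem_sdiff, mem_filter, PR, mem_filter] at hp
    have hpp := hp.1.2
    have : Fact p.Prime := ⟨hpp⟩
    split_ifs with h3
    · rw [← dens_art B two_ne_zero]
      apply Pool.Agent.TH890.AS.dens_le_one
      rw [zero_pow two_ne_zero, mul_zero]
      exact order_zero
    · have h4 : (p : ℤ) ∣ B := by
        by_contra h
        exact hp.2 ⟨hp.1.1, hpp, h3, h⟩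
      unfold locDens
      rw [if_pos (Or.inl h4)]
  have h3 : ∀ p ∈ (range (x + 1)).filter Nat.Prime \ PR B x, 0 ≤ locDens B 2 p := by
    intro p hp
    rw [Finset.mem_sdiff, mem_filter] at hp
    have : Fact p.Prime := ⟨hp.1.2⟩
    rw [← dens_art B two_ne_zero]
    exact dens_nonneg _ _
  rw [abs_of_nonneg (sum_nonneg h3)]
  refine (sum_le_sum h2).trans ?_
  rw [← sum_filter, sum_const, nsmul_eq_mul, mul_one]
  have h4 : (((range (x + 1)).filter Nat.Prime \ PR B x).filter (fun p => p = 2)).card ≤ 1 := by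
    refine (card_le_card (t := {2}) ?_).trans (by simp)
    intro p hp
    rw [mem_filter] at hp
    rw [mem_singleton]
    exact hp.2
  exact_mod_cast h4

theorem range3 (τ θ : ℝ) (hτ : 0 < τ) (hτ8 : τ ≤ 1 / 8) (hθ : 3 / 4 + τ ≤ θ) (A : ℕ) :
    ∃ c : ℝ, 0 < c ∧ ∃ N₀ : ℕ, ∀ N : ℕ, N₀ ≤ N → ∀ x : ℕ, N < x ^ 2 → x ≤ N ^ A → ∀ B : ℤ,
    (((Finset.Icc 1 N).filter (fun m : ℕ => (x : ℝ) ^ (1 - c) < |(cnt (B * (m : ℤ) ^ 2) x : ℝ) - mainT B x|)).card : ℝ) ≤
      (N : ℝ) ^ θ := by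
  classical
  have hall : ∀ κ : ℕ, ∃ c : ℝ, 0 < c ∧ ∃ X₀ : ℕ, 1 ≤ κ → ∀ X : ℕ, X₀ ≤ X → ∀ N : ℕ, X ^ 2 ≤ N ^ κ → N ≤ X ^ 2 →
      ∀ S : Finset ℕ, (∀ p ∈ S, p.Prime ∧ p ≤ X) → (X : ℝ) ^ (1 - τ) ≤ #S → ∀ (B : ℤ) (r : ℕ), 1 ≤ r →
      (#((Finset.Icc 1 N).filter (fun m : ℕ => #S * (X : ℝ) ^ (-c) <
        |(#(S.filter (fun p => orderOf ((B * (m : ℤ) ^ r : ℤ) : ZMod p) = p - 1)) : ℝ) -
          ∑ p ∈ S, locDens B r p|)) : ℝ) ≤ N * (X : ℝ) ^ (-(1 - τ - τ) / κ) := by
    intro κ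
    rcases Nat.eq_zero_or_pos κ with h | h
    · exact ⟨1, one_pos, 0, fun h' => by omega⟩
    · obtain ⟨c, hc, X₀, hX⟩ := artin_sets (1 - τ) τ (by linarith) hτ κ 2 h (by norm_num)
      exact ⟨c, hc, X₀, fun _ => hX⟩
  choose cc hcc XX hXX using hall
  obtain ⟨c, hcdef⟩ : ∃ c, c = ((range (2 * A + 3)).inf' (by simp) cc) / 2 := ⟨_, rfl⟩
  have hc0 : 0 < c := by
    rw [hcdef]
    apply half_pos
    rw [lt_inf'_iff]
    exact fun κ _ => hcc κ
  have hcle : ∀ κ, κ < 2 * A + 3 → 2 * c ≤ cc κ := by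
    intro κ hκ
    rw [hcdef]
    have := inf'_le (f := cc) (s := range (2 * A + 3)) (mem_range.2 hκ)
    linarith
  obtain ⟨X₁, hX₁⟩ : ∃ X₁, X₁ = (range (2 * A + 3)).sup XX := ⟨_, rfl⟩
  have hXle : ∀ κ, κ < 2 * A + 3 → XX κ ≤ X₁ := by
    intro κ hκ
    rw [hX₁]
    exact le_sup (f := XX) (mem_range.2 hκ)
  obtain ⟨y₁, hy₁⟩ := ev_nat ((tendsto_rpow_atTop hc0).eventually_ge_atTop 2)
  have hev2 : ∀ᶠ x : ℝ in atTop, 10 * Real.log x ≤ x ^ τ := by
    have h := (isLittleO_log_rpow_atTop hτ).bound (c := 1 / 10) (by norm_num)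
    filter_upwards [h, eventually_gt_atTop 1] with x h1 h2
    rw [Real.norm_of_nonneg (Real.log_nonneg h2.le), Real.norm_of_nonneg (by positivity)] at h1
    linarith
  obtain ⟨y₂, hy₂⟩ := ev_nat hev2
  refine ⟨min c (1 / 2), lt_min hc0 (by norm_num), (X₁ + y₁ + y₂ + 3) ^ 2, fun N hN x hNx hxN B => ?_⟩
  have hxlarge : X₁ + y₁ + y₂ + 3 ≤ x := by
    by_contra hcon
    push Not at hcon
    have : x ^ 2 < (X₁ + y₁ + y₂ + 3) ^ 2 := Nat.pow_lt_pow_left hcon (by norm_num)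
    omega
  have hx3 : 3 ≤ x := by omega
  have hx0 : (0 : ℝ) < x := by exact_mod_cast (by omega : 0 < x)
  have hx1 : (1 : ℝ) ≤ x := by exact_mod_cast (by omega : 1 ≤ x)
  have hN1 : 2 ≤ N := by nlinarith
  have hN0 : (0 : ℝ) < N := by exact_mod_cast (by omega : 0 < N)
  -- the exponent
  have hex : ∃ κ, x ^ 2 ≤ N ^ κ := ⟨2 * A, by
    rw [mul_comm, pow_mul]
    exact Nat.pow_le_pow_left hxN 2⟩
  obtain ⟨κ, hκdef⟩ : ∃ κ, κ = Nat.find hex := ⟨_, rfl⟩
  have hκ1 : x ^ 2 ≤ N ^ κ := by rw [hκdef]; exact Nat.find_spec hex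
  have hκA : κ ≤ 2 * A := by
    rw [hκdef]
    apply Nat.find_min'
    rw [mul_comm, pow_mul]
    exact Nat.pow_le_pow_left hxN 2
  have hκ2 : 2 ≤ κ := by
    by_contra hcon
    have h3 : N ^ κ ≤ N ^ 1 := Nat.pow_le_pow_right (by omega) (by omega)
    rw [pow_one] at h3
    omega
  have hκ3 : N ^ (κ - 1) < x ^ 2 := by
    have := Nat.find_min hex (m := κ - 1) (by rw [← hκdef]; omega)
    omega
  set S := (range (x + 1)).filter Nat.Prime with hS
  have hScard : S.card = Nat.primeCounting x := by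
    rw [Nat.primeCounting, Nat.primeCounting', Nat.count_eq_card_filter_range]
  have hSbig : (x : ℝ) ^ (1 - τ) ≤ #S := by
    rw [hScard]
    refine le_trans ?_ (MTLib.pi_lower x (by omega))
    have h3 := hy₂ x (by omega)
    have hlog : 0 < Real.log x := Real.log_pos (by linarith [show (3 : ℝ) ≤ x by exact_mod_cast hx3])
    rw [le_div_iff₀ (by positivity)]
    calc (x : ℝ) ^ (1 - τ) * (10 * Real.log x) ≤ (x : ℝ) ^ (1 - τ) * (x : ℝ) ^ τ :=
          mul_le_mul_of_nonneg_left h3 (by positivity)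
      _ = x := by rw [← Real.rpow_add hx0]; simp
  have hmain := hXX κ (by omega) x ((hXle κ (by omega)).trans (by omega)) N hκ1 hNx.le S
    (fun p hp => by rw [hS, mem_filter, mem_range] at hp; exact ⟨hp.2, by omega⟩) hSbig B 2 (by norm_num)
  refine le_trans ?_ (hmain.trans ?_)
  · apply Nat.cast_le.2
    apply card_le_card
    intro m hm
    rw [mem_filter] at hm ⊢
    refine ⟨hm.1, ?_⟩
    by_contra hcon
    push Not at hcon
    have h3 : (#(S.filter (fun p => orderOf ((B * (m : ℤ) ^ 2 : ℤ) : ZMod p) = p - 1)) : ℝ) =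
        (cnt (B * (m : ℤ) ^ 2) x : ℝ) := by
      unfold cnt
      rw [hS, filter_filter]
    rw [h3] at hcon
    have h4 := loc_main B x
    have h5 : (#S : ℝ) * (x : ℝ) ^ (-cc κ) ≤ (x : ℝ) ^ (1 - 2 * c) := by
      have h6 : (#S : ℝ) ≤ x := by
        rw [hScard]
        exact_mod_cast pi_le_self x
      calc (#S : ℝ) * (x : ℝ) ^ (-cc κ) ≤ x * (x : ℝ) ^ (-(2 * c)) := by
            apply mul_le_mul h6 _ (by positivity) hx0.le
            exact Real.rpow_le_rpow_of_exponent_le hx1 (by linarith [hcle κ (by omega)])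
        _ = (x : ℝ) ^ (1 - 2 * c) := by
            nth_rewrite 1 [← Real.rpow_one (x : ℝ)]
            rw [← Real.rpow_add hx0]
            ring_nf
    have h7 : (x : ℝ) ^ (1 - 2 * c) + 1 ≤ (x : ℝ) ^ (1 - min c (1 / 2)) := by
      have h8 := hy₁ x (by omega)
      rcases le_total (1 - 2 * c) 0 with h9 | h9
      · have k1 : (x : ℝ) ^ (1 - 2 * c) ≤ 1 := Real.rpow_le_one_of_one_le_of_nonpos hx1 h9
        have k2 : (2 : ℝ) ≤ (x : ℝ) ^ (1 - min c (1 / 2)) := by
          have k3 : min c (1 / 2) = 1 / 2 := min_eq_right (by linarith)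
          rw [k3]
          calc (2 : ℝ) ≤ 4 ^ (1 / 2 : ℝ) := by
                rw [show (4 : ℝ) = 2 ^ (2 : ℝ) by norm_num, ← Real.rpow_mul (by norm_num)]
                norm_num
            _ ≤ (x : ℝ) ^ (1 - 1 / 2 : ℝ) := by
                have : (4 : ℝ) ≤ x := by
                  have h10 : 4 ≤ x := by
                    by_contra h11
                    have h12 : x = 3 := by omega
                    have h13 : y₁ = 0 := by omega
                    have h14 := hy₁ 0 (by omega)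
                    rw [Nat.cast_zero, Real.zero_rpow hc0.ne'] at h14
                    norm_num at h14
                  exact_mod_cast h10
                calc (4 : ℝ) ^ (1 / 2 : ℝ) ≤ (x : ℝ) ^ (1 / 2 : ℝ) :=
                      Real.rpow_le_rpow (by norm_num) this (by norm_num)
                  _ = _ := by norm_num
        linarith
      · have k1 : (1 : ℝ) ≤ (x : ℝ) ^ (1 - 2 * c) := Real.one_le_rpow hx1 h9
        have k2 : (x : ℝ) ^ (1 - 2 * c) * 2 ≤ (x : ℝ) ^ (1 - 2 * c) * (x : ℝ) ^ c :=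
          mul_le_mul_of_nonneg_left h8 (by positivity)
        have k3 : (x : ℝ) ^ (1 - 2 * c) * (x : ℝ) ^ c ≤ (x : ℝ) ^ (1 - min c (1 / 2)) := by
          rw [← Real.rpow_add hx0]
          apply Real.rpow_le_rpow_of_exponent_le hx1
          have := min_le_left c (1 / 2)
          linarith
        linarith
    have h8 : |(cnt (B * (m : ℤ) ^ 2) x : ℝ) - mainT B x| ≤ (x : ℝ) ^ (1 - 2 * c) + 1 := by
      have h9 := hcon.trans h5
      rw [abs_le] at h9 h4 ⊢
      constructor <;> linarith [h9.1, h9.2, h4.1, h4.2]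
    linarith [hm.2]
  · -- the size
    set L := Real.log N with hL
    have hL0 : 0 ≤ L := Real.log_nonneg (by exact_mod_cast (by omega : 1 ≤ N))
    have h3 : ((κ : ℝ) - 1) * L ≤ 2 * Real.log x := by
      have h4 : Real.log ((N : ℝ) ^ (κ - 1)) ≤ Real.log ((x : ℝ) ^ 2) := by
        apply Real.log_le_log (by positivity)
        exact_mod_cast hκ3.le
      rw [Real.log_pow, Real.log_pow, Nat.cast_sub (by omega)] at h4
      push_cast at h4
      exact h4
    have hκr : (2 : ℝ) ≤ κ := by exact_mod_cast hκ2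
    have h4 : (N : ℝ) * (x : ℝ) ^ (-(1 - τ - τ) / κ) = Real.exp (L + (-(1 - τ - τ) / κ) * Real.log x) := by
      rw [Real.exp_add, hL, Real.exp_log hN0, Real.rpow_def_of_pos hx0, mul_comm (Real.log x)]
    rw [h4, Real.rpow_def_of_pos hN0, ← hL]
    apply Real.exp_le_exp.2
    have h5 : (1 - τ - τ) / κ * Real.log x ≥ (1 - 2 * τ) * (L / 4) := by
      have h6 : L / 4 ≤ Real.log x / κ := by
        rw [le_div_iff₀ (by linarith)]
        nlinarith
      calc (1 - 2 * τ) * (L / 4) ≤ (1 - 2 * τ) * (Real.log x / κ) := mul_le_mul_of_nonneg_left h6 (by linarith)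
        _ = (1 - τ - τ) / κ * Real.log x := by ring
    have h7 : -(1 - τ - τ) / (κ : ℝ) * Real.log x = -((1 - τ - τ) / κ * Real.log x) := by ring
    rw [h7]
    have h8 : (3 / 4 + τ) * L ≤ θ * L := mul_le_mul_of_nonneg_right hθ hL0
    have h9 : 0 ≤ τ * L := by positivity
    nlinarith

end Pool.Agent.X55.Art
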