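import Pool.Agent.X55.Art.Clt2
import Pool.Agent.X55.Art.Pl2

set_option autoImplicit false

/-! # The Gaussian law: arithmetic part -/

namespace Pool.Agent.X55.Art

open Finset Filter Topology ProbabilityTheory
open Pool.Agent.H730R2.AA
open Pool.Agent.TH894.NE (mean Per)

/-- the mean value of the indicator -/
noncomputable def fm (B : ℤ) (p : ℕ) : ℝ := (1 - (jacobiSym B p : ℝ)) * ((Nat.totient (p - 1) : ℝ) / p)

/-- the variance -/
noncomputable def Va (B : ℤ) (x : ℕ) : ℝ := ∑ p ∈ PR B x, fm B p * (1 - fm B p)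

theorem gsum (B : ℤ) (p : ℕ) (hp : p.Prime) (hp2 : p ≠ 2) (hB : ¬ (p : ℤ) ∣ B) :
    1 / (p : ℝ) * ∑ n ∈ range p, gI B p (fun _ => n) = fm B p := by
  have h := gI_mean B p hp hp2 hB
  unfold mean at h
  rw [pow_one, box_one] at h
  rw [h]
  unfold fm rho
  have hp0 : (p : ℝ) ≠ 0 := by exact_mod_cast hp.ne_zero
  have hp1 : ((p - 1 : ℕ) : ℝ) ≠ 0 := by
    have := hp.two_le
    exact_mod_cast (by omega : p - 1 ≠ 0)
  field_simp

theorem fm_bd (B : ℤ) (p : ℕ) (hp : p.Prime) (hp2 : p ≠ 2) (hB : ¬ (p : ℤ) ∣ B) : 0 ≤ fm B p ∧ fm B p ≤ 1 := by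
  have hp0 : (0 : ℝ) < p := by exact_mod_cast hp.pos
  rw [← gsum B p hp hp2 hB]
  constructor
  · exact mul_nonneg (by positivity) (sum_nonneg fun n _ => gI_nonneg B p _)
  · rw [one_div_mul_eq_div, div_le_one hp0]
    refine (sum_le_sum fun n _ => gI_le B p _).trans ?_
    simp

/-- the centred indicator -/
noncomputable def Fc (B : ℤ) (p n : ℕ) : ℝ := gI B p (fun _ => n) - fm B p

theorem Fc_per (B : ℤ) (p n : ℕ) : Fc B p n = Fc B p (n % p) := by
  unfold Fc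
  rw [gI_per B p (fun _ => n)]

theorem Fc_abs (B : ℤ) (p : ℕ) (hp : p.Prime) (hp2 : p ≠ 2) (hB : ¬ (p : ℤ) ∣ B) (n : ℕ) : |Fc B p n| ≤ 1 := by
  have h1 := fm_bd B p hp hp2 hB
  have h2 := gI_nonneg B p (fun _ => n)
  have h3 := gI_le B p (fun _ => n)
  unfold Fc
  rw [abs_le]
  constructor <;> linarith [h1.1, h1.2]

theorem Fc_sum (B : ℤ) (p : ℕ) (hp : p.Prime) (hp2 : p ≠ 2) (hB : ¬ (p : ℤ) ∣ B) : ∑ n ∈ range p, Fc B p n = 0 := by
  have h1 := gsum B p hp hp2 hB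
  have hp0 : (p : ℝ) ≠ 0 := by exact_mod_cast hp.ne_zero
  unfold Fc
  rw [sum_sub_distrib, sum_const, card_range, nsmul_eq_mul, ← h1]
  field_simp
  ring

theorem Fc_sq (B : ℤ) (p : ℕ) (hp : p.Prime) (hp2 : p ≠ 2) (hB : ¬ (p : ℤ) ∣ B) :
    1 / (p : ℝ) * ∑ n ∈ range p, Fc B p n ^ 2 = fm B p * (1 - fm B p) := by
  have h1 := gsum B p hp hp2 hB
  have hp0 : (p : ℝ) ≠ 0 := by exact_mod_cast hp.ne_zero
  have h2 : ∀ n ∈ range p, Fc B p n ^ 2 = (1 - 2 * fm B p) * gI B p (fun _ => n) + fm B p ^ 2 := by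
    intro n _
    have h3 : gI B p (fun _ => n) ^ 2 = gI B p (fun _ => n) := by
      unfold gI
      split_ifs <;> norm_num
    unfold Fc
    linear_combination h3
  rw [sum_congr rfl h2, sum_add_distrib, ← mul_sum, sum_const, card_range, nsmul_eq_mul]
  have h4 : 1 / (p : ℝ) * ((1 - 2 * fm B p) * ∑ n ∈ range p, gI B p (fun _ => n) + p * fm B p ^ 2) =
      (1 - 2 * fm B p) * (1 / (p : ℝ) * ∑ n ∈ range p, gI B p (fun _ => n)) + 1 / (p : ℝ) * p * fm B p ^ 2 := by ring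
  rw [h4, h1, one_div_mul_cancel hp0]
  ring

theorem cnt_cmp (B : ℤ) (m x : ℕ) :
    |((cnt (B * (m : ℤ) ^ 2) x : ℝ) - mainT B x) - ∑ p ∈ PR B x, Fc B p m| ≤ 3 + 2 * Real.log x := by
  have h1 := cnt_eq_sum B m x
  have h2 := mean_main B x
  have h3 : ∑ p ∈ PR B x, mean 1 p (gI B p) = ∑ p ∈ PR B x, fm B p := by
    refine sum_congr rfl fun p hp => ?_
    rw [PR, mem_filter] at hp
    rw [← gsum B p hp.2.1 hp.2.2.1 hp.2.2.2]
    unfold mean
    rw [pow_one, box_one]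
  rw [h3] at h2
  have h4 : ∑ p ∈ PR B x, Fc B p m = ∑ p ∈ PR B x, gI B p (fun _ => m) - ∑ p ∈ PR B x, fm B p := by
    unfold Fc
    rw [sum_sub_distrib]
  rw [h4]
  rw [abs_le] at h1 h2 ⊢
  constructor <;> linarith [h1.1, h1.2, h2.1, h2.2]

/-- one term of the variance -/
theorem term_low (D : ℤ) (p l x : ℕ) (hp : p.Prime) (hl : l.Prime) (hl2 : l ≠ 2) (hlp : l ∣ p - 1)
    (hj : jacobiSym D p = -1) (hpx : p ≤ x) (hp2 : p ≠ 2) : 1 / (2 * l * Real.sqrt x) ≤ fm D p * (1 - fm D p) := by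
  have h2 := hp.two_le
  have hp3 : 3 ≤ p := by omega
  have hp0 : (0 : ℝ) < p := by exact_mod_cast hp.pos
  have hp10 : (0 : ℝ) < ((p - 1 : ℕ) : ℝ) := by exact_mod_cast (by omega : 0 < p - 1)
  have hcast : ((p - 1 : ℕ) : ℝ) = (p : ℝ) - 1 := by rw [Nat.cast_sub (by omega)]; simp
  have hl0 : (0 : ℝ) < l := by exact_mod_cast hl.pos
  have hl1 : (1 : ℝ) < l := by exact_mod_cast hl.one_lt
  have hx0 : (0 : ℝ) < x := by exact_mod_cast (by omega : 0 < x)
  have hsx : 0 < Real.sqrt x := Real.sqrt_pos.2 hx0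
  have hf : fm D p = 2 * ((Nat.totient (p - 1) : ℝ) / p) := by
    unfold fm
    rw [hj]
    push_cast
    ring
  -- upper bound
  have hr : rho p ≤ 1 / 2 * (1 - 1 / (l : ℝ)) := by
    rw [rho_prod p (by omega)]
    have hsub : ({2, l} : Finset ℕ) ⊆ (p - 1).primeFactors := by
      intro q hq
      rw [mem_insert, mem_singleton] at hq
      rw [Nat.mem_primeFactors]
      rcases hq with rfl | rfl
      · refine ⟨Nat.prime_two, ?_, by omega⟩
        have := hp.odd_of_ne_two hp2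
        obtain ⟨t, ht⟩ := this
        exact ⟨t, by omega⟩
      · exact ⟨hl, hlp, by omega⟩
    rw [← prod_sdiff hsub]
    have e1 : ∏ q ∈ (p - 1).primeFactors \ {2, l}, (1 - 1 / (q : ℝ)) ≤ 1 := by
      apply prod_le_one
      · intro q hq
        rw [Finset.mem_sdiff] at hq
        have hq1 : (1 : ℝ) ≤ q := by exact_mod_cast (Nat.prime_of_mem_primeFactors hq.1).one_lt.le
        have : 1 / (q : ℝ) ≤ 1 := by rw [div_le_one (by linarith)]; exact hq1
        linarith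
      · intro q _
        have : 0 ≤ 1 / (q : ℝ) := by positivity
        linarith
    have e2 : ∏ q ∈ ({2, l} : Finset ℕ), (1 - 1 / (q : ℝ)) = 1 / 2 * (1 - 1 / (l : ℝ)) := by
      rw [prod_pair (Ne.symm hl2)]
      norm_num
    rw [e2]
    have e3 : 0 ≤ 1 / 2 * (1 - 1 / (l : ℝ)) := by
      have : 1 / (l : ℝ) ≤ 1 := by rw [div_le_one hl0]; exact hl1.le
      linarith
    calc (∏ q ∈ (p - 1).primeFactors \ {2, l}, (1 - 1 / (q : ℝ))) * (1 / 2 * (1 - 1 / (l : ℝ)))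
        ≤ 1 * (1 / 2 * (1 - 1 / (l : ℝ))) := mul_le_mul_of_nonneg_right e1 e3
      _ = _ := one_mul _
  have hφ0 : (0 : ℝ) ≤ Nat.totient (p - 1) := Nat.cast_nonneg _
  have hf1 : fm D p ≤ 1 - 1 / (l : ℝ) := by
    rw [hf]
    have e1 : (Nat.totient (p - 1) : ℝ) / p ≤ rho p := by
      unfold rho
      apply div_le_div_of_nonneg_left hφ0 hp10
      rw [hcast]
      linarith
    linarith
  have hf2 : 1 / (2 * Real.sqrt x) ≤ fm D p := by
    rw [hf]
    have e1 := Euler.sqrt_le_totient (p - 1) (by omega)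
    have e2 : Real.sqrt ((p - 1 : ℕ) : ℝ) / (2 * ((p - 1 : ℕ) : ℝ)) ≤ 2 * ((Nat.totient (p - 1) : ℝ) / p) := by
      rw [mul_div_assoc', div_le_div_iff₀ (by positivity) hp0]
      have e3 : (p : ℝ) ≤ 2 * ((p - 1 : ℕ) : ℝ) := by
        rw [hcast]
        have : (3 : ℝ) ≤ p := by exact_mod_cast hp3
        linarith
      calc Real.sqrt ((p - 1 : ℕ) : ℝ) * p ≤ (2 * (Nat.totient (p - 1) : ℝ)) * (2 * ((p - 1 : ℕ) : ℝ)) :=
            mul_le_mul e1 e3 hp0.le (by positivity)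
        _ = _ := by ring
    refine le_trans ?_ e2
    have e4 : Real.sqrt ((p - 1 : ℕ) : ℝ) ≤ Real.sqrt x := by
      apply Real.sqrt_le_sqrt
      exact_mod_cast (by omega : p - 1 ≤ x)
    have e5 : 0 < Real.sqrt ((p - 1 : ℕ) : ℝ) := Real.sqrt_pos.2 hp10
    have e6 : Real.sqrt ((p - 1 : ℕ) : ℝ) * Real.sqrt ((p - 1 : ℕ) : ℝ) = ((p - 1 : ℕ) : ℝ) := Real.mul_self_sqrt hp10.le
    rw [div_le_div_iff₀ (by positivity) (by positivity)]
    nlinarith
  have h3 : 0 < 1 / (l : ℝ) := by positivity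
  have h4 : 0 < 1 / (2 * Real.sqrt x) := by positivity
  calc 1 / (2 * l * Real.sqrt x) = 1 / (2 * Real.sqrt x) * (1 / (l : ℝ)) := by
        field_simp
    _ ≤ fm D p * (1 - fm D p) := mul_le_mul hf2 (by linarith) h3.le (by linarith)

theorem var_low (A : ℕ) : ∃ x₀ : ℕ, ∀ x : ℕ, x₀ ≤ x → ∀ D : ℤ, Squarefree D → D % 4 = 1 → D ≠ 1 →
    (|D| : ℝ) ≤ (Real.log x) ^ A → (x : ℝ) ^ (1 / 4 : ℝ) ≤ Va D x := by
  classical
  obtain ⟨C, hC, hsw⟩ := sw (2 * A + 2)
  have ev1 : ∀ᶠ x : ℝ in atTop, 3 * (Real.log x) ^ (2 * A) ≤ x ^ (1 / 4 : ℝ) := by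
    have h := (isLittleO_log_rpow_rpow_atTop ((2 * A : ℕ) : ℝ) (show (0 : ℝ) < 1 / 4 by norm_num)).bound
      (c := 1 / 3) (by norm_num)
    filter_upwards [h, eventually_gt_atTop 1] with x h1 h2
    rw [Real.rpow_natCast, Real.norm_of_nonneg (pow_nonneg (Real.log_nonneg h2.le) _),
      Real.norm_of_nonneg (by positivity)] at h1
    linarith
  have ev2 : ∀ᶠ x : ℝ in atTop, 60 * C ≤ Real.log x := Real.tendsto_log_atTop.eventually_ge_atTop _
  have ev3 : ∀ᶠ x : ℝ in atTop, 360 * (Real.log x) ^ (3 * A + 1) ≤ x ^ (1 / 4 : ℝ) := by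
    have h := (isLittleO_log_rpow_rpow_atTop ((3 * A + 1 : ℕ) : ℝ) (show (0 : ℝ) < 1 / 4 by norm_num)).bound
      (c := 1 / 360) (by norm_num)
    filter_upwards [h, eventually_gt_atTop 1] with x h1 h2
    rw [Real.rpow_natCast, Real.norm_of_nonneg (pow_nonneg (Real.log_nonneg h2.le) _),
      Real.norm_of_nonneg (by positivity)] at h1
    linarith
  obtain ⟨x₀, hx₀⟩ := ev_nat ((ev1.and ev2).and (ev3.and (Real.tendsto_log_atTop.eventually_ge_atTop 1)))
  refine ⟨max x₀ 3, fun x hx D hD hD1 hD2 hDx => ?_⟩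
  have hx3 : 3 ≤ x := (le_max_right _ _).trans hx
  obtain ⟨⟨k1, k2⟩, k3, k4⟩ := hx₀ x ((le_max_left _ _).trans hx)
  have hx0 : (0 : ℝ) < x := by exact_mod_cast (by omega : 0 < x)
  obtain ⟨L, hL⟩ : ∃ L, L = Real.log x := ⟨_, rfl⟩
  rw [← hL] at k1 k2 k3 k4 hDx
  have hL0 : 0 < L := by linarith
  obtain ⟨n, hn⟩ : ∃ n, n = D.natAbs := ⟨_, rfl⟩
  have hD0 : D ≠ 0 := hD.ne_zero
  have hnsq : Squarefree n := by rw [hn]; exact Int.squarefree_natAbs.2 hD
  have hnodd : Odd n := by rw [hn]; exact Nat.odd_iff.2 (by omega)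
  have hn3 : 3 ≤ n := by
    obtain ⟨t, ht⟩ := hnodd
    have : n ≠ 1 := by
      intro h1
      rw [hn] at h1
      rcases Int.natAbs_eq D with h | h <;> omega
    omega
  have hnL : (n : ℝ) ≤ L ^ A := by
    rw [hn, Nat.cast_natAbs, Int.cast_abs]
    exact hDx
  -- the auxiliary prime
  obtain ⟨l, hl⟩ : ∃ l, l = (2 * n + 1).minFac := ⟨_, rfl⟩
  have hlp : l.Prime := by rw [hl]; exact Nat.minFac_prime (by omega)
  have hld : l ∣ 2 * n + 1 := by rw [hl]; exact Nat.minFac_dvd _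
  have hl2 : l ≠ 2 := by
    intro h
    rw [h] at hld
    omega
  have hln : ¬ l ∣ n := by
    intro h
    have h1 : l ∣ 1 := (Nat.dvd_add_right (Dvd.dvd.mul_left h 2)).1 hld
    exact hlp.one_lt.ne' (Nat.dvd_one.1 h1)
  have hl3 : l ≤ 3 * n := (Nat.le_of_dvd (by omega) hld).trans (by omega)
  obtain ⟨k, hk1, hk2, hk3⟩ := exists_neg n l hnsq hnodd (by
    intro h
    rcases (Nat.dvd_prime hlp).1 h with h1 | h1
    · omega
    · exact hln (by rw [h1]))
  -- the modulus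
  obtain ⟨Q, hQ⟩ : ∃ Q, Q = l * n := ⟨_, rfl⟩
  rw [← hQ] at hk1
  have hQ1 : 1 ≤ Q := by
    rw [hQ]
    exact Nat.mul_pos hlp.pos (by omega)
  have hQL : (Q : ℝ) ≤ 3 * L ^ (2 * A) := by
    have h1 : (Q : ℝ) ≤ 3 * (n : ℝ) * n := by
      rw [hQ]
      push_cast
      apply mul_le_mul_of_nonneg_right _ (Nat.cast_nonneg _)
      exact_mod_cast hl3
    calc (Q : ℝ) ≤ 3 * (n : ℝ) * n := h1
      _ ≤ 3 * (L ^ A) * L ^ A := by gcongr
      _ = 3 * L ^ (2 * A) := by rw [two_mul, pow_add]; ring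
  have her := hsw x hx3 Q k hQ1 (hQL.trans k1) hk1
  unfold Pool.Agent.H442R2.KF.Er at her
  rw [piN_eq, ← hL] at her
  have hpi := MTLib.pi_lower x (by omega)
  rw [← hL] at hpi
  have hφ : (0 : ℝ) < Q.totient := by exact_mod_cast Nat.totient_pos.2 (by omega : 0 < Q)
  have hφQ : (Q.totient : ℝ) ≤ 3 * L ^ (2 * A) := le_trans (by exact_mod_cast Nat.totient_le Q) hQL
  have hmain : (x : ℝ) / (60 * L ^ (2 * A + 1)) ≤ (Pool.Agent.H442R2.KF.piAP x Q k : ℝ) := by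
    have h1 : (x : ℝ) / (30 * L ^ (2 * A + 1)) ≤ (Nat.primeCounting x : ℝ) / Q.totient := by
      rw [div_le_div_iff₀ (by positivity) hφ]
      calc (x : ℝ) * Q.totient ≤ x * (3 * L ^ (2 * A)) := mul_le_mul_of_nonneg_left hφQ hx0.le
        _ = (x : ℝ) / (10 * L) * (30 * L ^ (2 * A + 1)) := by
            field_simp
            ring
        _ ≤ (Nat.primeCounting x : ℝ) * (30 * L ^ (2 * A + 1)) := mul_le_mul_of_nonneg_right hpi (by positivity)
    have h2 : C * (x / L ^ (2 * A + 2)) ≤ x / (60 * L ^ (2 * A + 1)) := by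
      rw [mul_div_assoc', div_le_div_iff₀ (by positivity) (by positivity)]
      have h3 : x * L ^ (2 * A + 2) = x * L ^ (2 * A + 1) * L := by ring
      rw [h3]
      calc C * x * (60 * L ^ (2 * A + 1)) = x * L ^ (2 * A + 1) * (60 * C) := by ring
        _ ≤ x * L ^ (2 * A + 1) * L := mul_le_mul_of_nonneg_left k2 (by positivity)
    have h4 : (x : ℝ) / (30 * L ^ (2 * A + 1)) = x / (60 * L ^ (2 * A + 1)) + x / (60 * L ^ (2 * A + 1)) := by
      field_simp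
      ring
    have h5 := (abs_le.1 her).1
    linarith
  -- the class
  obtain ⟨T, hT⟩ : ∃ T, T = (Finset.Icc 1 x).filter (fun p : ℕ => p.Prime ∧ p ≡ k [MOD Q]) := ⟨_, rfl⟩
  have hTcard : T.card = Pool.Agent.H442R2.KF.piAP x Q k := by
    rw [hT]
    rfl
  have hTp : ∀ p ∈ T, p ∈ PR D x ∧ 1 / (2 * l * Real.sqrt x) ≤ fm D p * (1 - fm D p) := by
    intro p hp
    rw [hT, mem_filter, Finset.mem_Icc] at hp
    obtain ⟨⟨hp1, hpx⟩, hpp, hpk⟩ := hp
    have hpl : p ≡ 1 [MOD l] := by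
      have h1 : p ≡ k [MOD l] := hpk.of_dvd (by rw [hQ]; exact dvd_mul_right _ _)
      exact h1.trans hk2
    have hpn : p ≡ k [MOD n] := hpk.of_dvd (by rw [hQ]; exact dvd_mul_left _ _)
    have hlp1 : l ∣ p - 1 := (Nat.modEq_iff_dvd' hp1).1 hpl.symm
    have hp2 : p ≠ 2 := by
      rintro rfl
      have := Nat.le_of_dvd (by norm_num) hlp1
      have := hlp.two_le
      omega
    have hpD : ¬ (p : ℤ) ∣ D := by
      intro h
      have h1 : p ∣ n := by rw [hn]; exact Int.natCast_dvd.1 h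
      have h2 : p ∣ k := (hpn.dvd_iff h1).1 dvd_rfl
      have h3 : Nat.Coprime k n := hk1.coprime_dvd_right (by rw [hQ]; exact dvd_mul_left _ _)
      have h4 : p ∣ 1 := by
        rw [← h3]
        exact Nat.dvd_gcd h2 h1
      exact hpp.one_lt.ne' (Nat.dvd_one.1 h4)
    have hj : jacobiSym D p = -1 := by
      rw [recip D hD1 p hpp hp2, ← hn, ← hk3, jacobiSym.mod_left, jacobiSym.mod_left (k : ℤ)]
      congr 1
      exact_mod_cast hpn
    refine ⟨?_, term_low D p l x hpp hlp hl2 hlp1 hj hpx hp2⟩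
    rw [PR, mem_filter, mem_range]
    exact ⟨by omega, hpp, hp2, hpD⟩
  have hsx : 0 < Real.sqrt x := Real.sqrt_pos.2 hx0
  have hl0 : (0 : ℝ) < l := by exact_mod_cast hlp.pos
  have hVlow : (T.card : ℝ) * (1 / (2 * l * Real.sqrt x)) ≤ Va D x := by
    unfold Va
    have h1 : ∑ p ∈ T, fm D p * (1 - fm D p) ≤ ∑ p ∈ PR D x, fm D p * (1 - fm D p) := by
      apply sum_le_sum_of_subset_of_nonneg (fun p hp => (hTp p hp).1)
      intro p hp _
      rw [PR, mem_filter] at hp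
      have := fm_bd D p hp.2.1 hp.2.2.1 hp.2.2.2
      exact mul_nonneg this.1 (by linarith [this.2])
    refine le_trans ?_ h1
    rw [← nsmul_eq_mul]
    exact card_nsmul_le_sum T _ _ fun p hp => (hTp p hp).2
  refine le_trans ?_ hVlow
  rw [hTcard]
  have hlL : (l : ℝ) ≤ 3 * L ^ A := by
    calc (l : ℝ) ≤ 3 * n := by exact_mod_cast hl3
      _ ≤ 3 * L ^ A := by linarith
  have h6 : 1 / (6 * L ^ A * Real.sqrt x) ≤ 1 / (2 * l * Real.sqrt x) := by
    apply one_div_le_one_div_of_le (by positivity)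
    apply mul_le_mul_of_nonneg_right _ hsx.le
    linarith
  calc (x : ℝ) ^ (1 / 4 : ℝ) ≤ (x : ℝ) / (60 * L ^ (2 * A + 1)) * (1 / (6 * L ^ A * Real.sqrt x)) := by
        rw [div_mul_div_comm, mul_one, le_div_iff₀ (by positivity)]
        have h7 : (x : ℝ) = x ^ (1 / 4 : ℝ) * x ^ (1 / 4 : ℝ) * Real.sqrt x := by
          rw [Real.sqrt_eq_rpow, ← Real.rpow_add hx0, ← Real.rpow_add hx0]
          norm_num
        have h8 : 60 * L ^ (2 * A + 1) * (6 * L ^ A * Real.sqrt x) = 360 * L ^ (3 * A + 1) * Real.sqrt x := by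
          have : 3 * A + 1 = (2 * A + 1) + A := by ring
          rw [this, pow_add]
          ring
        rw [h8]
        refine le_trans ?_ (le_of_eq h7.symm)
        calc (x : ℝ) ^ (1 / 4 : ℝ) * (360 * L ^ (3 * A + 1) * Real.sqrt x)
            ≤ (x : ℝ) ^ (1 / 4 : ℝ) * (x ^ (1 / 4 : ℝ) * Real.sqrt x) := by
              apply mul_le_mul_of_nonneg_left _ (by positivity)
              exact mul_le_mul_of_nonneg_right k3 hsx.le
          _ = _ := by ring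
    _ ≤ (Pool.Agent.H442R2.KF.piAP x Q k : ℝ) * (1 / (2 * l * Real.sqrt x)) :=
        mul_le_mul hmain h6 (by positivity) (Nat.cast_nonneg _)

end Pool.Agent.X55.Art
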