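import Pool.Agent.X55.Art.Loc

set_option autoImplicit false

/-! # Few digit changes -/

namespace Pool.Agent.X55.Art

open Finset Filter
open Pool.Agent.H730R2.AA
open Pool.Agent.TH894.NE (box mean Per law3 mean_mono mean_const)
open Pool.Agent.TH894.SM (change)

theorem card_PR_le (B : ℤ) (x : ℕ) : (PR B x).card ≤ x := by
  have h : PR B x ⊆ Finset.Icc 1 x := by
    intro p hp
    rw [PR, mem_filter, mem_range] at hp
    rw [Finset.mem_Icc]
    exact ⟨hp.2.1.one_lt.le, by omega⟩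
  simpa using card_le_card h

theorem mean_sq_le (B : ℤ) (x : ℕ) : ∑ p ∈ PR B x, mean 1 p (fun n => gI B p n ^ 2) ≤ x := by
  calc ∑ p ∈ PR B x, mean 1 p (fun n => gI B p n ^ 2) ≤ ∑ _p ∈ PR B x, (1 : ℝ) := by
        refine sum_le_sum fun p hp => ?_
        rw [PR, mem_filter] at hp
        have h1 := mean_mono (d := 1) (q := p) (F := fun n => gI B p n ^ 2) (G := fun _ => (1 : ℝ))
          (fun n => by
            have h2 := gI_nonneg B p n
            have h3 := gI_le B p n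
            nlinarith)
        rw [mean_const 1 p hp.2.1.one_lt.le] at h1
        exact h1
    _ = ((PR B x).card : ℝ) := by simp
    _ ≤ x := by exact_mod_cast card_PR_le B x

/-- elementary inequalities for large `x` -/
theorem ev_ineq (ε : ℝ) (hε : 0 < ε) (hε4 : ε ≤ 1 / 4) (A : ℕ) : ∃ x₀ : ℕ, ∀ x : ℕ, x₀ ≤ x →
    Real.sqrt x * (x : ℝ) ^ (ε / 2) + 1 + 2 * (1 + Real.log x) ≤ (x : ℝ) ^ (1 / 2 + ε) ∧
    (x : ℝ) ^ (1 / 2 + ε) + 4 * A * Real.log x + x / (Real.log x) ^ (A + 1) ≤ x / (Real.log x) ^ A := by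
  have e1 : ∀ᶠ x : ℝ in atTop, 2 ≤ x ^ (ε / 2) :=
    (tendsto_rpow_atTop (by positivity)).eventually_ge_atTop _
  have e2 : ∀ᶠ x : ℝ in atTop, 6 * (3 + 2 * Real.log x) ≤ x ^ (1 / 2 : ℝ) := by
    have h := (isLittleO_log_rpow_atTop (r := 1 / 2) (by norm_num)).bound (c := 1 / 30) (by norm_num)
    filter_upwards [h, eventually_gt_atTop 1, Real.tendsto_log_atTop.eventually_ge_atTop 1] with x h1 h2 h3
    rw [Real.norm_of_nonneg (Real.log_nonneg h2.le), Real.norm_of_nonneg (by positivity)] at h1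
    linarith
  have e3 : ∀ᶠ x : ℝ in atTop, 3 * Real.log x ^ A ≤ x ^ (1 / 4 : ℝ) := by
    have h := (isLittleO_log_rpow_rpow_atTop (A : ℝ) (show (0:ℝ) < 1 / 4 by norm_num)).bound
      (show (0:ℝ) < 1 / 3 by norm_num)
    filter_upwards [h, eventually_ge_atTop (1:ℝ)] with x hx hx1
    rw [Real.norm_eq_abs, Real.norm_eq_abs, Real.rpow_natCast,
      abs_of_nonneg (pow_nonneg (Real.log_nonneg hx1) _),
      abs_of_nonneg (Real.rpow_nonneg (by linarith) _)] at hx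
    linarith
  have e4 : ∀ᶠ x : ℝ in atTop, 12 * A * Real.log x ^ (A + 1) ≤ x := by
    have h := (isLittleO_log_rpow_rpow_atTop ((A + 1 : ℕ) : ℝ) (show (0:ℝ) < 1 by norm_num)).bound
      (show (0:ℝ) < 1 / (12 * A + 1) by positivity)
    filter_upwards [h, eventually_ge_atTop (1:ℝ)] with x hx hx1
    rw [Real.norm_eq_abs, Real.norm_eq_abs, Real.rpow_natCast, Real.rpow_one,
      abs_of_nonneg (pow_nonneg (Real.log_nonneg hx1) _), abs_of_nonneg (by linarith : (0:ℝ) ≤ x),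
      div_mul_eq_mul_div, one_mul, le_div_iff₀ (by positivity)] at hx
    have : 0 ≤ Real.log x ^ (A + 1) := pow_nonneg (Real.log_nonneg hx1) _
    nlinarith
  have e5 : ∀ᶠ x : ℝ in atTop, 3 ≤ Real.log x := Real.tendsto_log_atTop.eventually_ge_atTop _
  obtain ⟨x₀, hx₀⟩ := eventually_atTop.1 (tendsto_natCast_atTop_atTop.eventually
    ((e1.and e2).and ((e3.and e4).and (e5.and (eventually_ge_atTop (1 : ℝ))))))
  refine ⟨x₀, fun x hx => ?_⟩
  obtain ⟨⟨h1, h2⟩, ⟨h3, h4⟩, h5, h6⟩ := hx₀ x hx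
  have hx0 : (0 : ℝ) < x := by linarith
  set L := Real.log x with hL
  have hL0 : 0 < L := by linarith
  constructor
  · have h7 : (x : ℝ) ^ (1 / 2 + ε) = Real.sqrt x * (x : ℝ) ^ (ε / 2) * (x : ℝ) ^ (ε / 2) := by
      rw [Real.sqrt_eq_rpow, ← Real.rpow_add hx0, ← Real.rpow_add hx0]
      congr 1
      ring
    rw [h7]
    have h8 : Real.sqrt x = (x : ℝ) ^ (1 / 2 : ℝ) := Real.sqrt_eq_rpow _
    have h9 : 0 ≤ Real.sqrt x := Real.sqrt_nonneg _
    have h10 : Real.sqrt x * 2 ≤ Real.sqrt x * (x : ℝ) ^ (ε / 2) := mul_le_mul_of_nonneg_left h1 h9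
    have h11 : Real.sqrt x * (x : ℝ) ^ (ε / 2) * 2 ≤ Real.sqrt x * (x : ℝ) ^ (ε / 2) * (x : ℝ) ^ (ε / 2) :=
      mul_le_mul_of_nonneg_left h1 (by positivity)
    rw [h8] at h10
    rw [← h8] at h10
    rw [← h8] at h2
    linarith
  · have hA0 : 0 < L ^ A := by positivity
    have k1 : (x : ℝ) ^ (1 / 2 + ε) ≤ 1 / 3 * (x / L ^ A) := by
      have h7 : (x : ℝ) ^ (1 / 2 + ε) ≤ (x : ℝ) ^ (3 / 4 : ℝ) :=
        Real.rpow_le_rpow_of_exponent_le h6 (by linarith)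
      refine h7.trans ?_
      rw [← mul_div_assoc, le_div_iff₀ hA0]
      have h8 : (x : ℝ) ^ (3 / 4 : ℝ) * (x : ℝ) ^ (1 / 4 : ℝ) = x := by
        rw [← Real.rpow_add hx0]
        norm_num
      have h9 : 0 ≤ (x : ℝ) ^ (3 / 4 : ℝ) := by positivity
      nlinarith
    have k2 : 4 * A * L ≤ 1 / 3 * (x / L ^ A) := by
      rw [← mul_div_assoc, le_div_iff₀ hA0]
      rw [pow_succ] at h4
      nlinarith
    have k3 : x / L ^ (A + 1) ≤ 1 / 3 * (x / L ^ A) := by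
      rw [pow_succ, ← div_div, div_le_iff₀ hL0]
      have : 0 ≤ (x : ℝ) / L ^ A := by positivity
      nlinarith
    linarith

/-- the two conclusions from a square root bound -/
theorem concl (ε : ℝ) (hε : 0 < ε) (hε4 : ε ≤ 1 / 4) (A : ℕ) : ∃ x₀ : ℕ, ∀ x : ℕ, x₀ ≤ x →
    ∀ (m : ℕ) (B : ℤ), B ≠ 0 → (|B| : ℝ) ≤ (x : ℝ) ^ A →
    |∑ p ∈ PR B x, gI B p (fun _ => m) - ∑ p ∈ PR B x, mean 1 p (gI B p)| ≤
      Real.sqrt x * (x : ℝ) ^ (ε / 2) →
    |(cnt (B * (m : ℤ) ^ 2) x : ℝ) - mainT B x| ≤ (x : ℝ) ^ (1 / 2 + ε) ∧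
    ∀ D k : ℤ, B = D * k ^ 2 → Squarefree D → D % 4 = 1 → D ≠ 1 → (|D| : ℝ) ≤ (Real.log x) ^ A →
      |(cnt (B * (m : ℤ) ^ 2) x : ℝ) - dens D * (Nat.primeCounting x : ℝ)| ≤ x / (Real.log x) ^ A := by
  obtain ⟨x₁, h1⟩ := ev_ineq ε hε hε4 A
  obtain ⟨x₂, h2⟩ := ml (A + 1) A
  refine ⟨max (max x₁ x₂) 1, fun x hx m B hB0 hBA hdev => ?_⟩
  obtain ⟨k1, k2⟩ := h1 x ((le_max_left _ _).trans ((le_max_left _ _).trans hx))
  have hx1 : 1 ≤ x := (le_max_right _ _).trans hx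
  have hx0 : (0 : ℝ) < x := by exact_mod_cast hx1
  have g1 := cnt_eq_sum B m x
  have g2 := mean_main B x
  have hmain : |(cnt (B * (m : ℤ) ^ 2) x : ℝ) - mainT B x| ≤ (x : ℝ) ^ (1 / 2 + ε) := by
    rw [abs_le] at g1 g2 hdev ⊢
    constructor <;> linarith [g1.1, g1.2, g2.1, g2.2, hdev.1, hdev.2]
  refine ⟨hmain, fun D k hBD hD hD4 hD1 hDA => ?_⟩
  have hk : k ≠ 0 := by
    rintro rfl
    apply hB0
    rw [hBD]
    ring
  have hD0 : D ≠ 0 := by
    rintro rfl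
    apply hB0
    rw [hBD]
    ring
  have g3 := h2 x ((le_max_right _ _).trans ((le_max_left _ _).trans hx)) D hD hD4 hD1 (by
    rw [Nat.cast_natAbs]
    exact_mod_cast hDA)
  have g4 := mainT_sq D k hk x
  rw [← hBD] at g4
  have g5 : 2 * (k.natAbs.primeFactors.card : ℝ) ≤ 4 * A * Real.log x := by
    have g6 := pf_le_log (Int.natAbs_ne_zero.2 hk)
    have g7 : Real.log (k.natAbs : ℝ) ≤ A * Real.log x := by
      rw [← Real.log_pow]
      apply Real.log_le_log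
      · exact_mod_cast Int.natAbs_pos.2 hk
      · refine le_trans ?_ hBA
        rw [Nat.cast_natAbs]
        have : |k| ≤ |B| := by
          rw [hBD, abs_mul, abs_pow]
          have h3 : 1 ≤ |D| := Int.one_le_abs hD0
          have h4 : 1 ≤ |k| := Int.one_le_abs hk
          nlinarith
        exact_mod_cast this
    linarith
  rw [abs_le] at hmain g3 g4 ⊢
  constructor <;> linarith [hmain.1, hmain.2, g3.1, g3.2, g4.1, g4.2]

theorem few (b : ℕ) (hb : 2 ≤ b) (ε : ℝ) (hε : 0 < ε) (A : ℕ) : ∃ c : ℝ, 0 < c ∧ ∃ y₀ : ℕ,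
    ∀ r K y : ℕ, 2 * r ≤ K → y₀ ≤ y → ∀ N : ℕ, N < b ^ K → ∀ f : ℕ → ℕ,
    (∀ j, f j < b ∧ f j ≠ N / b ^ j % b) → ∀ Ex ⊆ powersetCard r (range K),
    (∀ S ∈ Ex, ¬ ∀ x : ℕ, y ≤ x → (x : ℝ) ≤ Real.exp (c * r) → ∀ B : ℤ, B ≠ 0 → (|B| : ℝ) ≤ (x : ℝ) ^ A →
      |(cnt (B * ((change b K N f S : ℕ) : ℤ) ^ 2) x : ℝ) - mainT B x| ≤ (x : ℝ) ^ (1 / 2 + ε) ∧
      ∀ D k : ℤ, B = D * k ^ 2 → Squarefree D → D % 4 = 1 → D ≠ 1 → (|D| : ℝ) ≤ (Real.log x) ^ A →
        |(cnt (B * ((change b K N f S : ℕ) : ℤ) ^ 2) x : ℝ) - dens D * (Nat.primeCounting x : ℝ)| ≤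
          x / (Real.log x) ^ A) →
    (Ex.card : ℝ) ≤ 1 / (y : ℝ) ^ A * (K.choose r : ℝ) := by
  classical
  obtain ⟨ε', hε'⟩ : ∃ ε' : ℝ, ε' = min ε (1 / 4) := ⟨_, rfl⟩
  have hε0 : 0 < ε' := by rw [hε']; exact lt_min hε (by norm_num)
  have hε4 : ε' ≤ 1 / 4 := by rw [hε']; exact min_le_right _ _
  have hεε : ε' ≤ ε := by rw [hε']; exact min_le_left _ _
  obtain ⟨x₁, h1⟩ := concl ε' hε0 hε4 A
  obtain ⟨c, hc, x₂, h2⟩ := law3 b 1 hb le_rfl (ε' / 2) A (A + 2) (by positivity)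
  refine ⟨c, hc, max (max x₁ x₂) 3, fun r K y hrK hy N hN f hf Ex hEx hbad => ?_⟩
  have hy1 : x₁ ≤ y := (le_max_left _ _).trans ((le_max_left _ _).trans hy)
  have hy2 : x₂ ≤ y := (le_max_right _ _).trans ((le_max_left _ _).trans hy)
  have hy3 : 3 ≤ y := (le_max_right _ _).trans hy
  have hy0 : (0 : ℝ) < y := by exact_mod_cast (by omega : 0 < y)
  set Ex' : Finset (Fin 1 → Finset ℕ) := Ex.image (fun S => fun _ => S) with hEx'
  have hcard : Ex'.card = Ex.card := by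
    rw [hEx']
    apply card_image_of_injective
    intro S T h
    exact congrFun h 0
  obtain ⟨Λ, hΛ⟩ : ∃ Λ : ℕ → Finset ℤ, Λ = fun x : ℕ => if x < 3 then ∅ else
    (Finset.Icc (-(x : ℤ) ^ A) ((x : ℤ) ^ A)).erase 0 := ⟨_, rfl⟩
  have hmain := h2 (fun _ => r) (fun _ => K) y (fun _ => hrK) hy2 (fun _ => N) (fun _ => hN) (fun _ => f)
    (fun _ j => hf j) ℤ Λ ?_ ℕ (fun x B => PR B x) (fun _ p => p) ?_ ?_ gI ?_ ?_ Ex' ?_ ?_
  · rw [hcard] at hmain
    refine hmain.trans (le_of_eq ?_)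
    rw [Fin.prod_univ_one, Real.rpow_neg hy0.le, Real.rpow_natCast, one_div]
  · intro x _
    rw [hΛ]
    show (((if x < 3 then ∅ else (Finset.Icc (-(x : ℤ) ^ A) ((x : ℤ) ^ A)).erase 0 : Finset ℤ)).card : ℝ) ≤ _
    split_ifs with hx
    · rw [card_empty, Nat.cast_zero]
      positivity
    · push Not at hx
      have hx3 : (3 : ℝ) ≤ x := by exact_mod_cast hx
      have h3 : ((Finset.Icc (-(x : ℤ) ^ A) ((x : ℤ) ^ A)).erase 0).card ≤ 2 * x ^ A + 1 := by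
        refine (card_erase_le).trans ?_
        rw [Int.card_Icc]
        have : ((x : ℤ) ^ A + 1 - -(x : ℤ) ^ A).toNat = 2 * x ^ A + 1 := by
          have e : ((x : ℤ) ^ A + 1 - -(x : ℤ) ^ A) = ((2 * x ^ A + 1 : ℕ) : ℤ) := by push_cast; ring
          rw [e, Int.toNat_natCast]
        omega
      have h4 : ((((Finset.Icc (-(x : ℤ) ^ A) ((x : ℤ) ^ A)).erase 0).card : ℕ) : ℝ) ≤ 2 * (x : ℝ) ^ A + 1 := by
        exact_mod_cast h3
      refine h4.trans ?_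
      have h5 : (x : ℝ) ^ ((A : ℝ) + 2) = (x : ℝ) ^ A * (x : ℝ) ^ 2 := by
        rw [Real.rpow_add (by linarith), Real.rpow_natCast]
        norm_num
      rw [h5]
      have h6 : (1 : ℝ) ≤ (x : ℝ) ^ A := one_le_pow₀ (by linarith)
      have h7 : (9 : ℝ) ≤ (x : ℝ) ^ 2 := by nlinarith
      have h8 : (x : ℝ) ^ A * 9 ≤ (x : ℝ) ^ A * (x : ℝ) ^ 2 := mul_le_mul_of_nonneg_left h7 (by linarith)
      linarith
  · intro x B _ p hp
    rw [PR, mem_filter, mem_range] at hp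
    exact ⟨hp.2.1.one_lt.le, by omega⟩
  · intro x B _ p hp p' hp' hne
    rw [PR, mem_filter] at hp hp'
    exact (Nat.coprime_primes hp.2.1 hp'.2.1).2 hne
  · intro x B _ p _
    exact gI_per B p
  · intro x B _ p _ n
    exact gI_abs B p n
  · intro S hS
    rw [hEx', mem_image] at hS
    obtain ⟨T, hT, rfl⟩ := hS
    rw [Fintype.mem_piFinset]
    exact fun _ => hEx hT
  · intro S hS
    rw [hEx', mem_image] at hS
    obtain ⟨T, hT, rfl⟩ := hS
    have hb1 := hbad T hT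
    by_contra hcon
    apply hb1
    intro x hyx hxr B hB0 hBA
    have hx1 : x₁ ≤ x := hy1.trans hyx
    have hx3 : 3 ≤ x := hy3.trans hyx
    have hx0 : (0 : ℝ) < x := by exact_mod_cast (by omega : 0 < x)
    push Not at hcon
    have h3 := hcon x hyx (fun _ => by
      rw [← Real.exp_le_exp, Real.exp_log hx0]
      exact hxr) B (by
      rw [hΛ]
      show B ∈ (if x < 3 then (∅ : Finset ℤ) else (Finset.Icc (-(x : ℤ) ^ A) ((x : ℤ) ^ A)).erase 0)
      rw [if_neg (by omega), mem_erase, Finset.mem_Icc]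
      refine ⟨hB0, ?_⟩
      have h4 : |B| ≤ (x : ℤ) ^ A := by exact_mod_cast hBA
      exact abs_le.1 h4)
    have h4 : Real.sqrt (max 1 (∑ p ∈ PR B x, mean 1 p (fun n => gI B p n ^ 2))) ≤ Real.sqrt x := by
      apply Real.sqrt_le_sqrt
      apply max_le
      · exact_mod_cast (by omega : 1 ≤ x)
      · exact mean_sq_le B x
    have h5 := h1 x hx1 (change b K N f T) B hB0 hBA (h3.trans
      (mul_le_mul_of_nonneg_right h4 (by positivity)))
    refine ⟨h5.1.trans ?_, h5.2⟩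
    apply Real.rpow_le_rpow_of_exponent_le
    · exact_mod_cast (by omega : 1 ≤ x)
    · linarith

end Pool.Agent.X55.Art
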