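import Pool.Agent.X55.Art.Ml
import Pool.Agent.TH890.AS.R4
import Pool.Agent.TH894.NE5

set_option autoImplicit false

/-! # Local densities of `B m²`, and the comparison of the main terms -/

namespace Pool.Agent.X55.Art

open Finset Filter
open Pool.Agent.H730R2.AA
open Pool.Agent.TH890.AS (dens dens_eq dens_art locDens)
open Pool.Agent.TH894.NE (box mean Per)

theorem rho_prod (p : ℕ) (hp : 1 < p) :
    rho p = ∏ l ∈ (p - 1).primeFactors, (1 - 1 / (l : ℝ)) := by
  have h0 : p - 1 ≠ 0 := by omega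
  have h1 : (((p - 1 : ℕ)) : ℝ) ≠ 0 := by exact_mod_cast h0
  unfold rho
  have h2 := Nat.totient_eq_mul_prod_factors (p - 1)
  have h3 : ((Nat.totient (p - 1) : ℕ) : ℝ) = ((p - 1 : ℕ) : ℝ) * ∏ l ∈ (p - 1).primeFactors, (1 - (l : ℝ)⁻¹) := by
    have h4 : (((Nat.totient (p - 1) : ℕ) : ℚ) : ℝ) = (((p - 1 : ℕ) : ℚ) * ∏ l ∈ (p - 1).primeFactors, (1 - (l : ℚ)⁻¹) : ℚ) := by
      rw [h2]
    push_cast at h4
    exact_mod_cast h4
  rw [h3, mul_div_cancel_left₀ _ h1]
  refine prod_congr rfl fun l _ => ?_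
  rw [one_div]

theorem loc2 (B : ℤ) (p : ℕ) (hp : p.Prime) (hp2 : p ≠ 2) (hB : ¬ (p : ℤ) ∣ B) :
    locDens B 2 p = (1 - (jacobiSym B p : ℝ)) * rho p := by
  classical
  have : Fact p.Prime := ⟨hp⟩
  have hodd : Odd p := hp.odd_of_ne_two hp2
  have hp3 : 3 ≤ p := by
    have := hp.two_le
    omega
  have h2 : 2 ∣ p - 1 := by
    obtain ⟨k, hk⟩ := hodd
    exact ⟨k, by omega⟩
  have hB0 : (B : ZMod p) ≠ 0 := fun h => hB ((ZMod.intCast_zmod_eq_zero_iff_dvd B p).1 h)
  rw [← jacobiSym.legendreSym.to_jacobiSym]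
  unfold locDens
  by_cases hsq : IsSquare (B : ZMod p)
  · rw [if_pos, (legendreSym.eq_one_iff p hB0).2 hsq]
    · simp
    · right
      refine ⟨2, Nat.prime_two, dvd_rfl, h2, ?_⟩
      obtain ⟨y, hy⟩ := hsq
      exact ⟨y, by rw [hy]; ring⟩
  · rw [if_neg, (legendreSym.eq_neg_one_iff p).2 hsq]
    · rw [rho_prod p (by omega)]
      have h3 : 2 ∈ (p - 1).primeFactors := by
        rw [Nat.mem_primeFactors]
        exact ⟨Nat.prime_two, h2, by omega⟩
      have h4 : (p - 1).primeFactors.filter (fun l => ¬ l ∣ 2) = (p - 1).primeFactors.erase 2 := by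
        ext l
        rw [mem_filter, mem_erase]
        constructor
        · rintro ⟨h5, h6⟩
          refine ⟨?_, h5⟩
          rintro rfl
          exact h6 dvd_rfl
        · rintro ⟨h5, h6⟩
          refine ⟨h6, fun h7 => h5 ?_⟩
          exact (Nat.prime_dvd_prime_iff_eq (Nat.prime_of_mem_primeFactors h6) Nat.prime_two).1 h7
      rw [h4, ← mul_prod_erase _ _ h3]
      push_cast
      ring
    · rintro (h | ⟨l, hl, hl2, hlp, y, hy⟩)
      · exact hB h
      · have hl3 := (Nat.prime_dvd_prime_iff_eq hl Nat.prime_two).1 hl2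
        subst hl3
        exact hsq ⟨y, by rw [← hy]; ring⟩

/-- the indicator function -/
noncomputable def gI (B : ℤ) (p : ℕ) (n : Fin 1 → ℕ) : ℝ := by
  classical
  exact if orderOf ((B : ZMod p) * ((n 0 : ℕ) : ZMod p) ^ 2) = p - 1 then 1 else 0

theorem gI_per (B : ℤ) (p : ℕ) : Per p (gI B p) := by
  intro n
  unfold gI
  simp only [ZMod.natCast_mod]

theorem gI_nonneg (B : ℤ) (p : ℕ) (n : Fin 1 → ℕ) : 0 ≤ gI B p n := by
  unfold gI
  split_ifs <;> norm_num

theorem gI_le (B : ℤ) (p : ℕ) (n : Fin 1 → ℕ) : gI B p n ≤ 1 := by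
  unfold gI
  split_ifs <;> norm_num

theorem gI_abs (B : ℤ) (p : ℕ) (n : Fin 1 → ℕ) : |gI B p n| ≤ 1 := by
  rw [abs_of_nonneg (gI_nonneg B p n)]
  exact gI_le B p n

/-- sums over the box of dimension one -/
theorem box_one (q : ℕ) (F : (Fin 1 → ℕ) → ℝ) :
    ∑ n ∈ Pool.Agent.TH894.NE.box 1 q, F n = ∑ a ∈ range q, F (fun _ => a) := by
  classical
  unfold Pool.Agent.TH894.NE.box
  symm
  refine sum_bij (fun a _ => fun _ => a) ?_ ?_ ?_ ?_
  · intro a ha
    rw [Fintype.mem_piFinset]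
    exact fun _ => ha
  · intro a _ b _ h
    exact congrFun h 0
  · intro n hn
    rw [Fintype.mem_piFinset] at hn
    exact ⟨n 0, hn 0, funext fun i => by rw [Subsingleton.elim i 0]⟩
  · intro a _
    rfl

theorem gI_mean (B : ℤ) (p : ℕ) (hp : p.Prime) (hp2 : p ≠ 2) (hB : ¬ (p : ℤ) ∣ B) :
    mean 1 p (gI B p) = (((p - 1 : ℕ) : ℝ) / p) * ((1 - (jacobiSym B p : ℝ)) * rho p) := by
  classical
  have : Fact p.Prime := ⟨hp⟩
  have h2 := hp.two_le
  have hp0 : (p : ℝ) ≠ 0 := by exact_mod_cast hp.ne_zero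
  have hp1 : ((p - 1 : ℕ) : ℝ) ≠ 0 := by exact_mod_cast (by omega : p - 1 ≠ 0)
  rw [← loc2 B p hp hp2 hB, ← dens_art B (two_ne_zero), dens_eq]
  unfold mean
  rw [box_one, pow_one]
  have h3 : ∑ a ∈ range p, gI B p (fun _ => a) =
      (#((univ : Finset (ZMod p)).filter (fun x => orderOf ((B : ZMod p) * x ^ 2) = p - 1)) : ℝ) := by
    rw [card_filter]
    push_cast
    symm
    refine sum_bij (fun (x : ZMod p) _ => x.val) ?_ ?_ ?_ ?_
    · intro x _
      rw [mem_range]
      exact ZMod.val_lt x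
    · intro x _ y _ h
      exact ZMod.val_injective p h
    · intro a ha
      rw [mem_range] at ha
      exact ⟨(a : ZMod p), mem_univ _, ZMod.val_cast_of_lt ha⟩
    · intro x _
      unfold gI
      simp only [ZMod.natCast_val, ZMod.cast_id', id]
  rw [h3]
  field_simp

theorem jac_abs (a : ℤ) (b : ℕ) : |(jacobiSym a b : ℝ)| ≤ 1 := by
  rcases jacobiSym.trichotomy a b with h | h | h <;> rw [h] <;> norm_num

theorem rho_nn (p : ℕ) : 0 ≤ rho p := by unfold rho; positivity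

theorem rho_le (p : ℕ) : rho p ≤ 1 := by
  unfold rho
  apply div_le_one_of_le₀ _ (Nat.cast_nonneg _)
  exact_mod_cast Nat.totient_le _

theorem term_bd (B : ℤ) (p : ℕ) : 0 ≤ (1 - (jacobiSym B p : ℝ)) * rho p ∧ (1 - (jacobiSym B p : ℝ)) * rho p ≤ 2 := by
  have h1 := abs_le.1 (jac_abs B p)
  have h2 := rho_nn p
  have h3 := rho_le p
  constructor
  · exact mul_nonneg (by linarith [h1.2]) h2
  · nlinarith [h1.1, h1.2]

theorem harm (x : ℕ) : ∑ p ∈ (range (x + 1)).filter Nat.Prime, (1 : ℝ) / p ≤ 1 + Real.log x := by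
  rcases Nat.eq_zero_or_pos x with rfl | hx
  · rw [show (range (0 + 1)).filter Nat.Prime = ∅ by decide]
    simp
  have h1 : ∑ p ∈ (range (x + 1)).filter Nat.Prime, (1 : ℝ) / p ≤ ∑ i ∈ Finset.Icc 1 x, (1 : ℝ) / i := by
    apply sum_le_sum_of_subset_of_nonneg
    · intro p hp
      rw [mem_filter, mem_range] at hp
      rw [Finset.mem_Icc]
      exact ⟨hp.2.one_lt.le, by omega⟩
    · intro i _ _
      positivity
  refine h1.trans ?_
  have h2 := harmonic_le_one_add_log x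
  rw [harmonic_eq_sum_Icc] at h2
  push_cast at h2
  simpa [one_div] using h2

/-- the sum of the local means is the main term, up to a logarithm -/
theorem mean_main (B : ℤ) (x : ℕ) :
    |∑ p ∈ PR B x, mean 1 p (gI B p) - mainT B x| ≤ 2 * (1 + Real.log x) := by
  classical
  unfold mainT
  rw [← sum_sub_distrib]
  refine (abs_sum_le_sum_abs _ _).trans ?_
  calc ∑ p ∈ PR B x, |mean 1 p (gI B p) - rho p * (1 - (jacobiSym B p : ℝ))|
      ≤ ∑ p ∈ PR B x, 2 * ((1 : ℝ) / p) := by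
        refine sum_le_sum fun p hp => ?_
        rw [PR, mem_filter] at hp
        obtain ⟨_, h1, h2, h3⟩ := hp
        rw [gI_mean B p h1 h2 h3]
        have hp0 : (0 : ℝ) < p := by exact_mod_cast h1.pos
        have e : (((p - 1 : ℕ) : ℝ) / p) * ((1 - (jacobiSym B p : ℝ)) * rho p) -
            rho p * (1 - (jacobiSym B p : ℝ)) = -(((1 - (jacobiSym B p : ℝ)) * rho p) * (1 / p)) := by
          rw [Nat.cast_sub h1.one_le]
          push_cast
          field_simp
          ring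
        have h4 := term_bd B p
        rw [e, abs_neg, abs_of_nonneg (mul_nonneg h4.1 (by positivity))]
        exact mul_le_mul_of_nonneg_right h4.2 (by positivity)
    _ ≤ ∑ p ∈ (range (x + 1)).filter Nat.Prime, 2 * ((1 : ℝ) / p) := by
        apply sum_le_sum_of_subset_of_nonneg
        · intro p hp
          rw [PR, mem_filter] at hp
          rw [mem_filter]
          exact ⟨hp.1, hp.2.1⟩
        · intro i _ _
          positivity
    _ = 2 * ∑ p ∈ (range (x + 1)).filter Nat.Prime, (1 : ℝ) / p := by rw [mul_sum]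
    _ ≤ _ := by
        have := harm x
        linarith

/-- the number of the primes `p ≤ x` modulo which `n` is a primitive root -/
theorem cnt_eq_sum (B : ℤ) (m x : ℕ) :
    |(cnt (B * (m : ℤ) ^ 2) x : ℝ) - ∑ p ∈ PR B x, gI B p (fun _ => m)| ≤ 1 := by
  classical
  have h1 : ∑ p ∈ PR B x, gI B p (fun _ => m) =
      (((PR B x).filter (fun p => orderOf (((B * (m : ℤ) ^ 2 : ℤ)) : ZMod p) = p - 1)).card : ℝ) := by
    rw [card_filter]
    push_cast
    refine sum_congr rfl fun p _ => ?_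
    unfold gI
    rfl
  rw [h1]
  unfold cnt
  set S := (range (x + 1)).filter (fun p : ℕ => p.Prime ∧ orderOf (((B * (m : ℤ) ^ 2 : ℤ)) : ZMod p) = p - 1) with hS
  set T := (PR B x).filter (fun p => orderOf (((B * (m : ℤ) ^ 2 : ℤ)) : ZMod p) = p - 1) with hT
  have hTS : T ⊆ S := by
    intro p hp
    rw [hT, mem_filter, PR, mem_filter] at hp
    rw [hS, mem_filter]
    exact ⟨hp.1.1, hp.1.2.1, hp.2⟩
  have hST : S ⊆ insert 2 T := by
    intro p hp
    rw [hS, mem_filter] at hp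
    obtain ⟨h2, h3, h4⟩ := hp
    rw [mem_insert]
    by_cases hp2 : p = 2
    · exact Or.inl hp2
    right
    have : Fact p.Prime := ⟨h3⟩
    rw [hT, mem_filter, PR, mem_filter]
    refine ⟨⟨h2, h3, hp2, fun hd => ?_⟩, h4⟩
    have h5 : (((B * (m : ℤ) ^ 2 : ℤ)) : ZMod p) = 0 := by
      rw [ZMod.intCast_zmod_eq_zero_iff_dvd]
      exact Dvd.dvd.mul_right hd _
    rw [h5] at h4
    exact Pool.Agent.TH890.AS.order_zero h4
  have h5 := card_le_card hTS
  have h6 := (card_le_card hST).trans (card_insert_le _ _)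
  have h7 : (T.card : ℝ) ≤ S.card := by exact_mod_cast h5
  have h8 : (S.card : ℝ) ≤ T.card + 1 := by exact_mod_cast h6
  rw [abs_le]
  constructor <;> linarith

/-- the main terms of `D k²` and `D` -/
theorem mainT_sq (D k : ℤ) (hk : k ≠ 0) (x : ℕ) :
    |mainT (D * k ^ 2) x - mainT D x| ≤ 2 * (k.natAbs.primeFactors.card : ℝ) := by
  classical
  unfold mainT
  have hsub : PR (D * k ^ 2) x ⊆ PR D x := by
    intro p hp
    rw [PR, mem_filter] at hp ⊢
    exact ⟨hp.1, hp.2.1, hp.2.2.1, fun h => hp.2.2.2 (Dvd.dvd.mul_right h _)⟩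
  have h1 : ∑ p ∈ PR (D * k ^ 2) x, rho p * (1 - (jacobiSym (D * k ^ 2) p : ℝ)) =
      ∑ p ∈ PR (D * k ^ 2) x, rho p * (1 - (jacobiSym D p : ℝ)) := by
    refine sum_congr rfl fun p hp => ?_
    rw [PR, mem_filter] at hp
    obtain ⟨_, h2, h3, h4⟩ := hp
    have h5 : ¬ (p : ℤ) ∣ k := fun h => h4 (Dvd.dvd.mul_left (dvd_pow h two_ne_zero) _)
    have h6 : IsCoprime k (p : ℤ) := by
      rw [isCoprime_comm]
      exact (Nat.prime_iff_prime_int.1 h2).irreducible.coprime_iff_not_dvd.2 h5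
    rw [jacobiSym.mul_left, jacobiSym.sq_one' (Int.isCoprime_iff_gcd_eq_one.1 h6), mul_one]
  rw [h1, ← sum_sdiff hsub, abs_sub_comm, add_sub_cancel_right]
  refine (abs_sum_le_sum_abs _ _).trans ?_
  have h2 : ∀ p ∈ PR D x \ PR (D * k ^ 2) x, |rho p * (1 - (jacobiSym D p : ℝ))| ≤ 2 := by
    intro p _
    have h3 := term_bd D p
    rw [mul_comm, abs_of_nonneg h3.1]
    exact h3.2
  refine (sum_le_sum h2).trans ?_
  rw [sum_const, nsmul_eq_mul, mul_comm]
  apply mul_le_mul_of_nonneg_left _ (by norm_num)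
  have h3 : PR D x \ PR (D * k ^ 2) x ⊆ k.natAbs.primeFactors := by
    intro p hp
    rw [Finset.mem_sdiff, PR, PR, mem_filter, mem_filter] at hp
    obtain ⟨⟨h4, h5, h6, h7⟩, h8⟩ := hp
    rw [Nat.mem_primeFactors]
    refine ⟨h5, ?_, Int.natAbs_ne_zero.2 hk⟩
    have h9 : (p : ℤ) ∣ D * k ^ 2 := by
      by_contra h
      exact h8 ⟨h4, h5, h6, h⟩
    have hpr := Nat.prime_iff_prime_int.1 h5
    rcases hpr.dvd_or_dvd h9 with h | h
    · exact absurd h h7
    · exact Int.natCast_dvd.1 (hpr.dvd_of_dvd_pow h)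
  exact_mod_cast card_le_card h3

theorem pf_le_log {k : ℕ} (hk : k ≠ 0) : (k.primeFactors.card : ℝ) ≤ 2 * Real.log k := by
  have h1 : 2 ^ k.primeFactors.card ≤ k := by
    calc 2 ^ k.primeFactors.card = ∏ _p ∈ k.primeFactors, 2 := by rw [Finset.prod_const]
      _ ≤ ∏ p ∈ k.primeFactors, p :=
          Finset.prod_le_prod' fun p hp => (Nat.prime_of_mem_primeFactors hp).two_le
      _ ≤ k := Nat.le_of_dvd (by omega) (Nat.prod_primeFactors_dvd k)
  have h2 : ((2 : ℝ) ^ k.primeFactors.card) ≤ k := by exact_mod_cast h1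
  have h3 := Real.log_le_log (by positivity) h2
  rw [Real.log_pow] at h3
  have h4 : (1 / 2 : ℝ) < Real.log 2 := by
    have := Real.log_two_gt_d9
    linarith
  have h5 : (0 : ℝ) ≤ k.primeFactors.card := Nat.cast_nonneg _
  nlinarith

end Pool.Agent.X55.Art
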