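import Pool.Agent.H730R2.AA.MainTerm
import Pool.Agent.H442R2.KF.Bv

set_option autoImplicit false

/-! # The main term of Artin's problem with a power of the logarithm in the error term,
uniformly in the squarefree part (Siegel-Walfisz / Bombieri-Vinogradov) -/

namespace Pool.Agent.X55.Art

open Finset Filter
open Pool.Agent.H730R2.AA
open Pool.Agent.H442R2.KF (piN piAP Er bv)

theorem piN_eq (N : ℕ) : piN N = Nat.primeCounting N := by
  unfold piN Nat.primeCounting Nat.primeCounting'
  rw [Nat.count_eq_card_filter_range]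
  congr 1
  ext p
  simp only [mem_filter, mem_Icc, mem_range]
  constructor
  · rintro ⟨⟨_, h2⟩, h3⟩
    exact ⟨by omega, h3⟩
  · rintro ⟨h1, h2⟩
    exact ⟨⟨h2.one_le, by omega⟩, h2⟩

/-- one residue class -/
theorem sw (U : ℕ) : ∃ C : ℝ, 0 < C ∧ ∀ x : ℕ, 3 ≤ x → ∀ N a : ℕ, 1 ≤ N →
    (N : ℝ) ≤ (x : ℝ) ^ (1 / 4 : ℝ) → Nat.Coprime a N →
    |Er x N a| ≤ C * (x / Real.log x ^ U) := by
  obtain ⟨C, hC, h⟩ := bv (1 / 4 : ℝ) (by norm_num) U
  refine ⟨C, hC, fun x hx N a hN hNx ha => ?_⟩
  have h1 := h x hx (fun d => if d = N then a else 1) (by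
    intro d hd
    by_cases hdN : d = N
    · rw [if_pos hdN, hdN]; exact ha
    · rw [if_neg hdN]; exact Nat.coprime_one_left d)
  refine le_trans ?_ h1
  have h2 : |Er x N a| = |Er x N ((fun d => if d = N then a else 1) N)| := by simp
  rw [h2]
  refine single_le_sum (f := fun d => |Er x d ((fun d => if d = N then a else 1) d)|)
    (fun _ _ => abs_nonneg _) ?_
  rw [mem_Icc]
  exact ⟨hN, Nat.le_floor hNx⟩

theorem cls_err (N : ℕ) [NeZero N] (u : (ZMod N)ˣ) (x : ℕ) :
    ((clsP N (u : ZMod N) x).card : ℝ) - (Nat.primeCounting x : ℝ) / (N.totient : ℝ) =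
      Er x N (u : ZMod N).val := by
  unfold Er
  rw [piN_eq]
  congr 2
  unfold clsP piAP
  congr 1
  apply filter_congr
  intro p _
  refine and_congr_right fun _ => ?_
  rw [← ZMod.natCast_eq_natCast_iff, ZMod.natCast_zmod_val]

/-- `Wd` with an error term -/
theorem Wd_err (D : ℤ) (hD : Squarefree D) (hD1 : D % 4 = 1) (d x : ℕ) (hd : 1 ≤ d)
    (M : ℝ) (hM : ∀ a : ℕ, Nat.Coprime a (d * D.natAbs) → |Er x (d * D.natAbs) a| ≤ M) :
    |Wd D d x - om D d * (Nat.primeCounting x : ℝ)| ≤ 2 * D.natAbs * M + 2 := by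
  classical
  have hD0 : D ≠ 0 := by
    rintro rfl
    simp at hD1
  set n := D.natAbs with hn
  have hn0 : n ≠ 0 := Int.natAbs_ne_zero.2 hD0
  have hsq : Squarefree n := Int.squarefree_natAbs.2 hD
  have hodd : Odd n := Nat.odd_iff.2 (by omega)
  have hN : NeZero (d * n) := ⟨Nat.mul_ne_zero (by omega) hn0⟩
  have hM0 : 0 ≤ M := (abs_nonneg _).trans (hM 1 (Nat.coprime_one_left _))
  set w : ZMod (d * n) → ℝ := fun a => if a.val % d = 1 % d then
    (1 + (if 2 ∣ d then (jacobiSym (a.val : ℤ) n : ℝ) else 0)) else 0 with hw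
  have hw2 : ∀ a, |w a| ≤ 2 := by
    intro a
    rw [hw]
    simp only
    split_ifs
    · rcases jacobiSym.trichotomy (a.val : ℤ) n with h | h | h <;> rw [h] <;> norm_num
    · norm_num
    · norm_num
  have h1 : Wd D d x = ∑ p ∈ PR D x, w (p : ZMod (d * n)) := by
    rw [Wd, Finset.sum_filter]
    refine Finset.sum_congr rfl fun p hp => ?_
    rw [PR, Finset.mem_filter] at hp
    rw [hw]
    simp only [ZMod.val_natCast]
    rw [Nat.mod_mod_of_dvd _ (Dvd.intro n rfl), jmod _ _ _ (Dvd.intro_left d rfl),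
      recip D hD1 p hp.2.1 hp.2.2.1]
  have h2 : ∑ u : (ZMod (d * n))ˣ, w (u : ZMod (d * n)) =
      (((d * n).totient : ℕ) : ℝ) * om D d := by
    have e1 : ∑ u : (ZMod (d * n))ˣ, w (u : ZMod (d * n)) =
        ∑ u ∈ ker1 (d * n) d, (1 + (if 2 ∣ d then (chiU (d * n) n u : ℝ) else 0)) := by
      rw [ker1, Finset.sum_filter]
      rfl
    have htd : (0 : ℝ) < d.totient := by
      exact_mod_cast Nat.totient_pos.2 (by omega : 0 < d)
    have e2 : (((d * n).totient : ℕ) : ℝ) = ((ker1 (d * n) d).card : ℝ) * (d.totient : ℝ) := by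
      rw [← ker1_card (d * n) d (Dvd.intro n rfl)]
      push_cast
      ring
    have hcop : Nat.Coprime 2 n := (Nat.coprime_two_left).2 hodd
    rw [e1, e2, om, Finset.sum_add_distrib, Finset.sum_const, nsmul_eq_mul, mul_one]
    by_cases h2d : 2 ∣ d
    · by_cases hnd : n ∣ d
      · have h3 : 2 * n ∣ d := hcop.mul_dvd_of_dvd_of_dvd h2d hnd
        simp only [h2d, if_true]
        rw [if_pos h3, Finset.sum_congr rfl (g := fun _ => (1 : ℝ))]
        · rw [Finset.sum_const, nsmul_eq_mul]
          field_simp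
        · intro u hu
          rw [chi_sum_one d n hnd u hu]
          norm_num
      · have h3 : ¬ 2 * n ∣ d := fun h => hnd ((Dvd.intro_left 2 rfl).trans h)
        simp only [h2d, if_true]
        rw [if_neg h3, ← Int.cast_sum, chi_sum_zero d n hsq hodd hnd]
        field_simp
        push_cast
        ring
    · have h3 : ¬ 2 * n ∣ d := fun h => h2d ((Dvd.intro n rfl).trans h)
      simp only [h2d, if_false]
      rw [if_neg h3, Finset.sum_const_zero]
      field_simp
      ring
  -- the number of the units which matter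
  have hker : ((ker1 (d * n) d).card : ℝ) ≤ n := by
    have h3 : (ker1 (d * n) d).card ≤ (range n).card := by
      apply card_le_card_of_injOn (fun u : (ZMod (d * n))ˣ => (u : ZMod (d * n)).val / d)
      · intro u _
        rw [mem_coe, mem_range]
        exact Nat.div_lt_of_lt_mul (ZMod.val_lt _)
      · intro u hu v hv h
        rw [mem_coe, ker1, mem_filter] at hu hv
        apply Units.ext
        apply ZMod.val_injective (d * n)
        have h4 := Nat.div_add_mod (u : ZMod (d * n)).val d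
        have h5 := Nat.div_add_mod (v : ZMod (d * n)).val d
        simp only at h
        rw [hu.2, h] at h4
        rw [hv.2] at h5
        omega
    rw [card_range] at h3
    exact_mod_cast h3
  -- first step
  have b1 : |∑ p ∈ PR D x, w (p : ZMod (d * n)) -
      ∑ u : (ZMod (d * n))ˣ, w (u : ZMod (d * n)) * ((clsP (d * n) (u : ZMod (d * n)) x).card : ℝ)| ≤ 2 := by
    rw [wsum_eq]
    set S1 := PR D x with hS1
    set S2 := (Icc 1 x).filter (fun p : ℕ => p.Prime ∧ p.Coprime (d * n)) with hS2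
    rw [← Finset.sum_sdiff_sub_sum_sdiff]
    have c1 : ∑ p ∈ S1 \ S2, w (p : ZMod (d * n)) = 0 := by
      apply sum_eq_zero
      intro p hp
      rw [Finset.mem_sdiff, hS1, hS2, PR, Finset.mem_filter, Finset.mem_filter, Finset.mem_range,
        Finset.mem_Icc] at hp
      obtain ⟨⟨h1, h2, h3, h4⟩, h5⟩ := hp
      have h6 : ¬ p.Coprime (d * n) := by
        intro h
        exact h5 ⟨⟨h2.one_lt.le, by omega⟩, h2, h⟩
      have h7 : p ∣ d * n := by
        by_contra h
        exact h6 ((Nat.Prime.coprime_iff_not_dvd h2).2 h)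
      have h8 : p ∣ d := by
        rcases (Nat.Prime.dvd_mul h2).1 h7 with h | h
        · exact h
        · exact absurd (Int.natCast_dvd.2 h) h4
      rw [hw]
      simp only [ZMod.val_natCast]
      rw [if_neg]
      rw [Nat.mod_mod_of_dvd _ (Dvd.intro n rfl)]
      intro h9
      have h10 : d ∣ p - 1 := (MTLib.mod_iff h2.one_le).1 h9
      have h11 : p ∣ p - 1 := h8.trans h10
      have h12 := h2.two_le
      have := Nat.le_of_dvd (by omega) h11
      omega
    have c2 : |∑ p ∈ S2 \ S1, w (p : ZMod (d * n))| ≤ 2 := by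
      have h3 : S2 \ S1 ⊆ {2} := by
        intro p hp
        rw [Finset.mem_sdiff, hS1, hS2, PR, Finset.mem_filter, Finset.mem_filter, Finset.mem_range,
          Finset.mem_Icc] at hp
        obtain ⟨⟨⟨h1, h2⟩, h3, h4⟩, h5⟩ := hp
        have h6 : p = 2 ∨ (p : ℤ) ∣ D := by
          by_contra h
          push Not at h
          exact h5 ⟨by omega, h3, h.1, h.2⟩
        rw [mem_singleton]
        rcases h6 with h6 | h6
        · exact h6
        · exfalso
          have h7 : p ∣ n := Int.natCast_dvd.1 h6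
          exact (Nat.Prime.coprime_iff_not_dvd h3).1 h4 (h7.mul_left d)
      refine (abs_sum_le_sum_abs _ _).trans ?_
      refine (sum_le_sum_of_subset_of_nonneg h3 fun _ _ _ => abs_nonneg _).trans ?_
      rw [sum_singleton]
      exact hw2 _
    rw [c1, zero_sub, abs_neg]
    exact c2
  -- second step
  have b2 : |∑ u : (ZMod (d * n))ˣ, w (u : ZMod (d * n)) * ((clsP (d * n) (u : ZMod (d * n)) x).card : ℝ) -
      om D d * (Nat.primeCounting x : ℝ)| ≤ 2 * n * M := by
    have ht : (((d * n).totient : ℕ) : ℝ) ≠ 0 := by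
      have := Nat.totient_pos.2 (Nat.pos_of_ne_zero hN.out)
      exact_mod_cast this.ne'
    have e1 : om D d * (Nat.primeCounting x : ℝ) =
        ∑ u : (ZMod (d * n))ˣ, w (u : ZMod (d * n)) * ((Nat.primeCounting x : ℝ) / ((d * n).totient : ℝ)) := by
      rw [← sum_mul, h2]
      field_simp
    rw [e1, ← sum_sub_distrib]
    have e2 : ∑ u : (ZMod (d * n))ˣ, (w (u : ZMod (d * n)) * ((clsP (d * n) (u : ZMod (d * n)) x).card : ℝ) -
        w (u : ZMod (d * n)) * ((Nat.primeCounting x : ℝ) / ((d * n).totient : ℝ))) =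
        ∑ u ∈ ker1 (d * n) d, w (u : ZMod (d * n)) * Er x (d * n) (u : ZMod (d * n)).val := by
      rw [ker1, sum_filter]
      refine sum_congr rfl fun u _ => ?_
      rw [← mul_sub, cls_err]
      split_ifs with h
      · rfl
      · rw [hw]
        simp only [if_neg h, zero_mul]
    rw [e2]
    refine (abs_sum_le_sum_abs _ _).trans ?_
    calc ∑ u ∈ ker1 (d * n) d, |w (u : ZMod (d * n)) * Er x (d * n) (u : ZMod (d * n)).val|
        ≤ ∑ _u ∈ ker1 (d * n) d, 2 * M := by
          refine sum_le_sum fun u _ => ?_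
          rw [abs_mul]
          exact mul_le_mul (hw2 _) (hM _ (ZMod.val_coe_unit_coprime u)) (abs_nonneg _) (by norm_num)
      _ = (ker1 (d * n) d).card * (2 * M) := by rw [sum_const, nsmul_eq_mul]
      _ ≤ n * (2 * M) := mul_le_mul_of_nonneg_right hker (by linarith)
      _ = 2 * n * M := by ring
  rw [h1]
  calc |∑ p ∈ PR D x, w (p : ZMod (d * n)) - om D d * (Nat.primeCounting x : ℝ)|
      = |(∑ p ∈ PR D x, w (p : ZMod (d * n)) - ∑ u : (ZMod (d * n))ˣ, w (u : ZMod (d * n)) *
          ((clsP (d * n) (u : ZMod (d * n)) x).card : ℝ)) +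
        (∑ u : (ZMod (d * n))ˣ, w (u : ZMod (d * n)) *
          ((clsP (d * n) (u : ZMod (d * n)) x).card : ℝ) - om D d * (Nat.primeCounting x : ℝ))| := by
          congr 1; ring
    _ ≤ 2 + 2 * n * M := (abs_add_le _ _).trans (add_le_add b1 b2)
    _ = 2 * n * M + 2 := by ring

end Pool.Agent.X55.Art
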