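import Pool.Agent.X55.Art.Main

set_option autoImplicit false

/-! # The main term: `mainT D x = dens D π(x) + O(x / (log x) ^ U)`, uniformly for `|D| ≤ (log x) ^ A` -/

namespace Pool.Agent.X55.Art

open Finset Filter
open Pool.Agent.H730R2.AA

/-- the constant of the tail -/
noncomputable def KK : ℝ := ∑' d : ℕ, (d : ℝ) ^ (-(5 : ℝ) / 4)

theorem KK_summable : Summable fun d : ℕ => (d : ℝ) ^ (-(5 : ℝ) / 4) := by
  rw [Real.summable_nat_rpow]
  norm_num

theorem KK_nonneg : 0 ≤ KK := tsum_nonneg fun _ => by positivity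

theorem om_le (D : ℤ) (d : ℕ) (hd : 1 ≤ d) : |om D d| ≤ 4 * (d : ℝ) ^ (-(1 : ℝ) / 2) := by
  have hd0 : (0 : ℝ) < d := by exact_mod_cast hd
  have ht : (0 : ℝ) < d.totient := by exact_mod_cast Nat.totient_pos.2 (by omega : 0 < d)
  have h1 := Pool.Agent.H730R2.AA.Euler.sqrt_le_totient d hd
  have hs : 0 < Real.sqrt d := Real.sqrt_pos.2 hd0
  have h2 : (d : ℝ) ^ (-(1 : ℝ) / 2) = 1 / Real.sqrt d := by
    rw [Real.sqrt_eq_rpow, neg_div, Real.rpow_neg hd0.le]
    exact (one_div _).symm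
  have h3 : |om D d| ≤ 2 / d.totient := by
    unfold om
    rw [abs_div, Nat.abs_cast]
    apply div_le_div_of_nonneg_right _ ht.le
    split_ifs <;> norm_num
  refine h3.trans ?_
  rw [h2, mul_one_div, div_le_div_iff₀ ht hs]
  linarith

theorem Wd_le' (D : ℤ) (d x : ℕ) (hd : 1 ≤ d) : |Wd D d x| ≤ 2 * ((x : ℝ) / d) := by
  refine (MTLib.abs_Wd_le D d x).trans ?_
  have h1 := MTLib.inj_aux D x hd
  have h2 : ((Finset.Icc 1 (x / d)).filter (fun k => (1 + k * d).Prime)).card ≤ x / d := by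
    refine (card_filter_le _ _).trans ?_
    simp
  have h3 : (((PR D x).filter (fun p => p % d = 1 % d)).card : ℝ) ≤ ((x / d : ℕ) : ℝ) := by
    exact_mod_cast h1.trans h2
  have h4 : ((x / d : ℕ) : ℝ) ≤ (x : ℝ) / d := Nat.cast_div_le
  linarith

theorem pi_le_self (x : ℕ) : Nat.primeCounting x ≤ x := by
  rw [← piN_eq]
  unfold Pool.Agent.H442R2.KF.piN
  refine (card_filter_le _ _).trans ?_
  simp

theorem tail_term (D : ℤ) (d x z : ℕ) (hd : 1 ≤ d) (hz : 1 ≤ z) (hzd : z ≤ d) :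
    |((ArithmeticFunction.moebius d : ℤ) : ℝ) / d * Wd D d x -
      ((ArithmeticFunction.moebius d : ℤ) : ℝ) / d * om D d * (Nat.primeCounting x : ℝ)| ≤
      6 * x * (z : ℝ) ^ (-(1 : ℝ) / 4) * (d : ℝ) ^ (-(5 : ℝ) / 4) := by
  have hd1 : (1 : ℝ) ≤ d := by exact_mod_cast hd
  have hd0 : (0 : ℝ) < d := by linarith
  have hz0 : (0 : ℝ) < z := by exact_mod_cast hz
  have hmu : |((ArithmeticFunction.moebius d : ℤ) : ℝ)| ≤ 1 := by
    have := ArithmeticFunction.abs_moebius_le_one (n := d)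
    exact_mod_cast this
  have hpi : (Nat.primeCounting x : ℝ) ≤ x := by
    exact_mod_cast pi_le_self x
  have hx0 : (0 : ℝ) ≤ x := Nat.cast_nonneg _
  have e1 : ((ArithmeticFunction.moebius d : ℤ) : ℝ) / d * Wd D d x -
      ((ArithmeticFunction.moebius d : ℤ) : ℝ) / d * om D d * (Nat.primeCounting x : ℝ) =
      ((ArithmeticFunction.moebius d : ℤ) : ℝ) / d * (Wd D d x - om D d * (Nat.primeCounting x : ℝ)) := by
    ring
  rw [e1, abs_mul, abs_div, Nat.abs_cast]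
  have h1 : |Wd D d x - om D d * (Nat.primeCounting x : ℝ)| ≤ 6 * x * (d : ℝ) ^ (-(1 : ℝ) / 2) := by
    have h2 := Wd_le' D d x hd
    have h3 := om_le D d hd
    have h4 : (1 : ℝ) / d ≤ (d : ℝ) ^ (-(1 : ℝ) / 2) := by
      rw [one_div, ← Real.rpow_neg_one]
      exact Real.rpow_le_rpow_of_exponent_le hd1 (by norm_num)
    have hr0 : 0 ≤ (d : ℝ) ^ (-(1 : ℝ) / 2) := by positivity
    calc |Wd D d x - om D d * (Nat.primeCounting x : ℝ)|
        ≤ |Wd D d x| + |om D d * (Nat.primeCounting x : ℝ)| := abs_sub _ _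
      _ ≤ 2 * (x / d) + 4 * (d : ℝ) ^ (-(1 : ℝ) / 2) * x := by
          apply add_le_add h2
          rw [abs_mul, Nat.abs_cast]
          exact mul_le_mul h3 hpi (Nat.cast_nonneg _) (by positivity)
      _ ≤ 2 * (x * (d : ℝ) ^ (-(1 : ℝ) / 2)) + 4 * (d : ℝ) ^ (-(1 : ℝ) / 2) * x := by
          have : (x : ℝ) / d ≤ x * (d : ℝ) ^ (-(1 : ℝ) / 2) := by
            rw [div_eq_mul_one_div]
            exact mul_le_mul_of_nonneg_left h4 hx0
          linarith
      _ = _ := by ring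
  have h5 : (d : ℝ) ^ (-(1 : ℝ) / 4) ≤ (z : ℝ) ^ (-(1 : ℝ) / 4) :=
    Real.rpow_le_rpow_of_nonpos hz0 (by exact_mod_cast hzd) (by norm_num)
  calc |((ArithmeticFunction.moebius d : ℤ) : ℝ)| / d * |Wd D d x - om D d * (Nat.primeCounting x : ℝ)|
      ≤ 1 / d * (6 * x * (d : ℝ) ^ (-(1 : ℝ) / 2)) := by
        apply mul_le_mul _ h1 (abs_nonneg _) (by positivity)
        exact div_le_div_of_nonneg_right hmu hd0.le
    _ = 6 * x * ((d : ℝ) ^ (-(1 : ℝ) / 4) * (d : ℝ) ^ (-(5 : ℝ) / 4)) := by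
        have : (d : ℝ) ^ (-(1 : ℝ) / 4) * (d : ℝ) ^ (-(5 : ℝ) / 4) =
            (d : ℝ) ^ (-(1 : ℝ) / 2) * (d : ℝ) ^ (-1 : ℝ) := by
          rw [← Real.rpow_add hd0, ← Real.rpow_add hd0]
          norm_num
        rw [this, Real.rpow_neg_one]
        field_simp
    _ ≤ 6 * x * ((z : ℝ) ^ (-(1 : ℝ) / 4) * (d : ℝ) ^ (-(5 : ℝ) / 4)) := by
        apply mul_le_mul_of_nonneg_left _ (by positivity)
        exact mul_le_mul_of_nonneg_right h5 (by positivity)
    _ = _ := by ring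

theorem om_summable (D : ℤ) :
    Summable fun d : ℕ => ((ArithmeticFunction.moebius d : ℤ) : ℝ) / d * om D d := by
  refine Summable.of_norm_bounded (g := fun d : ℕ => 4 * (d : ℝ) ^ (-(5 : ℝ) / 4))
    (KK_summable.mul_left 4) fun d => ?_
  rcases Nat.eq_zero_or_pos d with rfl | hd
  · simp
  have hd1 : (1 : ℝ) ≤ d := by exact_mod_cast hd
  have hd0 : (0 : ℝ) < d := by linarith
  have hmu : |((ArithmeticFunction.moebius d : ℤ) : ℝ)| ≤ 1 := by
    have := ArithmeticFunction.abs_moebius_le_one (n := d)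
    exact_mod_cast this
  rw [Real.norm_eq_abs, abs_mul, abs_div, Nat.abs_cast]
  calc |((ArithmeticFunction.moebius d : ℤ) : ℝ)| / d * |om D d|
      ≤ 1 / d * (4 * (d : ℝ) ^ (-(1 : ℝ) / 2)) := by
        apply mul_le_mul _ (om_le D d hd) (abs_nonneg _) (by positivity)
        exact div_le_div_of_nonneg_right hmu hd0.le
    _ = 4 * (d : ℝ) ^ (-(3 : ℝ) / 2) := by
        have : (d : ℝ) ^ (-(3 : ℝ) / 2) = (d : ℝ) ^ (-(1 : ℝ) / 2) * (d : ℝ) ^ (-1 : ℝ) := by
          rw [← Real.rpow_add hd0]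
          norm_num
        rw [this, Real.rpow_neg_one]
        field_simp
    _ ≤ 4 * (d : ℝ) ^ (-(5 : ℝ) / 4) := by
        apply mul_le_mul_of_nonneg_left _ (by norm_num)
        exact Real.rpow_le_rpow_of_exponent_le hd1 (by norm_num)

/-- the main term, with a free parameter -/
theorem ml_z (D : ℤ) (hD : Squarefree D) (hD1 : D % 4 = 1) (hD2 : D ≠ 1) (x z : ℕ) (hz : 1 ≤ z)
    (M : ℝ) (hM : ∀ d a : ℕ, 1 ≤ d → d ≤ z → Nat.Coprime a (d * D.natAbs) →
      |Pool.Agent.H442R2.KF.Er x (d * D.natAbs) a| ≤ M) :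
    |mainT D x - dens D * (Nat.primeCounting x : ℝ)| ≤
      z * (2 * D.natAbs * M + 2) + 6 * x * (z : ℝ) ^ (-(1 : ℝ) / 4) * KK := by
  classical
  have hM0 : 0 ≤ M := (abs_nonneg _).trans (hM 1 1 le_rfl hz (Nat.coprime_one_left _))
  have hz0 : (0 : ℝ) < z := by exact_mod_cast hz
  set F : ℕ → ℝ := fun d => ((ArithmeticFunction.moebius d : ℤ) : ℝ) / d * Wd D d x -
      ((ArithmeticFunction.moebius d : ℤ) : ℝ) / d * om D d * (Nat.primeCounting x : ℝ) with hF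
  have hs1 : Summable fun d : ℕ => ((ArithmeticFunction.moebius d : ℤ) : ℝ) / d * Wd D d x := by
    refine summable_of_ne_finset_zero (s := Finset.range (x + 1)) fun d hd => ?_
    rw [Finset.mem_range, not_lt] at hd
    rw [MTLib.Wd_zero D (by omega), mul_zero]
  have hs2 := (om_summable D).mul_right (Nat.primeCounting x : ℝ)
  have e1 : mainT D x - dens D * (Nat.primeCounting x : ℝ) = ∑' d, F d := by
    rw [hF, hs1.tsum_sub hs2, main_eq, tsum_mul_right, euler_dens D hD hD1 hD2]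
  set G : ℕ → ℝ := fun d => (if d ∈ Finset.Icc 1 z then (2 * D.natAbs * M + 2) else 0) +
    6 * x * (z : ℝ) ^ (-(1 : ℝ) / 4) * (d : ℝ) ^ (-(5 : ℝ) / 4) with hG
  have hg1 : HasSum (fun d : ℕ => if d ∈ Finset.Icc 1 z then (2 * (D.natAbs : ℝ) * M + 2) else 0)
      (z * (2 * D.natAbs * M + 2)) := by
    have h : HasSum (fun d : ℕ => if d ∈ Finset.Icc 1 z then (2 * (D.natAbs : ℝ) * M + 2) else 0)
        (∑ d ∈ Finset.Icc 1 z, (if d ∈ Finset.Icc 1 z then (2 * (D.natAbs : ℝ) * M + 2) else 0)) :=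
      hasSum_sum_of_ne_finset_zero (fun d hd => if_neg hd)
    have h2 : ∑ d ∈ Finset.Icc 1 z, (if d ∈ Finset.Icc 1 z then (2 * (D.natAbs : ℝ) * M + 2) else 0) =
        z * (2 * D.natAbs * M + 2) := by
      rw [Finset.sum_congr rfl (g := fun _ => (2 * (D.natAbs : ℝ) * M + 2)) fun d hd => if_pos hd,
        sum_const, nsmul_eq_mul, Nat.card_Icc]
      simp
    rw [h2] at h
    exact h
  have hg2 : HasSum (fun d : ℕ => 6 * x * (z : ℝ) ^ (-(1 : ℝ) / 4) * (d : ℝ) ^ (-(5 : ℝ) / 4))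
      (6 * x * (z : ℝ) ^ (-(1 : ℝ) / 4) * KK) := KK_summable.hasSum.mul_left _
  have hg := hg1.add hg2
  rw [e1]
  have hFG : ∀ d, ‖F d‖ ≤ G d := by
    intro d
    rw [Real.norm_eq_abs]
    rcases Nat.eq_zero_or_pos d with rfl | hd
    · rw [hF, hG]
      simp
    rw [hG]
    simp only [Finset.mem_Icc]
    by_cases hdz : d ≤ z
    · rw [if_pos ⟨hd, hdz⟩]
      have hd1 : (1 : ℝ) ≤ d := by exact_mod_cast hd
      have hmu : |((ArithmeticFunction.moebius d : ℤ) : ℝ)| ≤ 1 := by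
        have := ArithmeticFunction.abs_moebius_le_one (n := d)
        exact_mod_cast this
      have h1 := Wd_err D hD hD1 d x hd M (fun a ha => hM d a hd hdz ha)
      have e2 : F d = ((ArithmeticFunction.moebius d : ℤ) : ℝ) / d *
          (Wd D d x - om D d * (Nat.primeCounting x : ℝ)) := by
        rw [hF]; ring
      rw [e2, abs_mul, abs_div, Nat.abs_cast]
      have h2 : |((ArithmeticFunction.moebius d : ℤ) : ℝ)| / d ≤ 1 := by
        rw [div_le_one (by linarith)]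
        linarith
      have h3 : 0 ≤ 6 * x * (z : ℝ) ^ (-(1 : ℝ) / 4) * (d : ℝ) ^ (-(5 : ℝ) / 4) := by positivity
      calc |((ArithmeticFunction.moebius d : ℤ) : ℝ)| / d * |Wd D d x - om D d * (Nat.primeCounting x : ℝ)|
          ≤ 1 * (2 * D.natAbs * M + 2) := mul_le_mul h2 h1 (abs_nonneg _) (by norm_num)
        _ ≤ _ := by linarith
    · rw [if_neg (fun h => hdz h.2), zero_add]
      push Not at hdz
      exact tail_term D d x z hd hz hdz.le
  rw [← Real.norm_eq_abs]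
  exact tsum_of_norm_bounded hg hFG

/-- **The main term.** -/
theorem ml (U A : ℕ) : ∃ x₀ : ℕ, ∀ x : ℕ, x₀ ≤ x → ∀ D : ℤ, Squarefree D → D % 4 = 1 → D ≠ 1 →
    (D.natAbs : ℝ) ≤ (Real.log x) ^ A →
    |mainT D x - dens D * (Nat.primeCounting x : ℝ)| ≤ x / (Real.log x) ^ U := by
  obtain ⟨C, hC, hsw⟩ := sw (A + 4 * (U + 1) + U + 1)
  -- the parameter is `z = ⌊(log x)^(4 (U+1))⌋`
  have hev1 : ∀ᶠ x : ℝ in atTop, Real.log x ^ (A + 4 * (U + 1)) ≤ x ^ (1 / 4 : ℝ) := by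
    have h := (isLittleO_log_rpow_rpow_atTop ((A + 4 * (U + 1) : ℕ) : ℝ)
      (show (0:ℝ) < 1 / 4 by norm_num)).bound (show (0:ℝ) < 1 by norm_num)
    filter_upwards [h, eventually_ge_atTop (1:ℝ)] with x hx hx1
    rw [one_mul, Real.norm_eq_abs, Real.norm_eq_abs, Real.rpow_natCast,
      abs_of_nonneg (pow_nonneg (Real.log_nonneg hx1) _),
      abs_of_nonneg (Real.rpow_nonneg (by linarith) _)] at hx
    exact hx
  have hev2 : ∀ᶠ x : ℝ in atTop, Real.log x ^ (4 * (U + 1) + U + 1) ≤ x := by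
    have h := (isLittleO_log_rpow_rpow_atTop ((4 * (U + 1) + U + 1 : ℕ) : ℝ)
      (show (0:ℝ) < 1 by norm_num)).bound (show (0:ℝ) < 1 by norm_num)
    filter_upwards [h, eventually_ge_atTop (1:ℝ)] with x hx hx1
    rw [one_mul, Real.norm_eq_abs, Real.norm_eq_abs, Real.rpow_natCast, Real.rpow_one,
      abs_of_nonneg (pow_nonneg (Real.log_nonneg hx1) _), abs_of_nonneg (by linarith : (0:ℝ) ≤ x)] at hx
    exact hx
  have hev3 : ∀ᶠ x : ℝ in atTop, 2 * C + 2 + 12 * KK ≤ Real.log x :=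
    Real.tendsto_log_atTop.eventually_ge_atTop _
  have hev4 : ∀ᶠ x : ℝ in atTop, 2 ≤ Real.log x := Real.tendsto_log_atTop.eventually_ge_atTop _
  obtain ⟨x₀, hx₀⟩ := eventually_atTop.1 (tendsto_natCast_atTop_atTop.eventually
    (((hev1.and hev2).and (hev3.and hev4))))
  refine ⟨max x₀ 3, fun x hx D hD hD1 hD2 hDA => ?_⟩
  obtain ⟨⟨h1, h2⟩, h3, h4⟩ := hx₀ x ((le_max_left _ _).trans hx)
  have hx3 : 3 ≤ x := (le_max_right _ _).trans hx
  have hx0 : (0 : ℝ) < x := by exact_mod_cast (by omega : 0 < x)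
  set L := Real.log x with hL
  have hL0 : 0 < L := by linarith
  have hL1 : 1 ≤ L := by linarith
  set z := ⌊L ^ (4 * (U + 1))⌋₊ with hz
  have hzL : (z : ℝ) ≤ L ^ (4 * (U + 1)) := Nat.floor_le (by positivity)
  have hz1 : 1 ≤ z := Nat.le_floor (by simpa using one_le_pow₀ hL1)
  have hzL2 : L ^ (4 * (U + 1)) / 2 ≤ z := by
    have h5 := Nat.lt_floor_add_one (L ^ (4 * (U + 1)))
    rw [← hz] at h5
    have h6 : (1 : ℝ) ≤ z := by exact_mod_cast hz1
    linarith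
  have hM : ∀ d a : ℕ, 1 ≤ d → d ≤ z → Nat.Coprime a (d * D.natAbs) →
      |Pool.Agent.H442R2.KF.Er x (d * D.natAbs) a| ≤ C * (x / L ^ (A + 4 * (U + 1) + U + 1)) := by
    intro d a hd hdz ha
    have hD0 : 1 ≤ D.natAbs := by
      have : D ≠ 0 := by
        rintro rfl
        simp at hD1
      exact Int.natAbs_pos.2 this
    refine hsw x hx3 (d * D.natAbs) a (Nat.mul_pos hd hD0) ?_ ha
    push_cast
    calc (d : ℝ) * D.natAbs ≤ L ^ (4 * (U + 1)) * L ^ A :=
          mul_le_mul ((by exact_mod_cast hdz : (d : ℝ) ≤ z).trans hzL) hDA (by positivity) (by positivity)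
      _ = L ^ (A + 4 * (U + 1)) := by rw [← pow_add]; ring_nf
      _ ≤ _ := h1
  have h5 := ml_z D hD hD1 hD2 x z hz1 _ hM
  refine h5.trans ?_
  have hM0 : 0 ≤ C * (x / L ^ (A + 4 * (U + 1) + U + 1)) := by positivity
  -- the first part
  have p1 : (z : ℝ) * (2 * D.natAbs * (C * (x / L ^ (A + 4 * (U + 1) + U + 1))) + 2) ≤
      (2 * C + 2) * (x / L ^ (U + 1)) := by
    have q1 : (z : ℝ) * (2 * D.natAbs * (C * (x / L ^ (A + 4 * (U + 1) + U + 1)))) ≤
        2 * C * (x / L ^ (U + 1)) := by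
      calc (z : ℝ) * (2 * D.natAbs * (C * (x / L ^ (A + 4 * (U + 1) + U + 1))))
          ≤ L ^ (4 * (U + 1)) * (2 * L ^ A * (C * (x / L ^ (A + 4 * (U + 1) + U + 1)))) := by
            apply mul_le_mul hzL _ (by positivity) (by positivity)
            apply mul_le_mul_of_nonneg_right _ hM0
            linarith
        _ = 2 * C * (x / L ^ (U + 1)) := by
            have : L ^ (A + 4 * (U + 1) + U + 1) = L ^ (4 * (U + 1)) * L ^ A * L ^ (U + 1) := by
              rw [← pow_add, ← pow_add]; ring_nf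
            rw [this]
            field_simp
    have q2 : (z : ℝ) * 2 ≤ 2 * (x / L ^ (U + 1)) := by
      have : L ^ (4 * (U + 1)) ≤ x / L ^ (U + 1) := by
        rw [le_div_iff₀ (by positivity), ← pow_add]
        exact h2
      linarith
    calc _ = (z : ℝ) * (2 * D.natAbs * (C * (x / L ^ (A + 4 * (U + 1) + U + 1)))) + z * 2 := by ring
      _ ≤ 2 * C * (x / L ^ (U + 1)) + 2 * (x / L ^ (U + 1)) := add_le_add q1 q2
      _ = _ := by ring
  have p2 : 6 * x * (z : ℝ) ^ (-(1 : ℝ) / 4) * KK ≤ 12 * KK * (x / L ^ (U + 1)) := by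
    have q1 : (z : ℝ) ^ (-(1 : ℝ) / 4) ≤ (L ^ (4 * (U + 1)) / 2) ^ (-(1 : ℝ) / 4) :=
      Real.rpow_le_rpow_of_nonpos (by positivity) hzL2 (by norm_num)
    have q2 : (L ^ (4 * (U + 1)) / 2) ^ (-(1 : ℝ) / 4) ≤ 2 * (1 / L ^ (U + 1)) := by
      rw [Real.div_rpow (by positivity) (by norm_num), ← Real.rpow_natCast L (4 * (U + 1)),
        ← Real.rpow_mul hL0.le]
      have q3 : ((4 * (U + 1) : ℕ) : ℝ) * (-(1 : ℝ) / 4) = -((U + 1 : ℕ) : ℝ) := by push_cast; ring
      rw [q3, Real.rpow_neg hL0.le, Real.rpow_natCast, div_eq_mul_inv, ← Real.rpow_neg_one (2 ^ _),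
        ← Real.rpow_mul (by norm_num)]
      have q4 : (2 : ℝ) ^ (-(1 : ℝ) / 4 * -1) ≤ 2 ^ (1 : ℝ) :=
        Real.rpow_le_rpow_of_exponent_le (by norm_num) (by norm_num)
      rw [Real.rpow_one] at q4
      calc (L ^ (U + 1))⁻¹ * 2 ^ (-(1 : ℝ) / 4 * -1) ≤ (L ^ (U + 1))⁻¹ * 2 :=
            mul_le_mul_of_nonneg_left q4 (by positivity)
        _ = 2 * (1 / L ^ (U + 1)) := by rw [one_div]; ring
    have hK := KK_nonneg
    calc 6 * x * (z : ℝ) ^ (-(1 : ℝ) / 4) * KK ≤ 6 * x * (2 * (1 / L ^ (U + 1))) * KK := by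
          apply mul_le_mul_of_nonneg_right _ hK
          exact mul_le_mul_of_nonneg_left (q1.trans q2) (by positivity)
      _ = 12 * KK * (x / L ^ (U + 1)) := by field_simp; ring
  calc _ ≤ (2 * C + 2) * (x / L ^ (U + 1)) + 12 * KK * (x / L ^ (U + 1)) := add_le_add p1 p2
    _ = (2 * C + 2 + 12 * KK) * (x / L ^ (U + 1)) := by ring
    _ ≤ L * (x / L ^ (U + 1)) := mul_le_mul_of_nonneg_right h3 (by positivity)
    _ = x / L ^ U := by rw [pow_succ]; field_simp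

end Pool.Agent.X55.Art
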