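import Pool.Agent.X55.Art.Loc
import Pool.Agent.Helper112.LS

set_option autoImplicit false

/-! # High moments through the large sieve -/

namespace Pool.Agent.X55.Art

open Finset Filter
open Pool.Agent.TH894.NE (mean Per cfd ch ch' expandd exp_moment mean_mono mean_mul mean_add mean_const cfd_zero)
open Pool.Agent.TH894.ND (Fr)


/-- the `2 j`-th moment, Gaussian size for `j ≤ V` -/
theorem mom {d : ℕ} {ι : Type*} [DecidableEq ι] (I : Finset ι) (q : ι → ℕ) (hq : ∀ a ∈ I, 1 ≤ q a)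
    (hcop : ∀ a ∈ I, ∀ a' ∈ I, a ≠ a' → Nat.Coprime (q a) (q a')) (F : ι → (Fin d → ℕ) → ℝ)
    (hF : ∀ a ∈ I, Per (q a) (F a))
    (hF1 : ∀ a ∈ I, ∀ n, |F a n| ≤ 1) (hF0 : ∀ a ∈ I, mean d (q a) (F a) = 0) (V : ℝ)
    (hV : ∑ a ∈ I, mean d (q a) (fun n => F a n ^ 2) ≤ V) (j : ℕ) (hj : 1 ≤ j) (hjV : (j : ℝ) ≤ V) :
    mean d (∏ a ∈ I, q a) (fun n => (∑ a ∈ I, F a n) ^ (2 * j)) ≤ 2 * (12 * j * V) ^ j := by
  have hj0 : (1 : ℝ) ≤ j := by exact_mod_cast hj
  have hV0 : 0 < V := by linarith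
  obtain ⟨l, hl⟩ : ∃ l : ℝ, l = Real.sqrt (j / V) := ⟨_, rfl⟩
  have hl0 : 0 < l := by rw [hl]; exact Real.sqrt_pos.2 (by positivity)
  have hl2 : l ^ 2 = j / V := by rw [hl, Real.sq_sqrt (by positivity)]
  have hl1 : l ≤ 1 := by
    rw [hl, ← Real.sqrt_one]
    exact Real.sqrt_le_sqrt ((div_le_one hV0).2 hjV)
  have hlV : l ^ 2 * V = j := by
    rw [hl2]
    field_simp
  have h1 := exp_moment I q hq hcop F hF hF1 hF0 V hV l (by rw [abs_of_pos hl0]; exact hl1)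
  have h2 := exp_moment I q hq hcop F hF hF1 hF0 V hV (-l) (by rw [abs_neg, abs_of_pos hl0]; exact hl1)
  rw [hlV] at h1
  rw [neg_sq, hlV] at h2
  have hf0 : (0 : ℝ) < (2 * j).factorial := by exact_mod_cast Nat.factorial_pos _
  have h3 : ∀ n, (∑ a ∈ I, F a n) ^ (2 * j) ≤ ((2 * j).factorial * (V / j) ^ j) *
      (Real.exp (l * ∑ a ∈ I, F a n) + Real.exp (-l * ∑ a ∈ I, F a n)) := by
    intro n
    obtain ⟨u, hu⟩ : ∃ u, u = ∑ a ∈ I, F a n := ⟨_, rfl⟩
    rw [← hu]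
    have h4 := Real.pow_div_factorial_le_exp (x := |l * u|) (abs_nonneg _) (2 * j)
    have h5 : Real.exp |l * u| ≤ Real.exp (l * u) + Real.exp (-l * u) := by
      rcases abs_choice (l * u) with h | h
      · rw [h]
        have := Real.exp_pos (-l * u)
        linarith
      · rw [h, neg_mul]
        have := Real.exp_pos (l * u)
        linarith
    have h6 : |l * u| ^ (2 * j) = u ^ (2 * j) * (j / V) ^ j := by
      rw [(even_two_mul j).pow_abs, mul_pow, pow_mul l, hl2]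
      ring
    rw [h6] at h4
    have h7 := h4.trans h5
    rw [div_le_iff₀ hf0] at h7
    have h8 : (V / j) ^ j * (j / V) ^ j = 1 := by
      rw [← mul_pow, div_mul_div_cancel₀ (by linarith), div_self (by linarith), one_pow]
    have h9 : 0 ≤ (V / (j : ℝ)) ^ j := by positivity
    calc u ^ (2 * j) = (V / j) ^ j * (u ^ (2 * j) * (j / V) ^ j) := by
          rw [mul_left_comm, h8, mul_one]
      _ ≤ (V / j) ^ j * ((Real.exp (l * u) + Real.exp (-l * u)) * (2 * j).factorial) :=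
          mul_le_mul_of_nonneg_left h7 h9
      _ = _ := by ring
  refine (mean_mono h3).trans ?_
  rw [mean_mul, mean_add]
  have he : Real.exp 1 ≤ 3 := by have := Real.exp_one_lt_d9; linarith
  have hej : Real.exp j ≤ 3 ^ j := by
    calc Real.exp j = Real.exp 1 ^ j := by rw [← Real.exp_nat_mul, mul_one]
      _ ≤ 3 ^ j := pow_le_pow_left₀ (Real.exp_pos _).le he j
  have hfac : ((2 * j).factorial : ℝ) ≤ (4 * j ^ 2) ^ j := by
    have h10 : (2 * j).factorial ≤ (2 * j) ^ (2 * j) := Nat.factorial_le_pow _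
    calc ((2 * j).factorial : ℝ) ≤ ((2 * j) ^ (2 * j) : ℕ) := by exact_mod_cast h10
      _ = (4 * j ^ 2) ^ j := by
          push_cast
          rw [pow_mul]
          congr 1
          ring
  calc ((2 * j).factorial * (V / j) ^ j) * (mean d (∏ a ∈ I, q a) (fun n => Real.exp (l * ∑ a ∈ I, F a n)) +
        mean d (∏ a ∈ I, q a) (fun n => Real.exp (-l * ∑ a ∈ I, F a n)))
      ≤ ((4 * j ^ 2) ^ j * (V / j) ^ j) * (3 ^ j + 3 ^ j) := by
        apply mul_le_mul _ (by linarith) _ (by positivity)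
        · exact mul_le_mul_of_nonneg_right hfac (by positivity)
        · have g1 : 0 ≤ mean d (∏ a ∈ I, q a) (fun n => Real.exp (l * ∑ a ∈ I, F a n)) := by
            unfold mean
            exact mul_nonneg (by positivity) (sum_nonneg fun n _ => (Real.exp_pos _).le)
          have g2 : 0 ≤ mean d (∏ a ∈ I, q a) (fun n => Real.exp (-l * ∑ a ∈ I, F a n)) := by
            unfold mean
            exact mul_nonneg (by positivity) (sum_nonneg fun n _ => (Real.exp_pos _).le)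
          linarith
    _ = 2 * (4 * j ^ 2 * (V / j) * 3) ^ j := by rw [mul_pow, mul_pow]; ring
    _ = 2 * (12 * j * V) ^ j := by
        congr 2
        field_simp
        ring

theorem e12 (x : ℝ) : Pool.Agent.TH894.ND.ee x = Pool.Agent.Helper112.ee x := by
  unfold Pool.Agent.TH894.ND.ee Pool.Agent.Helper112.ee
  push_cast
  ring_nf

theorem e1_conj (x : ℝ) : (starRingEnd ℂ) (Pool.Agent.TH894.ND.ee x) = Pool.Agent.TH894.ND.ee (-x) := by
  unfold Pool.Agent.TH894.ND.ee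
  rw [← Complex.exp_conj, map_mul, Complex.conj_ofReal, Complex.conj_I]
  congr 1
  push_cast
  ring

/-- Parseval -/
theorem parseval {d : ℕ} (Q : ℕ) (hQ : 1 ≤ Q) (H : (Fin d → ℕ) → ℝ) (hH : Per Q H) :
    ∑ k ∈ Pool.Agent.TH894.NE.box d Q, ‖cfd Q H k‖ ^ 2 = mean d Q (fun n => H n ^ 2) := by
  have h1 : ∀ k, (starRingEnd ℂ) (cfd Q H k) = (1 / (Q : ℂ) ^ d) * ∑ n ∈ Pool.Agent.TH894.NE.box d Q, (H n : ℂ) * ch Q k n := by
    intro k
    unfold cfd
    rw [map_mul, map_sum]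
    congr 1
    · simp
    · refine sum_congr rfl fun n _ => ?_
      rw [map_mul, Complex.conj_ofReal]
      congr 1
      unfold ch ch'
      rw [map_prod]
      refine prod_congr rfl fun i _ => ?_
      rw [e1_conj, neg_neg]
  have h2 : ((∑ k ∈ Pool.Agent.TH894.NE.box d Q, ‖cfd Q H k‖ ^ 2 : ℝ) : ℂ) = ((mean d Q (fun n => H n ^ 2) : ℝ) : ℂ) := by
    push_cast
    have h3 : ∀ k ∈ Pool.Agent.TH894.NE.box d Q, ((‖cfd Q H k‖ : ℝ) : ℂ) ^ 2 = cfd Q H k * ((1 / (Q : ℂ) ^ d) * ∑ n ∈ Pool.Agent.TH894.NE.box d Q, (H n : ℂ) * ch Q k n) := by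
      intro k _
      rw [← h1, Complex.mul_conj, Complex.normSq_eq_norm_sq]
      push_cast
      rfl
    rw [sum_congr rfl h3]
    have h4 : ∑ k ∈ Pool.Agent.TH894.NE.box d Q, cfd Q H k * ((1 / (Q : ℂ) ^ d) * ∑ n ∈ Pool.Agent.TH894.NE.box d Q, (H n : ℂ) * ch Q k n) =
        (1 / (Q : ℂ) ^ d) * ∑ n ∈ Pool.Agent.TH894.NE.box d Q, (H n : ℂ) * ∑ k ∈ Pool.Agent.TH894.NE.box d Q, cfd Q H k * ch Q k n := by
      simp only [mul_sum]
      rw [sum_comm]
      refine sum_congr rfl fun n _ => sum_congr rfl fun k _ => ?_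
      ring
    rw [h4]
    unfold mean
    push_cast
    congr 1
    refine sum_congr rfl fun n _ => ?_
    rw [← expandd Q hQ H hH n]
    ring
  exact_mod_cast h2

theorem ch_one (Q : ℕ) (k n : Fin 1 → ℕ) : ch Q k n = Pool.Agent.TH894.ND.ee ((k 0 : ℝ) * n 0 / Q) := by
  unfold ch
  rw [Fin.prod_univ_one]

/-- the large sieve over the fractions `k / Q` with small denominators -/
theorem ls_Fr (Q R N : ℕ) (hQ : 1 ≤ Q) (α : ℕ → ℂ) :
    ∑ k ∈ Fr Q R, ‖∑ n ∈ Finset.Icc 1 N, α n * Pool.Agent.TH894.ND.ee ((k : ℝ) * n / Q)‖ ^ 2 ≤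
      6 * (N + (R : ℝ) ^ 2) * ∑ n ∈ Finset.Icc 1 N, ‖α n‖ ^ 2 := by
  classical
  refine le_trans ?_ (Pool.Agent.Helper112.additive_large_sieve N R α)
  set S : Finset (Σ _ : ℕ, ℕ) := (Finset.Icc 1 R).sigma (fun f => (range f).filter (fun a => a.Coprime f)) with hS
  set G : (Σ _ : ℕ, ℕ) → ℝ := fun r => ‖∑ n ∈ Finset.Icc 1 N, α n * Pool.Agent.Helper112.ee (n * r.2 / r.1)‖ ^ 2 with hG
  have h0 : ∑ f ∈ Finset.Icc 1 R, ∑ a ∈ (range f).filter (fun a => a.Coprime f),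
      ‖∑ n ∈ Finset.Icc 1 N, α n * Pool.Agent.Helper112.ee (n * a / f)‖ ^ 2 = ∑ r ∈ S, G r := by
    rw [hS, Finset.sum_sigma]
  rw [h0]
  set φ : ℕ → (Σ _ : ℕ, ℕ) := fun k => ⟨Q / Nat.gcd k Q, k / Nat.gcd k Q⟩ with hφ
  have hg : ∀ k, 0 < Nat.gcd k Q := fun k => Nat.gcd_pos_of_pos_right _ (by omega)
  have hkey : ∀ k, k * (Q / Nat.gcd k Q) = (k / Nat.gcd k Q) * Q := by
    intro k
    obtain ⟨u, hu⟩ := Nat.gcd_dvd_left k Q
    obtain ⟨v, hv⟩ := Nat.gcd_dvd_right k Q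
    have h1 : k / Nat.gcd k Q = u := by
      nth_rewrite 1 [hu]
      exact Nat.mul_div_cancel_left _ (hg k)
    have h2 : Q / Nat.gcd k Q = v := by
      nth_rewrite 1 [hv]
      exact Nat.mul_div_cancel_left _ (hg k)
    rw [h1, h2]
    nth_rewrite 1 [hu]
    nth_rewrite 2 [hv]
    ring
  have hf0 : ∀ k, 0 < Q / Nat.gcd k Q := fun k =>
    Nat.div_pos (Nat.le_of_dvd (by omega) (Nat.gcd_dvd_right k Q)) (hg k)
  have hmaps : ∀ k ∈ Fr Q R, φ k ∈ S := by
    intro k hk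
    unfold Fr at hk
    rw [mem_filter, mem_range] at hk
    obtain ⟨hkQ, M, hM1, hMR, hd⟩ := hk
    rw [hS, mem_sigma, Finset.mem_Icc, mem_filter, mem_range]
    have hcop : Nat.Coprime (k / Nat.gcd k Q) (Q / Nat.gcd k Q) := Nat.coprime_div_gcd_div_gcd (hg k)
    refine ⟨⟨hf0 k, ?_⟩, ?_, hcop⟩
    · have h1 : Q / Nat.gcd k Q ∣ (k / Nat.gcd k Q) * M := by
        have h2 : Q ∣ k * M := hd
        obtain ⟨c, hc⟩ := h2
        refine ⟨c, ?_⟩
        have h3 := hkey k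
        have h4 : (k / Nat.gcd k Q) * M * Q = (Q / Nat.gcd k Q) * c * Q := by
          calc (k / Nat.gcd k Q) * M * Q = ((k / Nat.gcd k Q) * Q) * M := by ring
            _ = (k * (Q / Nat.gcd k Q)) * M := by rw [h3]
            _ = (k * M) * (Q / Nat.gcd k Q) := by ring
            _ = (Q * c) * (Q / Nat.gcd k Q) := by rw [hc]
            _ = _ := by ring
        exact Nat.eq_of_mul_eq_mul_right (by omega) h4
      have h5 := (Nat.Coprime.symm hcop).dvd_of_dvd_mul_left h1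
      exact (Nat.le_of_dvd hM1 h5).trans hMR
    · have h1 := hkey k
      have h2 : (k / Nat.gcd k Q) * Q < (Q / Nat.gcd k Q) * Q := by
        rw [← h1, mul_comm]
        exact Nat.mul_lt_mul_of_pos_left hkQ (hf0 k)
      exact Nat.lt_of_mul_lt_mul_right h2
  have hinj : Set.InjOn φ (Fr Q R : Set ℕ) := by
    intro k _ k' _ h
    rw [hφ] at h
    simp only [Sigma.mk.injEq] at h
    obtain ⟨h1, h2⟩ := h
    have h2' : k / Nat.gcd k Q = k' / Nat.gcd k' Q := by simpa using h2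
    have h3 := hkey k
    have h4 := hkey k'
    rw [← h2', ← h1] at h4
    have h5 : k * (Q / Nat.gcd k Q) = k' * (Q / Nat.gcd k Q) := h3.trans h4.symm
    exact Nat.eq_of_mul_eq_mul_right (hf0 k) h5
  have hval : ∀ k ∈ Fr Q R, ‖∑ n ∈ Finset.Icc 1 N, α n * Pool.Agent.TH894.ND.ee ((k : ℝ) * n / Q)‖ ^ 2 = G (φ k) := by
    intro k _
    rw [hG]
    simp only
    congr 2
    refine sum_congr rfl fun n _ => ?_
    rw [e12]
    congr 2
    have h1 : (k : ℝ) * ((Q / Nat.gcd k Q : ℕ) : ℝ) = ((k / Nat.gcd k Q : ℕ) : ℝ) * Q := by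
      exact_mod_cast hkey k
    have h2 : (0 : ℝ) < ((Q / Nat.gcd k Q : ℕ) : ℝ) := by exact_mod_cast hf0 k
    have h3 : (0 : ℝ) < Q := by exact_mod_cast (by omega : 0 < Q)
    rw [div_eq_div_iff h3.ne' h2.ne']
    linear_combination (n : ℝ) * h1
  rw [sum_congr rfl hval, ← sum_image hinj]
  exact sum_le_sum_of_subset_of_nonneg (image_subset_iff.2 hmaps) fun r _ _ => by
    rw [hG]; positivity

/-- **High moments of local functions on the integers up to `N`.** -/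
theorem ls_mom {ι : Type} [DecidableEq ι] (I : Finset ι) (q : ι → ℕ) (x J N : ℕ)
    (hq : ∀ a ∈ I, 1 ≤ q a ∧ q a ≤ x) (F : ι → (Fin 1 → ℕ) → ℝ) (hF : ∀ a ∈ I, Per (q a) (F a))
    (E : Finset ℕ) (hE : E ⊆ Finset.Icc 1 N) (lam : ℝ) (hlam : 0 ≤ lam)
    (hbig : ∀ m ∈ E, lam ≤ |∑ a ∈ I, F a (fun _ => m)|) :
    (E.card : ℝ) * lam ^ (2 * J) ≤ 6 * (N + ((x : ℝ) ^ J) ^ 2) *
      mean 1 (∏ a ∈ I, q a) (fun n => (∑ a ∈ I, F a n) ^ (2 * J)) := by
  classical
  set Q := ∏ a ∈ I, q a with hQ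
  have hQ1 : 1 ≤ Q := Nat.one_le_iff_ne_zero.2 (prod_ne_zero_iff.2 fun a ha => by
    have := (hq a ha).1; omega)
  set H : (Fin 1 → ℕ) → ℝ := fun n => (∑ a ∈ I, F a n) ^ J with hH
  have hper : Per Q H := by
    intro n
    rw [hH]
    simp only
    congr 1
    refine sum_congr rfl fun a ha => ?_
    exact (hF a ha).of_dvd (dvd_prod_of_mem q ha) n
  have hpar := parseval Q hQ1 H hper
  have hmean : mean 1 Q (fun n => H n ^ 2) = mean 1 Q (fun n => (∑ a ∈ I, F a n) ^ (2 * J)) := by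
    congr 1
    funext n
    rw [hH]
    simp only
    rw [← pow_mul, mul_comm]
  rw [← hmean, ← hpar]
  set s : ℕ → ℝ := fun m => if 0 ≤ H (fun _ => m) then 1 else -1 with hs
  have hs1 : ∀ m, |s m| = 1 := by
    intro m
    rw [hs]
    simp only
    split_ifs <;> simp
  have hsH : ∀ m, s m * H (fun _ => m) = |H (fun _ => m)| := by
    intro m
    rw [hs]
    simp only
    split_ifs with h
    · rw [abs_of_nonneg h, one_mul]
    · push Not at h
      rw [abs_of_neg h]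
      ring
  set α : ℕ → ℂ := fun m => if m ∈ E then ((s m : ℝ) : ℂ) else 0 with hα
  have hα2 : ∑ n ∈ Finset.Icc 1 N, ‖α n‖ ^ 2 = (E.card : ℝ) := by
    have h1 : ∀ n ∈ Finset.Icc 1 N, ‖α n‖ ^ 2 = if n ∈ E then (1 : ℝ) else 0 := by
      intro n _
      rw [hα]
      simp only
      split_ifs
      · rw [Complex.norm_real, Real.norm_eq_abs, hs1, one_pow]
      · simp
    rw [sum_congr rfl h1, ← sum_filter, sum_const, nsmul_eq_mul, mul_one]
    congr 2
    ext n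
    rw [mem_filter]
    exact ⟨fun h => h.2, fun h => ⟨hE h, h⟩⟩
  set T : (Fin 1 → ℕ) → ℂ := fun k => ∑ n ∈ Finset.Icc 1 N, α n * Pool.Agent.TH894.ND.ee ((k 0 : ℝ) * n / Q) with hT
  -- the sum of the absolute values
  have hsum : ((∑ m ∈ E, |H (fun _ => m)| : ℝ) : ℂ) = ∑ k ∈ Pool.Agent.TH894.NE.box 1 Q, cfd Q H k * T k := by
    have h1 : ((∑ m ∈ E, |H (fun _ => m)| : ℝ) : ℂ) = ∑ n ∈ Finset.Icc 1 N, α n * ((H (fun _ => n) : ℝ) : ℂ) := by
      have h2 : ∀ n ∈ Finset.Icc 1 N, α n * ((H (fun _ => n) : ℝ) : ℂ) =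
          if n ∈ E then ((|H (fun _ => n)| : ℝ) : ℂ) else 0 := by
        intro n _
        rw [hα]
        simp only
        split_ifs
        · rw [← Complex.ofReal_mul, hsH]
        · rw [zero_mul]
      rw [sum_congr rfl h2, ← sum_filter]
      push_cast
      apply sum_congr _ fun _ _ => rfl
      ext n
      rw [mem_filter]
      exact ⟨fun h => ⟨hE h, h⟩, fun h => h.2⟩
    rw [h1]
    have h3 : ∀ n ∈ Finset.Icc 1 N, α n * ((H (fun _ => n) : ℝ) : ℂ) =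
        ∑ k ∈ Pool.Agent.TH894.NE.box 1 Q, cfd Q H k * (α n * Pool.Agent.TH894.ND.ee ((k 0 : ℝ) * n / Q)) := by
      intro n _
      rw [expandd Q hQ1 H hper (fun _ => n), mul_sum]
      refine sum_congr rfl fun k _ => ?_
      rw [ch_one]
      ring
    rw [sum_congr rfl h3, sum_comm]
    refine sum_congr rfl fun k _ => ?_
    rw [hT, mul_sum]
  -- restriction to the small denominators
  set S : Finset (Fin 1 → ℕ) := (Pool.Agent.TH894.NE.box 1 Q).filter (fun k => k 0 ∈ Fr Q (x ^ J)) with hS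
  have hzero : ∀ k ∈ Pool.Agent.TH894.NE.box 1 Q, k ∉ S → cfd Q H k * T k = 0 := by
    intro k hk hkS
    have h1 : k 0 ∉ Fr Q (x ^ J) := fun h => hkS (by rw [hS, mem_filter]; exact ⟨hk, h⟩)
    have h2 := cfd_zero I q F Q J x hQ1 (fun a ha => ⟨(hq a ha).1, (hq a ha).2, dvd_prod_of_mem q ha⟩) hF k hk 0 h1
    have h3 : cfd Q H k = 0 := h2
    rw [h3, zero_mul]
  have hle : ∑ m ∈ E, |H (fun _ => m)| ≤ ∑ k ∈ S, ‖cfd Q H k‖ * ‖T k‖ := by
    have h1 : ∑ k ∈ Pool.Agent.TH894.NE.box 1 Q, cfd Q H k * T k = ∑ k ∈ S, cfd Q H k * T k := by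
      symm
      apply sum_subset (filter_subset _ _)
      intro k hk hkS
      exact hzero k hk hkS
    rw [h1] at hsum
    have h2 : ‖((∑ m ∈ E, |H (fun _ => m)| : ℝ) : ℂ)‖ = ∑ m ∈ E, |H (fun _ => m)| := by
      rw [Complex.norm_real, Real.norm_of_nonneg]
      exact sum_nonneg fun _ _ => abs_nonneg _
    rw [← h2, hsum]
    refine (norm_sum_le _ _).trans (le_of_eq ?_)
    exact sum_congr rfl fun k _ => norm_mul _ _
  have hTS : ∑ k ∈ S, ‖T k‖ ^ 2 ≤ 6 * (N + ((x : ℝ) ^ J) ^ 2) * (E.card : ℝ) := by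
    have h1 := ls_Fr Q (x ^ J) N hQ1 α
    rw [hα2] at h1
    push_cast at h1
    refine le_trans ?_ h1
    have h2 : ∑ k ∈ S, ‖T k‖ ^ 2 = ∑ k ∈ S.image (fun k : Fin 1 → ℕ => (k 0 : ℕ)),
        ‖∑ n ∈ Finset.Icc 1 N, α n * Pool.Agent.TH894.ND.ee (((k : ℕ) : ℝ) * n / Q)‖ ^ 2 := by
      rw [sum_image]
      intro k _ k' _ h
      funext i
      rw [Subsingleton.elim i 0]
      exact h
    rw [h2]
    apply sum_le_sum_of_subset_of_nonneg
    · intro k hk
      rw [mem_image] at hk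
      obtain ⟨k', hk', rfl⟩ := hk
      rw [hS, mem_filter] at hk'
      exact hk'.2
    · intro _ _ _
      positivity
  have hcs := sum_mul_sq_le_sq_mul_sq S (fun k => ‖cfd Q H k‖) (fun k => ‖T k‖)
  have hEl : (E.card : ℝ) * lam ^ J ≤ ∑ m ∈ E, |H (fun _ => m)| := by
    rw [← nsmul_eq_mul, ← sum_const]
    refine sum_le_sum fun m hm => ?_
    rw [hH]
    simp only
    rw [abs_pow]
    exact pow_le_pow_left₀ hlam (hbig m hm) J
  have hEl0 : 0 ≤ (E.card : ℝ) * lam ^ J := by positivity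
  have hsq : ((E.card : ℝ) * lam ^ J) ^ 2 ≤ (∑ k ∈ Pool.Agent.TH894.NE.box 1 Q, ‖cfd Q H k‖ ^ 2) * (6 * (N + ((x : ℝ) ^ J) ^ 2) * (E.card : ℝ)) := by
    calc ((E.card : ℝ) * lam ^ J) ^ 2 ≤ (∑ k ∈ S, ‖cfd Q H k‖ * ‖T k‖) ^ 2 :=
          pow_le_pow_left₀ hEl0 (hEl.trans hle) 2
      _ ≤ (∑ k ∈ S, ‖cfd Q H k‖ ^ 2) * ∑ k ∈ S, ‖T k‖ ^ 2 := hcs
      _ ≤ _ := by
          apply mul_le_mul _ hTS (sum_nonneg fun _ _ => by positivity) (sum_nonneg fun _ _ => by positivity)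
          exact sum_le_sum_of_subset_of_nonneg (filter_subset _ _) fun _ _ _ => by positivity
  rcases Nat.eq_zero_or_pos E.card with h0 | h0
  · rw [h0]
    push_cast
    rw [zero_mul]
    have : 0 ≤ ∑ k ∈ Pool.Agent.TH894.NE.box 1 Q, ‖cfd Q H k‖ ^ 2 := sum_nonneg fun _ _ => by positivity
    positivity
  · have hE0 : (0 : ℝ) < E.card := by exact_mod_cast h0
    have h1 : (E.card : ℝ) * ((E.card : ℝ) * lam ^ (2 * J)) ≤
        (E.card : ℝ) * (6 * (N + ((x : ℝ) ^ J) ^ 2) * ∑ k ∈ Pool.Agent.TH894.NE.box 1 Q, ‖cfd Q H k‖ ^ 2) := by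
      calc (E.card : ℝ) * ((E.card : ℝ) * lam ^ (2 * J)) = ((E.card : ℝ) * lam ^ J) ^ 2 := by
            rw [mul_pow, ← pow_mul, mul_comm J 2]
            ring
        _ ≤ _ := hsq
        _ = _ := by ring
    exact le_of_mul_le_mul_left h1 hE0

end Pool.Agent.X55.Art
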