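import Pool.Agent.X55.Art.Mom
import Pool.Agent.TH890.AS.R5

set_option autoImplicit false

/-! # The exceptional set at one `x`, from a power of `log N` on -/

namespace Pool.Agent.X55.Art

open Finset Filter
open Pool.Agent.H730R2.AA
open Pool.Agent.TH894.NE (mean Per mean_mono mean_mul mean_add mean_const)
open Pool.Agent.TH890.AS (locDens artin_sets dens_art dens_nonneg dens_le_one order_zero)

/-- the deviation -/
noncomputable def dv (B : ℤ) (x m : ℕ) : ℝ :=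
  ∑ p ∈ PR B x, gI B p (fun _ => m) - ∑ p ∈ PR B x, mean 1 p (gI B p)

theorem card_PR_le' (B : ℤ) (x : ℕ) : (PR B x).card ≤ x := by
  have h : PR B x ⊆ Finset.Icc 1 x := by
    intro p hp
    rw [PR, mem_filter, mem_range] at hp
    rw [Finset.mem_Icc]
    exact ⟨hp.2.1.one_lt.le, by omega⟩
  simpa using card_le_card h

theorem gmean_bd (B : ℤ) (p : ℕ) (hp : 1 ≤ p) : 0 ≤ mean 1 p (gI B p) ∧ mean 1 p (gI B p) ≤ 1 := by
  constructor
  · have h1 := mean_mono (d := 1) (q := p) (F := fun _ => (0 : ℝ)) (G := gI B p) (fun n => gI_nonneg B p n)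
    rw [mean_const 1 p hp] at h1
    exact h1
  · have h1 := mean_mono (d := 1) (q := p) (F := gI B p) (G := fun _ => (1 : ℝ)) (fun n => gI_le B p n)
    rw [mean_const 1 p hp] at h1
    exact h1

theorem dev_card (B : ℤ) (x N j : ℕ) (hj : 1 ≤ j) (hjx : j ≤ x) (hxN : x ^ (2 * j) ≤ N) (lam : ℝ)
    (hlam : 0 ≤ lam) (E : Finset ℕ) (hE : E ⊆ Finset.Icc 1 N) (hbig : ∀ m ∈ E, lam ≤ |dv B x m|) :
    (E.card : ℝ) * lam ^ (2 * j) ≤ 24 * N * (12 * j * x) ^ j := by
  classical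
  set F : ℕ → (Fin 1 → ℕ) → ℝ := fun p n => gI B p n - mean 1 p (gI B p) with hF
  have hPR : ∀ p ∈ PR B x, p.Prime ∧ p ≤ x := by
    intro p hp
    rw [PR, mem_filter, mem_range] at hp
    exact ⟨hp.2.1, by omega⟩
  have hper : ∀ p ∈ PR B x, Per p (F p) := by
    intro p _ n
    rw [hF]
    simp only
    rw [← gI_per B p n]
  have hF1 : ∀ p ∈ PR B x, ∀ n, |F p n| ≤ 1 := by
    intro p hp n
    have h1 := gmean_bd B p (hPR p hp).1.one_lt.le
    have h2 := gI_nonneg B p n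
    have h3 := gI_le B p n
    rw [hF]
    simp only
    rw [abs_le]
    constructor <;> linarith [h1.1, h1.2]
  have hF0 : ∀ p ∈ PR B x, mean 1 p (F p) = 0 := by
    intro p hp
    have h1 : F p = fun n => gI B p n + (fun _ : Fin 1 → ℕ => -(mean 1 p (gI B p))) n := by
      funext n
      rw [hF]
      ring
    rw [h1, mean_add (gI B p), mean_const 1 p (hPR p hp).1.one_lt.le]
    ring
  have hV : ∑ p ∈ PR B x, mean 1 p (fun n => F p n ^ 2) ≤ (x : ℝ) := by
    calc ∑ p ∈ PR B x, mean 1 p (fun n => F p n ^ 2) ≤ ∑ _p ∈ PR B x, (1 : ℝ) := by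
          refine sum_le_sum fun p hp => ?_
          have h1 := mean_mono (d := 1) (q := p) (F := fun n => F p n ^ 2) (G := fun _ => (1 : ℝ))
            (fun n => by
              have h2 := hF1 p hp n
              rw [← sq_abs]
              have h3 := abs_nonneg (F p n)
              nlinarith)
          rw [mean_const 1 p (hPR p hp).1.one_lt.le] at h1
          exact h1
      _ = ((PR B x).card : ℝ) := by simp
      _ ≤ x := by exact_mod_cast card_PR_le' B x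
  have h1 := ls_mom (PR B x) (fun p => p) x j N (fun p hp => ⟨(hPR p hp).1.one_lt.le, (hPR p hp).2⟩) F hper
    E hE lam hlam (fun m hm => by
      have h2 := hbig m hm
      unfold dv at h2
      rw [← sum_sub_distrib] at h2
      exact h2)
  have h2 := mom (PR B x) (fun p => p) (fun p hp => (hPR p hp).1.one_lt.le)
    (fun p hp p' hp' hne => (Nat.coprime_primes (hPR p hp).1 (hPR p' hp').1).2 hne) F hper hF1 hF0 (x : ℝ) hV j hj
    (by exact_mod_cast hjx)
  refine h1.trans ?_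
  have h3 : ((x : ℝ) ^ j) ^ 2 ≤ N := by
    rw [← pow_mul, mul_comm j 2]
    exact_mod_cast hxN
  calc 6 * ((N : ℝ) + ((x : ℝ) ^ j) ^ 2) * mean 1 (∏ p ∈ PR B x, p) (fun n => (∑ p ∈ PR B x, F p n) ^ (2 * j))
      ≤ 6 * ((N : ℝ) + N) * (2 * (12 * j * x) ^ j) := by
        apply mul_le_mul _ h2 _ (by positivity)
        · linarith
        · unfold mean
          exact mul_nonneg (by positivity) (sum_nonneg fun n _ => by
            have := (even_two_mul j).pow_nonneg (∑ p ∈ PR B x, F p n)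
            exact this)
    _ = 24 * N * (12 * j * x) ^ j := by ring

/-- with exponents -/
theorem dev_card2 (B : ℤ) (x N j : ℕ) (hx : 2 ≤ x) (hN : 1 ≤ N) (hj : 1 ≤ j) (hxN : x ^ (2 * j) ≤ N)
    (t s : ℝ) (ht : 0 ≤ t) (hjx : 12 * (j : ℝ) ≤ (x : ℝ) ^ (1 - 2 * t - s)) (hs : 0 ≤ s) :
    (((Finset.Icc 1 N).filter (fun m => (x : ℝ) ^ (1 - t) ≤ |dv B x m|)).card : ℝ) ≤
      24 * Real.exp (Real.log N - s * (j * Real.log x)) := by
  classical
  have hx1 : (1 : ℝ) < x := by exact_mod_cast (by omega : 1 < x)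
  have hx0 : (0 : ℝ) < x := by linarith
  have hN0 : (0 : ℝ) < N := by exact_mod_cast hN
  have hj0 : (1 : ℝ) ≤ j := by exact_mod_cast hj
  have hjx' : j ≤ x := by
    have h1 : (x : ℝ) ^ (1 - 2 * t - s) ≤ (x : ℝ) ^ (1 : ℝ) :=
      Real.rpow_le_rpow_of_exponent_le hx1.le (by linarith)
    rw [Real.rpow_one] at h1
    have h2 : (j : ℝ) ≤ x := by linarith
    exact_mod_cast h2
  have h1 := dev_card B x N j hj hjx' hxN ((x : ℝ) ^ (1 - t)) (by positivity)
    ((Finset.Icc 1 N).filter (fun m => (x : ℝ) ^ (1 - t) ≤ |dv B x m|)) (filter_subset _ _)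
    (fun m hm => (mem_filter.1 hm).2)
  set n : ℝ := (((Finset.Icc 1 N).filter (fun m => (x : ℝ) ^ (1 - t) ≤ |dv B x m|)).card : ℝ) with hn
  have hl : ((x : ℝ) ^ (1 - t)) ^ (2 * j) = ((x : ℝ) ^ (2 - 2 * t)) ^ j := by
    rw [pow_mul, ← Real.rpow_natCast ((x : ℝ) ^ (1 - t)) 2, ← Real.rpow_mul hx0.le]
    congr 2
    push_cast
    ring
  have hle : (12 * (j : ℝ) * x) ^ j ≤ ((x : ℝ) ^ (2 - 2 * t)) ^ j * ((x : ℝ) ^ (-s)) ^ j := by
    rw [← mul_pow]
    apply pow_le_pow_left₀ (by positivity)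
    calc 12 * (j : ℝ) * x ≤ (x : ℝ) ^ (1 - 2 * t - s) * x := mul_le_mul_of_nonneg_right hjx hx0.le
      _ = (x : ℝ) ^ (2 - 2 * t) * (x : ℝ) ^ (-s) := by
          nth_rewrite 2 [← Real.rpow_one (x : ℝ)]
          rw [← Real.rpow_add hx0, ← Real.rpow_add hx0]
          ring_nf
  rw [hl] at h1
  have hpos : 0 < ((x : ℝ) ^ (2 - 2 * t)) ^ j := by positivity
  have h2 : n * ((x : ℝ) ^ (2 - 2 * t)) ^ j ≤ (24 * N * ((x : ℝ) ^ (-s)) ^ j) * ((x : ℝ) ^ (2 - 2 * t)) ^ j := by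
    refine h1.trans ?_
    calc 24 * (N : ℝ) * (12 * j * x) ^ j ≤ 24 * N * (((x : ℝ) ^ (2 - 2 * t)) ^ j * ((x : ℝ) ^ (-s)) ^ j) :=
          mul_le_mul_of_nonneg_left hle (by positivity)
      _ = _ := by ring
  have h3 := le_of_mul_le_mul_right h2 hpos
  refine h3.trans (le_of_eq ?_)
  have h4 : ((x : ℝ) ^ (-s)) ^ j = Real.exp (-(s * (j * Real.log x))) := by
    rw [← Real.rpow_natCast, ← Real.rpow_mul hx0.le, Real.rpow_def_of_pos hx0]
    congr 1
    ring
  rw [h4, sub_eq_add_neg, Real.exp_add, Real.exp_log hN0]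
  ring

/-- from the deviation to the counting function -/
theorem dv_cnt (B : ℤ) (x m : ℕ) : |(cnt (B * (m : ℤ) ^ 2) x : ℝ) - mainT B x| ≤ |dv B x m| + 3 + 2 * Real.log x := by
  have g1 := cnt_eq_sum B m x
  have g2 := mean_main B x
  have e : (cnt (B * (m : ℤ) ^ 2) x : ℝ) - mainT B x =
      ((cnt (B * (m : ℤ) ^ 2) x : ℝ) - ∑ p ∈ PR B x, gI B p (fun _ => m)) + dv B x m +
      (∑ p ∈ PR B x, mean 1 p (gI B p) - mainT B x) := by
    unfold dv
    ring
  rw [e]
  refine (abs_add_le _ _).trans ?_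
  have h1 := abs_add_le ((cnt (B * (m : ℤ) ^ 2) x : ℝ) - ∑ p ∈ PR B x, gI B p (fun _ => m)) (dv B x m)
  linarith

end Pool.Agent.X55.Art
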