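import Pool.Agent.X55.Art.Pl2

set_option autoImplicit false

/-! # The exceptional set, at every `x` -/

namespace Pool.Agent.X55.Art

open Finset Filter
open Pool.Agent.H730R2.AA

open Classical in
/-- the exceptional `m ≤ N` at `x` -/
noncomputable def Bd (c : ℝ) (B : ℤ) (N x : ℕ) : Finset ℕ :=
  (Finset.Icc 1 N).filter (fun m : ℕ => (x : ℝ) ^ (1 - c) < |(cnt (B * (m : ℤ) ^ 2) x : ℝ) - mainT B x|)

theorem one_x (β θ : ℝ) (hβ0 : 0 < β) (hβ1 : β < 1) (h1 : 1 - β / 2 < θ) (h2 : 3 / 4 < θ) (A : ℕ) :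
    ∃ c τ : ℝ, 0 < c ∧ 0 < τ ∧ ∃ N₀ : ℕ, ∀ N : ℕ, N₀ ≤ N → ∀ x : ℕ, Real.log N ≤ (x : ℝ) ^ (1 - β) → x ≤ N ^ A →
      ∀ B : ℤ, ((Bd c B N x).card : ℝ) ≤ (N : ℝ) ^ (θ - τ) := by
  classical
  obtain ⟨τ, hτ⟩ : ∃ τ, τ = min (min (β / 4) (1 / 8)) (min ((θ - (1 - β / 2)) / 4) ((θ - 3 / 4) / 4)) := ⟨_, rfl⟩
  have hτ0 : 0 < τ := by
    rw [hτ]
    exact lt_min (lt_min (by linarith) (by norm_num)) (lt_min (by linarith) (by linarith))
  have hτβ : τ ≤ β / 4 := by rw [hτ]; exact (min_le_left _ _).trans (min_le_left _ _)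
  have hτ8 : τ ≤ 1 / 8 := by rw [hτ]; exact (min_le_left _ _).trans (min_le_right _ _)
  have hτ1 : τ ≤ (θ - (1 - β / 2)) / 4 := by rw [hτ]; exact (min_le_right _ _).trans (min_le_left _ _)
  have hτ2 : τ ≤ (θ - 3 / 4) / 4 := by rw [hτ]; exact (min_le_right _ _).trans (min_le_right _ _)
  obtain ⟨N₁, hN₁⟩ := range12 β τ (θ - τ) hβ1 hτ0 (by linarith) hτ8 (by linarith) (by linarith)
  obtain ⟨c₃, hc₃, N₂, hN₂⟩ := range3 τ (θ - τ) hτ0 hτ8 (by linarith) A
  obtain ⟨c, hc⟩ : ∃ c, c = min (τ / 2) c₃ := ⟨_, rfl⟩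
  have hc0 : 0 < c := by rw [hc]; exact lt_min (by linarith) hc₃
  have hev : ∀ᶠ x : ℝ in atTop, x ^ (1 - τ) + 3 + 2 * Real.log x ≤ x ^ (1 - τ / 2) := by
    have e1 : ∀ᶠ x : ℝ in atTop, 2 ≤ x ^ (τ / 2) := (tendsto_rpow_atTop (by positivity)).eventually_ge_atTop _
    have e2 : ∀ᶠ x : ℝ in atTop, Real.log x ≤ 1 / 4 * x ^ (1 - τ) := by
      have h := (isLittleO_log_rpow_atTop (show 0 < 1 - τ by linarith)).bound (c := 1 / 4) (by norm_num)
      filter_upwards [h, eventually_gt_atTop 1] with x h1 h2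
      rw [Real.norm_of_nonneg (Real.log_nonneg h2.le), Real.norm_of_nonneg (by positivity)] at h1
      linarith
    have e3 : ∀ᶠ x : ℝ in atTop, 6 ≤ x ^ (1 - τ) :=
      (tendsto_rpow_atTop (by linarith)).eventually_ge_atTop _
    filter_upwards [e1, e2, e3, eventually_gt_atTop 0] with x h1 h2 h3 h4
    have h5 : x ^ (1 - τ / 2) = x ^ (1 - τ) * x ^ (τ / 2) := by
      rw [← Real.rpow_add h4]
      ring_nf
    rw [h5]
    have h6 : x ^ (1 - τ) * 2 ≤ x ^ (1 - τ) * x ^ (τ / 2) := mul_le_mul_of_nonneg_left h1 (by linarith)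
    linarith
  obtain ⟨y₁, hy₁⟩ := ev_nat hev
  obtain ⟨N₃, hN₃⟩ := ev_nat (Real.tendsto_log_atTop.eventually_ge_atTop (((y₁ + 3 : ℕ) : ℝ) ^ (1 - β)))
  refine ⟨c, τ, hc0, hτ0, max (max N₁ N₂) N₃, fun N hN x hx hxA B => ?_⟩
  have hxy : y₁ + 3 ≤ x := by
    by_contra hcon
    push Not at hcon
    have h3 : (x : ℝ) < ((y₁ + 3 : ℕ) : ℝ) := by exact_mod_cast hcon
    have h4 : (x : ℝ) ^ (1 - β) < ((y₁ + 3 : ℕ) : ℝ) ^ (1 - β) :=
      Real.rpow_lt_rpow (Nat.cast_nonneg _) h3 (by linarith)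
    linarith [hN₃ N ((le_max_right _ _).trans hN)]
  have hx1 : (1 : ℝ) ≤ x := by exact_mod_cast (by omega : 1 ≤ x)
  rcases Nat.lt_or_ge N (x ^ 2) with hcase | hcase
  · refine le_trans ?_ (hN₂ N ((le_max_right _ _).trans ((le_max_left _ _).trans hN)) x hcase hxA B)
    apply Nat.cast_le.2
    apply card_le_card
    intro m hm
    unfold Bd at hm
    rw [mem_filter] at hm ⊢
    refine ⟨hm.1, lt_of_le_of_lt ?_ hm.2⟩
    apply Real.rpow_le_rpow_of_exponent_le hx1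
    have : c ≤ c₃ := by rw [hc]; exact min_le_right _ _
    linarith
  · refine le_trans ?_ (hN₁ N ((le_max_left _ _).trans ((le_max_left _ _).trans hN)) x hx hcase B)
    apply Nat.cast_le.2
    apply card_le_card
    intro m hm
    unfold Bd at hm
    rw [mem_filter] at hm ⊢
    refine ⟨hm.1, ?_⟩
    by_contra hcon
    push Not at hcon
    have h3 := dv_cnt B x m
    have h4 := hy₁ x (by omega)
    have h5 : (x : ℝ) ^ (1 - τ / 2) ≤ (x : ℝ) ^ (1 - c) := by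
      apply Real.rpow_le_rpow_of_exponent_le hx1
      have : c ≤ τ / 2 := by rw [hc]; exact min_le_left _ _
      linarith
    linarith [hm.2]

theorem cnt_mono (n : ℤ) {x y : ℕ} (h : x ≤ y) : cnt n x ≤ cnt n y := by
  classical
  unfold cnt
  apply card_le_card
  intro p hp
  rw [mem_filter, mem_range] at hp ⊢
  exact ⟨by omega, hp.2⟩

theorem mainT_diff (B : ℤ) {x y : ℕ} (h : x ≤ y) :
    mainT B x ≤ mainT B y ∧ mainT B y ≤ mainT B x + 2 * ((y : ℝ) - x) := by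
  classical
  have hsub : PR B x ⊆ PR B y := by
    intro p hp
    rw [PR, mem_filter, mem_range] at hp ⊢
    exact ⟨by omega, hp.2⟩
  have h1 : mainT B y = ∑ p ∈ PR B y \ PR B x, rho p * (1 - (jacobiSym B p : ℝ)) + mainT B x := by
    unfold mainT
    rw [sum_sdiff hsub]
  have h2 : ∀ p ∈ PR B y \ PR B x, 0 ≤ rho p * (1 - (jacobiSym B p : ℝ)) := by
    intro p _
    rw [mul_comm]
    exact (term_bd B p).1
  have h3 : ∀ p ∈ PR B y \ PR B x, rho p * (1 - (jacobiSym B p : ℝ)) ≤ 2 := by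
    intro p _
    rw [mul_comm]
    exact (term_bd B p).2
  have h4 := sum_nonneg h2
  have h5 := sum_le_sum h3
  rw [sum_const, nsmul_eq_mul] at h5
  have h6 : (PR B y \ PR B x).card ≤ y - x := by
    have : PR B y \ PR B x ⊆ Finset.Ioc x y := by
      intro p hp
      rw [Finset.mem_sdiff, PR, PR, mem_filter, mem_filter, mem_range, mem_range] at hp
      rw [Finset.mem_Ioc]
      refine ⟨?_, by omega⟩
      by_contra hcon
      exact hp.2 ⟨by omega, hp.1.2⟩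
    refine (card_le_card this).trans ?_
    simp
  have h7 : ((PR B y \ PR B x).card : ℝ) ≤ (y : ℝ) - x := by
    rw [← Nat.cast_sub h]
    exact_mod_cast h6
  constructor
  · linarith
  · linarith

/-- between two points -/
theorem between (B : ℤ) (c : ℝ) (N m x y z h : ℕ) (hxy : x ≤ y) (hyz : y ≤ z) (hzh : z ≤ x + h)
    (hm : m ∈ Finset.Icc 1 N) (h1 : m ∉ Bd c B N x) (h2 : m ∉ Bd c B N z) (hc : c ≤ 1) :
    |(cnt (B * (m : ℤ) ^ 2) y : ℝ) - mainT B y| ≤ (z : ℝ) ^ (1 - c) + 2 * h := by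
  unfold Bd at h1 h2
  rw [mem_filter, not_and, not_lt] at h1 h2
  have k1 := h1 hm
  have k2 := h2 hm
  have k3 : (cnt (B * (m : ℤ) ^ 2) x : ℝ) ≤ cnt (B * (m : ℤ) ^ 2) y := by exact_mod_cast cnt_mono _ hxy
  have k4 : (cnt (B * (m : ℤ) ^ 2) y : ℝ) ≤ cnt (B * (m : ℤ) ^ 2) z := by exact_mod_cast cnt_mono _ hyz
  have k5 := mainT_diff B hxy
  have k6 := mainT_diff B hyz
  have hxz : (x : ℝ) ≤ z := by exact_mod_cast hxy.trans hyz
  have hzhr : (z : ℝ) ≤ x + h := by exact_mod_cast hzh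
  have hxyr : (x : ℝ) ≤ y := by exact_mod_cast hxy
  have hyzr : (y : ℝ) ≤ z := by exact_mod_cast hyz
  have k7 : (x : ℝ) ^ (1 - c) ≤ (z : ℝ) ^ (1 - c) := Real.rpow_le_rpow (Nat.cast_nonneg _) hxz (by linarith)
  rw [abs_le] at k1 k2 ⊢
  constructor
  · linarith [k1.1, k1.2, k2.1, k2.2, k5.1, k5.2, k6.1, k6.2]
  · linarith [k1.1, k1.2, k2.1, k2.2, k5.1, k5.2, k6.1, k6.2]

/-- the grid -/
theorem grid (x g : ℕ) (hx : 1 ≤ x) (hg : 1 ≤ g) : ∃ i h : ℕ, h = 2 ^ (Nat.log 2 x) / g + 1 ∧ i + 1 ≤ 2 * g ∧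
    i * h ≤ x ∧ x ≤ (i + 1) * h ∧ h * g ≤ x + g := by
  obtain ⟨h, hh⟩ : ∃ h, h = 2 ^ (Nat.log 2 x) / g + 1 := ⟨_, rfl⟩
  have h0 : 0 < h := by rw [hh]; exact Nat.succ_pos _
  have h1 : 2 ^ (Nat.log 2 x) ≤ x := Nat.pow_log_le_self 2 (by omega)
  have h2 : x < 2 ^ (Nat.log 2 x + 1) := Nat.lt_pow_succ_log_self (by norm_num) x
  have h3 : 2 ^ (Nat.log 2 x) < h * g := by
    have h5 := Nat.lt_div_mul_add (a := 2 ^ (Nat.log 2 x)) (b := g) (by omega)
    have h6 : h * g = 2 ^ (Nat.log 2 x) / g * g + g := by rw [hh, add_mul, one_mul]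
    rw [h6]
    exact h5
  have h4 : 2 ^ (Nat.log 2 x) / g * g ≤ 2 ^ (Nat.log 2 x) := Nat.div_mul_le_self _ _
  refine ⟨x / h, h, hh, ?_, Nat.div_mul_le_self _ _, ?_, ?_⟩
  · have h5 : x / h * h ≤ x := Nat.div_mul_le_self _ _
    rw [pow_succ] at h2
    have h6 : x / h * h < (2 * g) * h := by nlinarith
    exact Nat.lt_of_mul_lt_mul_right h6
  · have := Nat.lt_div_mul_add (a := x) (b := h) h0
    rw [add_mul, one_mul]
    omega
  · have h5 : h * g = 2 ^ (Nat.log 2 x) / g * g + g := by rw [hh, add_mul, one_mul]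
    rw [h5]
    exact Nat.add_le_add_right (h4.trans h1) g

theorem all_x (β θ : ℝ) (hβ0 : 0 < β) (hβ1 : β < 1) (h1 : 1 - β / 2 < θ) (h2 : 3 / 4 < θ) (A : ℕ) :
    ∃ c : ℝ, 0 < c ∧ c < 1 ∧ ∃ N₀ : ℕ, ∀ N : ℕ, N₀ ≤ N → ∀ B : ℤ, ∀ E ⊆ Finset.Icc 1 N,
      (∀ m ∈ E, ∃ x : ℕ, Real.log N ≤ (x : ℝ) ^ (1 - β) ∧ x ≤ N ^ A ∧
        (x : ℝ) ^ (1 - c) < |(cnt (B * (m : ℤ) ^ 2) x : ℝ) - mainT B x|) → (E.card : ℝ) ≤ (N : ℝ) ^ θ := by
  classical
  obtain ⟨c₀, τ, hc₀, hτ, N₁, hN₁⟩ := one_x β θ hβ0 hβ1 h1 h2 (A + 1)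
  obtain ⟨c₁, hc₁⟩ : ∃ c₁, c₁ = min c₀ 1 := ⟨_, rfl⟩
  have hc₁0 : 0 < c₁ := by rw [hc₁]; exact lt_min hc₀ one_pos
  have hc₁1 : c₁ ≤ 1 := by rw [hc₁]; exact min_le_right _ _
  obtain ⟨η, hη⟩ : ∃ η, η = τ / 4 := ⟨_, rfl⟩
  have hη0 : 0 < η := by rw [hη]; positivity
  obtain ⟨c, hc⟩ : ∃ c, c = min c₁ (η / (A + 1)) / 2 := ⟨_, rfl⟩
  have hA0 : (0 : ℝ) < A + 1 := by positivity
  have hc0 : 0 < c := by rw [hc]; exact half_pos (lt_min hc₁0 (by positivity))
  have hcc₁ : 2 * c ≤ c₁ := by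
    rw [hc]
    have := min_le_left c₁ (η / (A + 1))
    linarith
  have hcη : 2 * c ≤ η / (A + 1) := by
    rw [hc]
    have := min_le_right c₁ (η / (A + 1))
    linarith
  have hc1 : c < 1 := by linarith
  -- large `N`
  have ev1 : ∀ᶠ N : ℝ in atTop, Real.log N ≤ (N ^ η / 4) ^ (1 - β) := by
    have h3 : ∀ᶠ N : ℝ in atTop, Real.log N ≤ (1 / 4) ^ (1 - β) * N ^ (η * (1 - β)) := by
      have hpos : (0 : ℝ) < (1 / 4) ^ (1 - β) := by positivity
      have h := (isLittleO_log_rpow_atTop (show 0 < η * (1 - β) by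
        have : 0 < 1 - β := by linarith
        positivity)).bound hpos
      filter_upwards [h, eventually_gt_atTop 1] with x h1 h2
      rw [Real.norm_of_nonneg (Real.log_nonneg h2.le), Real.norm_of_nonneg (by positivity)] at h1
      exact h1
    filter_upwards [h3, eventually_gt_atTop 0] with N h4 h5
    refine h4.trans (le_of_eq ?_)
    have h6 : N ^ η / 4 = (1 / 4) * N ^ η := by ring
    rw [h6, Real.mul_rpow (by norm_num) (by positivity), ← Real.rpow_mul h5.le]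
  have ev2 : ∀ᶠ N : ℝ in atTop, (2 * (A + 1) * Real.log N + 1) * (2 * (N ^ η + 1) + 1) + (N ^ η + 2) ≤ N ^ (3 * η) := by
    have h3 : ∀ᶠ N : ℝ in atTop, 7 ≤ N ^ η := (tendsto_rpow_atTop hη0).eventually_ge_atTop _
    have h4 : ∀ᶠ N : ℝ in atTop, Real.log N ≤ 1 / (6 * (A + 1)) * N ^ η := by
      have h := (isLittleO_log_rpow_atTop hη0).bound (c := 1 / (6 * ((A : ℝ) + 1))) (by positivity)
      filter_upwards [h, eventually_gt_atTop 1] with x h1 h2
      rw [Real.norm_of_nonneg (Real.log_nonneg h2.le), Real.norm_of_nonneg (by positivity)] at h1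
      exact h1
    filter_upwards [h3, h4, eventually_gt_atTop 0] with N h5 h6 h7
    have h8 : N ^ (3 * η) = N ^ η * N ^ η * N ^ η := by
      rw [← Real.rpow_add h7, ← Real.rpow_add h7]
      ring_nf
    rw [h8]
    set u := N ^ η with hu
    have h9 : 2 * ((A : ℝ) + 1) * Real.log N ≤ 1 / 3 * u := by
      have h10 : 2 * ((A : ℝ) + 1) * Real.log N ≤ 2 * (A + 1) * (1 / (6 * (A + 1)) * u) :=
        mul_le_mul_of_nonneg_left h6 (by positivity)
      refine h10.trans (le_of_eq ?_)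
      field_simp
      ring
    nlinarith [mul_nonneg (by linarith : (0:ℝ) ≤ u) (by linarith : (0:ℝ) ≤ u - 7),
      mul_nonneg (mul_nonneg (by linarith : (0:ℝ) ≤ u) (by linarith : (0:ℝ) ≤ u)) (by linarith : (0:ℝ) ≤ u - 7)]
  have ev3 : ∀ᶠ N : ℝ in atTop, 4 ≤ N ^ η := (tendsto_rpow_atTop hη0).eventually_ge_atTop _
  -- large `x`
  have ev4 : ∀ᶠ x : ℝ in atTop, (2 * x) ^ (1 - 2 * c) + 2 * (x ^ (1 - 2 * c) + 1) ≤ x ^ (1 - c) := by
    have h3 : ∀ᶠ x : ℝ in atTop, 6 ≤ x ^ c := (tendsto_rpow_atTop hc0).eventually_ge_atTop _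
    filter_upwards [h3, eventually_ge_atTop 1] with x h4 h5
    have h6 : x ^ (1 - c) = x ^ (1 - 2 * c) * x ^ c := by
      rw [← Real.rpow_add (by linarith)]
      ring_nf
    have h7 : (2 * x) ^ (1 - 2 * c) ≤ 2 * x ^ (1 - 2 * c) := by
      rw [Real.mul_rpow (by norm_num) (by linarith)]
      apply mul_le_mul_of_nonneg_right _ (by positivity)
      calc (2 : ℝ) ^ (1 - 2 * c) ≤ 2 ^ (1 : ℝ) := Real.rpow_le_rpow_of_exponent_le (by norm_num) (by linarith)
        _ = 2 := Real.rpow_one 2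
    have h8 : (1 : ℝ) ≤ x ^ (1 - 2 * c) := Real.one_le_rpow h5 (by linarith)
    rw [h6]
    nlinarith
  obtain ⟨y₄, hy₄⟩ := ev_nat ev4
  obtain ⟨N₂, hN₂⟩ := ev_nat ((ev1.and ev2).and (ev3.and
    ((tendsto_rpow_atTop hη0).eventually_ge_atTop ((y₄ + 8 : ℕ) : ℝ))))
  obtain ⟨N₃, hN₃⟩ := ev_nat (Real.tendsto_log_atTop.eventually_ge_atTop (((y₄ + 3 : ℕ) : ℝ) ^ (1 - β)))
  refine ⟨c, hc0, hc1, max (max N₁ N₂) (max N₃ 2), fun N hN B E hE hEb => ?_⟩
  have hN2 : 2 ≤ N := (le_max_right _ _).trans ((le_max_right _ _).trans hN)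
  have hN0 : (0 : ℝ) < N := by exact_mod_cast (by omega : 0 < N)
  have hN1r : (1 : ℝ) ≤ N := by exact_mod_cast (by omega : 1 ≤ N)
  obtain ⟨⟨k1, k2⟩, k3, k4⟩ := hN₂ N ((le_max_right _ _).trans ((le_max_left _ _).trans hN))
  have k5 := hN₃ N ((le_max_left _ _).trans ((le_max_right _ _).trans hN))
  have hone := hN₁ N ((le_max_left _ _).trans ((le_max_left _ _).trans hN))
  obtain ⟨g, hg⟩ : ∃ g, g = ⌈(N : ℝ) ^ η⌉₊ := ⟨_, rfl⟩
  have hg1 : (N : ℝ) ^ η ≤ g := by rw [hg]; exact Nat.le_ceil _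
  have hg2 : (g : ℝ) ≤ (N : ℝ) ^ η + 1 := by rw [hg]; exact (Nat.ceil_lt_add_one (by positivity)).le
  have hg4 : (4 : ℝ) ≤ g := k3.trans hg1
  have hg0 : 1 ≤ g := by
    have : (1 : ℝ) ≤ g := by linarith
    exact_mod_cast this
  -- the points
  obtain ⟨K, hK⟩ : ∃ K, K = Nat.log 2 (N ^ A) := ⟨_, rfl⟩
  set P1 : Finset ℕ := (range (⌊(N : ℝ) ^ η⌋₊ + 1)).filter (fun x => Real.log N ≤ (x : ℝ) ^ (1 - β) ∧ x ≤ N ^ (A + 1)) with hP1
  set P2 : Finset ℕ := (((range (K + 1)) ×ˢ (range (2 * g + 1))).image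
    (fun a : ℕ × ℕ => a.2 * (2 ^ a.1 / g + 1))).filter (fun x => Real.log N ≤ (x : ℝ) ^ (1 - β) ∧ x ≤ N ^ (A + 1)) with hP2
  have hcov : E ⊆ (P1 ∪ P2).biUnion (fun x => Bd c₀ B N x) := by
    intro m hm
    obtain ⟨x, hx1, hx2, hx3⟩ := hEb m hm
    have hmI := hE hm
    rw [mem_biUnion]
    by_contra hcon
    push Not at hcon
    have hgood : ∀ x ∈ P1 ∪ P2, m ∉ Bd c₁ B N x := by
      intro x hx hmB
      apply hcon x hx
      unfold Bd at hmB ⊢
      rw [mem_filter] at hmB ⊢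
      refine ⟨hmB.1, lt_of_le_of_lt ?_ hmB.2⟩
      have hx' : Real.log N ≤ (x : ℝ) ^ (1 - β) := by
        rw [mem_union, hP1, hP2, mem_filter, mem_filter] at hx
        rcases hx with h | h
        · exact h.2.1
        · exact h.2.1
      have hx1' : (1 : ℝ) ≤ x := by
        by_contra hlt
        push Not at hlt
        have h3 : x = 0 := by
          have : x < 1 := by exact_mod_cast hlt
          omega
        rw [h3, Nat.cast_zero, Real.zero_rpow (by linarith)] at hx'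
        have h4 : (0 : ℝ) < ((y₄ + 3 : ℕ) : ℝ) ^ (1 - β) := by positivity
        linarith
      apply Real.rpow_le_rpow_of_exponent_le hx1'
      have : c₁ ≤ c₀ := by rw [hc₁]; exact min_le_left _ _
      linarith
    have hxA : x ≤ N ^ (A + 1) := hx2.trans (Nat.pow_le_pow_right (by omega) (by omega))
    have hxy : y₄ + 3 ≤ x := by
      by_contra hlt
      push Not at hlt
      have h3 : (x : ℝ) < ((y₄ + 3 : ℕ) : ℝ) := by exact_mod_cast hlt
      have h4 : (x : ℝ) ^ (1 - β) < ((y₄ + 3 : ℕ) : ℝ) ^ (1 - β) :=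
        Real.rpow_lt_rpow (Nat.cast_nonneg _) h3 (by linarith)
      linarith
    have hxr1 : (1 : ℝ) ≤ x := by exact_mod_cast (by omega : 1 ≤ x)
    have hx0 : (0 : ℝ) < x := by linarith
    rcases le_or_gt (x : ℝ) ((N : ℝ) ^ η) with hcase | hcase
    · have hxP : x ∈ P1 ∪ P2 := by
        refine mem_union_left _ ?_
        rw [hP1, mem_filter, mem_range]
        exact ⟨Nat.lt_succ_of_le (Nat.le_floor hcase), hx1, hxA⟩
      apply hgood x hxP
      unfold Bd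
      rw [mem_filter]
      refine ⟨hmI, lt_of_le_of_lt ?_ hx3⟩
      apply Real.rpow_le_rpow_of_exponent_le hxr1
      linarith
    · obtain ⟨i, h, hh, hi, hix, hxi, hhg⟩ := grid x g (by omega) hg0
      have hgr0 : (0 : ℝ) < g := by linarith
      have hhle : (h : ℝ) ≤ x / g + 1 := by
        have h3 : (h : ℝ) * g ≤ x + g := by exact_mod_cast hhg
        rw [← sub_le_iff_le_add, le_div_iff₀ hgr0]
        linarith
      have hx8 : (8 : ℝ) ≤ x := by
        have h3 : ((y₄ + 8 : ℕ) : ℝ) ≤ x := k4.trans hcase.le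
        push_cast at h3
        have h4 : (0 : ℝ) ≤ y₄ := Nat.cast_nonneg _
        linarith
      have hxg : (x : ℝ) / g ≤ x / 4 := div_le_div_of_nonneg_left hx0.le (by norm_num) hg4
      have hh2 : (h : ℝ) ≤ x / 2 := by linarith
      have hixr : ((i * h : ℕ) : ℝ) ≤ x := by exact_mod_cast hix
      have hxir : (x : ℝ) ≤ (((i + 1) * h : ℕ) : ℝ) := by exact_mod_cast hxi
      have hiz : (((i + 1) * h : ℕ) : ℝ) = ((i * h : ℕ) : ℝ) + h := by push_cast; ring
      have hlow : (N : ℝ) ^ η / 4 ≤ ((i * h : ℕ) : ℝ) := by linarith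
      have hkk : Nat.log 2 x < K + 1 := by
        rw [hK]
        exact Nat.lt_succ_of_le (Nat.log_mono_right hx2)
      have hup : (i + 1) * h ≤ N ^ (A + 1) := by
        have h3 : (((i + 1) * h : ℕ) : ℝ) ≤ 2 * x := by linarith
        have h4 : (i + 1) * h ≤ 2 * x := by exact_mod_cast h3
        calc (i + 1) * h ≤ 2 * x := h4
          _ ≤ N * N ^ A := Nat.mul_le_mul hN2 hx2
          _ = N ^ (A + 1) := by rw [pow_succ, mul_comm]
      have hmem1 : i * h ∈ P1 ∪ P2 := by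
        refine mem_union_right _ ?_
        rw [hP2, mem_filter, mem_image]
        refine ⟨⟨(Nat.log 2 x, i), ?_, ?_⟩, ?_, ?_⟩
        · rw [mem_product, mem_range, mem_range]
          exact ⟨hkk, by show i < 2 * g + 1; omega⟩
        · show i * (2 ^ Nat.log 2 x / g + 1) = i * h
          rw [hh]
        · exact k1.trans (Real.rpow_le_rpow (by positivity) hlow (by linarith))
        · exact le_trans (by nlinarith) hup
      have hmem2 : (i + 1) * h ∈ P1 ∪ P2 := by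
        refine mem_union_right _ ?_
        rw [hP2, mem_filter, mem_image]
        refine ⟨⟨(Nat.log 2 x, i + 1), ?_, ?_⟩, ?_, hup⟩
        · rw [mem_product, mem_range, mem_range]
          exact ⟨hkk, by show i + 1 < 2 * g + 1; omega⟩
        · show (i + 1) * (2 ^ Nat.log 2 x / g + 1) = (i + 1) * h
          rw [hh]
        · exact k1.trans (Real.rpow_le_rpow (by positivity) (by linarith) (by linarith))
      have hb := between B c₁ N m (i * h) x ((i + 1) * h) h hix hxi (by rw [add_mul, one_mul]) hmI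
        (hgood _ hmem1) (hgood _ hmem2) hc₁1
      have hz : ((((i + 1) * h : ℕ)) : ℝ) ^ (1 - c₁) ≤ (2 * (x : ℝ)) ^ (1 - 2 * c) := by
        have h3 : (((i + 1) * h : ℕ) : ℝ) ≤ 2 * x := by linarith
        calc ((((i + 1) * h : ℕ)) : ℝ) ^ (1 - c₁) ≤ (2 * (x : ℝ)) ^ (1 - c₁) :=
              Real.rpow_le_rpow (Nat.cast_nonneg _) h3 (by linarith)
          _ ≤ (2 * (x : ℝ)) ^ (1 - 2 * c) := Real.rpow_le_rpow_of_exponent_le (by linarith) (by linarith)
      have hh3 : (h : ℝ) ≤ (x : ℝ) ^ (1 - 2 * c) + 1 := by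
        have h3 : (x : ℝ) / g ≤ (x : ℝ) ^ (1 - 2 * c) := by
          have h4 : (x : ℝ) ^ (2 * c) ≤ g := by
            refine le_trans ?_ hg1
            have h5 : (x : ℝ) ≤ (N : ℝ) ^ ((A : ℝ) + 1) := by
              have : (x : ℝ) ≤ (N : ℝ) ^ (A + 1) := by exact_mod_cast hxA
              refine this.trans (le_of_eq ?_)
              rw [← Real.rpow_natCast]
              push_cast
              rfl
            calc (x : ℝ) ^ (2 * c) ≤ ((N : ℝ) ^ ((A : ℝ) + 1)) ^ (2 * c) :=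
                  Real.rpow_le_rpow hx0.le h5 (by linarith)
              _ = (N : ℝ) ^ (((A : ℝ) + 1) * (2 * c)) := (Real.rpow_mul hN0.le _ _).symm
              _ ≤ (N : ℝ) ^ η := by
                  apply Real.rpow_le_rpow_of_exponent_le hN1r
                  rw [le_div_iff₀ hA0] at hcη
                  linarith
          rw [div_le_iff₀ hgr0]
          calc (x : ℝ) = (x : ℝ) ^ (1 - 2 * c) * (x : ℝ) ^ (2 * c) := by
                rw [← Real.rpow_add hx0]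
                simp
            _ ≤ (x : ℝ) ^ (1 - 2 * c) * g := mul_le_mul_of_nonneg_left h4 (by positivity)
        linarith
      have hfin := hy₄ x (by omega)
      linarith
  -- the number
  have hcard1 : ((P1 ∪ P2).card : ℝ) ≤ (N : ℝ) ^ (3 * η) := by
    have c1 : (P1.card : ℝ) ≤ (N : ℝ) ^ η + 1 := by
      have : P1.card ≤ ⌊(N : ℝ) ^ η⌋₊ + 1 := by
        rw [hP1]
        refine (card_filter_le _ _).trans ?_
        rw [card_range]
      have h3 : (P1.card : ℝ) ≤ (⌊(N : ℝ) ^ η⌋₊ : ℝ) + 1 := by exact_mod_cast this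
      have h4 := Nat.floor_le (show 0 ≤ (N : ℝ) ^ η by positivity)
      linarith
    have c2 : (P2.card : ℝ) ≤ (2 * (A + 1) * Real.log N + 1) * (2 * ((N : ℝ) ^ η + 1) + 1) := by
      have h3 : P2.card ≤ (K + 1) * (2 * g + 1) := by
        rw [hP2]
        refine (card_filter_le _ _).trans (card_image_le.trans ?_)
        rw [card_product, card_range, card_range]
      have h4 : (P2.card : ℝ) ≤ ((K : ℝ) + 1) * (2 * g + 1) := by exact_mod_cast h3
      refine h4.trans ?_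
      have h5 : (K : ℝ) ≤ 2 * (A + 1) * Real.log N := by
        have h6 : 2 ^ K ≤ N ^ A := by
          rw [hK]
          exact Nat.pow_log_le_self 2 (by positivity)
        have h7 : Real.log ((2 : ℝ) ^ K) ≤ Real.log ((N : ℝ) ^ A) := by
          apply Real.log_le_log (by positivity)
          exact_mod_cast h6
        rw [Real.log_pow, Real.log_pow] at h7
        have h8 : (1 / 2 : ℝ) < Real.log 2 := by
          have := Real.log_two_gt_d9
          linarith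
        have h9 : (0 : ℝ) ≤ K := Nat.cast_nonneg _
        have h10 : 0 ≤ Real.log N := Real.log_nonneg hN1r
        nlinarith
      apply mul_le_mul (by linarith) (by linarith) (by positivity)
      have h10 : 0 ≤ Real.log N := Real.log_nonneg hN1r
      positivity
    have c3 : ((P1 ∪ P2).card : ℝ) ≤ P1.card + P2.card := by exact_mod_cast card_union_le P1 P2
    linarith
  have hBd : ∀ x ∈ P1 ∪ P2, ((Bd c₀ B N x).card : ℝ) ≤ (N : ℝ) ^ (θ - τ) := by
    intro x hx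
    rw [mem_union, hP1, hP2, mem_filter, mem_filter] at hx
    rcases hx with h | h
    · exact hone x h.2.1 h.2.2 B
    · exact hone x h.2.1 h.2.2 B
  calc (E.card : ℝ) ≤ (((P1 ∪ P2).biUnion (fun x => Bd c₀ B N x)).card : ℝ) := by exact_mod_cast card_le_card hcov
    _ ≤ ∑ x ∈ P1 ∪ P2, ((Bd c₀ B N x).card : ℝ) := by exact_mod_cast card_biUnion_le
    _ ≤ ∑ _x ∈ P1 ∪ P2, (N : ℝ) ^ (θ - τ) := sum_le_sum hBd
    _ = ((P1 ∪ P2).card : ℝ) * (N : ℝ) ^ (θ - τ) := by rw [sum_const, nsmul_eq_mul]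
    _ ≤ (N : ℝ) ^ (3 * η) * (N : ℝ) ^ (θ - τ) := mul_le_mul_of_nonneg_right hcard1 (by positivity)
    _ = (N : ℝ) ^ (3 * η + (θ - τ)) := (Real.rpow_add hN0 _ _).symm
    _ ≤ (N : ℝ) ^ θ := by
        apply Real.rpow_le_rpow_of_exponent_le hN1r
        rw [hη]
        linarith

end Pool.Agent.X55.Art
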