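import Pool.Agent.X55.Art.Sys2
import Pool.Agent.H435R3.Weil.Main
import Pool.Agent.TH890.AS.R5

set_option autoImplicit false

/-! # Polynomial values: local means -/

namespace Pool.Agent.X55.Art

open Finset Filter Polynomial
open Pool.Agent.TH890.AS (locDens dens_art dens_nonneg dens_eq order_zero Rep rep_art two_pow_le)

theorem char_sum (p : ℕ) [hp : Fact p.Prime] (hp3 : 3 ≤ p) (H : (ZMod p)[X]) (v : ZMod p)
    (hv : H.rootMultiplicity v = 1) (χ : DirichletCharacter ℂ p) (hχ : χ ≠ 1) :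
    ‖∑ x : ZMod p, χ (H.eval x)‖ ≤ H.natDegree * Real.sqrt p := by
  classical
  have hH0 : H ≠ 0 := by
    rintro rfl
    simp at hv
  have hl0 : H.leadingCoeff ≠ 0 := leadingCoeff_ne_zero.2 hH0
  obtain ⟨P, hP⟩ : ∃ P, P = H * C (H.leadingCoeff)⁻¹ := ⟨_, rfl⟩
  have hPm : P.Monic := by rw [hP]; exact monic_mul_leadingCoeff_inv hH0
  have hPd : P.natDegree = H.natDegree := by
    rw [hP]
    exact natDegree_mul_C (inv_ne_zero hl0)
  have hPr : P.rootMultiplicity v = 1 := by
    rw [hP, rootMultiplicity_mul (by rw [← hP]; exact hPm.ne_zero), hv, rootMultiplicity_C]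
  have hev : ∀ x, H.eval x = H.leadingCoeff * P.eval x := by
    intro x
    rw [hP, eval_mul, eval_C]
    field_simp
  have hw := Pool.Agent.H435R3.Weil.weil (F := ZMod p) (p - 1) (by omega) (by rw [ZMod.card]) χ hχ
    (by
      have h := MulChar.pow_card_eq_one χ
      rwa [ZMod.card_units] at h) P 1 hPm monic_one ⟨v, by
      rw [one_pow, mul_one, hPr]
      exact Nat.coprime_one_left _⟩
  rw [natDegree_one, add_zero, hPd, ZMod.card] at hw
  have h1 : ∑ x : ZMod p, χ (H.eval x) = χ (H.leadingCoeff) *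
      ∑ x : ZMod p, χ (P.eval x) * (starRingEnd ℂ) (χ ((1 : (ZMod p)[X]).eval x)) := by
    rw [mul_sum]
    refine sum_congr rfl fun x _ => ?_
    rw [hev x, map_mul, eval_one, map_one, map_one, mul_one]
  rw [h1, norm_mul]
  have h2 : ‖χ (H.leadingCoeff)‖ ≤ 1 := DirichletCharacter.norm_le_one χ _
  calc ‖χ (H.leadingCoeff)‖ * ‖∑ x : ZMod p, χ (P.eval x) * (starRingEnd ℂ) (χ ((1 : (ZMod p)[X]).eval x))‖
      ≤ 1 * (H.natDegree * Real.sqrt p) := mul_le_mul h2 hw (norm_nonneg _) zero_le_one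
    _ = _ := one_mul _

open Classical in
theorem loc_poly (p : ℕ) [hp : Fact p.Prime] (hp3 : 3 ≤ p) (H : (ZMod p)[X]) (v : ZMod p)
    (hv : H.rootMultiplicity v = 1) (B : ℤ) :
    |(1 / (p : ℝ)) * (#((univ : Finset (ZMod p)).filter
      (fun x : ZMod p => orderOf ((B : ZMod p) * (H.eval x) ^ 2) = p - 1)) : ℝ) - locDens B 2 p| ≤
      (∏ l ∈ (p - 1).primeFactors, ((1 : ℝ) + 1)) * H.natDegree / Real.sqrt p := by
  have hH0 : H ≠ 0 := by
    rintro rfl
    simp at hv
  have hp0 : (0 : ℝ) < p := by exact_mod_cast hp.out.pos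
  have hs0 : 0 < Real.sqrt p := Real.sqrt_pos.2 hp0
  have hs1 : 1 ≤ Real.sqrt p := by
    rw [Real.one_le_sqrt]
    exact_mod_cast hp.out.one_lt.le
  have hp1 : (0 : ℝ) < ((p - 1 : ℕ) : ℝ) := by exact_mod_cast (by omega : 0 < p - 1)
  obtain ⟨c, hc, hf⟩ := rep_art (p := p) (B : ZMod p) (two_ne_zero)
  set K : ℝ := ∏ l ∈ (p - 1).primeFactors, ((1 : ℝ) + 1) with hK
  -- the coefficient of the principal character
  have hone : ∑ x : ZMod p, (1 : DirichletCharacter ℂ p) x = ((p - 1 : ℕ) : ℂ) := by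
    rw [MulChar.sum_one_eq_card_units, ZMod.card_units]
  have hsumf : ∑ x : ZMod p, (if orderOf ((B : ZMod p) * x ^ 2) = p - 1 then (1 : ℂ) else 0) =
      c 1 * ((p - 1 : ℕ) : ℂ) := by
    rw [sum_congr rfl fun x _ => hf x, sum_comm]
    rw [← add_sum_erase univ _ (mem_univ (1 : DirichletCharacter ℂ p)), ← mul_sum, hone]
    have h2 : ∑ χ ∈ univ.erase (1 : DirichletCharacter ℂ p), ∑ x : ZMod p, c χ * χ x = 0 := by
      apply sum_eq_zero
      intro χ hχ
      rw [← mul_sum, MulChar.sum_eq_zero_of_ne_one (ne_of_mem_erase hχ), mul_zero]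
    rw [h2, add_zero]
  have hc1 : c 1 = ((locDens B 2 p : ℝ) : ℂ) := by
    rw [← dens_art B two_ne_zero, dens_eq]
    have h2 : ∑ x : ZMod p, (if orderOf ((B : ZMod p) * x ^ 2) = p - 1 then (1 : ℂ) else 0) =
        ((#((univ : Finset (ZMod p)).filter (fun x => orderOf ((B : ZMod p) * x ^ 2) = p - 1)) : ℝ) : ℂ) := by
      rw [card_filter]
      push_cast
      refine sum_congr rfl fun x _ => ?_
      split_ifs <;> simp
    rw [h2] at hsumf
    have h3 : ((p - 1 : ℕ) : ℂ) ≠ 0 := by exact_mod_cast hp1.ne'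
    rw [Complex.ofReal_div, hsumf]
    push_cast
    field_simp
  -- the zeros
  have hzero : ‖∑ x : ZMod p, (1 : DirichletCharacter ℂ p) (H.eval x) - (p : ℂ)‖ ≤ H.natDegree := by
    have h2 : ∑ x : ZMod p, (1 : DirichletCharacter ℂ p) (H.eval x) - (p : ℂ) =
        -∑ x : ZMod p, (if H.eval x = 0 then (1 : ℂ) else 0) := by
      have h3 : (p : ℂ) = ∑ _x : ZMod p, (1 : ℂ) := by simp
      rw [h3, ← sum_sub_distrib, ← sum_neg_distrib]
      refine sum_congr rfl fun x _ => ?_
      split_ifs with h4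
      · rw [h4, MulChar.map_zero]
        ring
      · rw [MulChar.one_apply (isUnit_iff_ne_zero.2 h4)]
        ring
    rw [h2, norm_neg, sum_boole, Complex.norm_natCast]
    have h4 : (univ : Finset (ZMod p)).filter (fun x => H.eval x = 0) ⊆ H.roots.toFinset := by
      intro x hx
      rw [mem_filter] at hx
      rw [Multiset.mem_toFinset, mem_roots hH0]
      exact hx.2
    have h5 := (card_le_card h4).trans ((Multiset.toFinset_card_le _).trans (card_roots' H))
    exact_mod_cast h5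
  -- the sum
  have hmain : ‖∑ x : ZMod p, (if orderOf ((B : ZMod p) * (H.eval x) ^ 2) = p - 1 then (1 : ℂ) else 0) -
      (p : ℂ) * c 1‖ ≤ K * (H.natDegree * Real.sqrt p) := by
    have h2 : ∑ x : ZMod p, (if orderOf ((B : ZMod p) * (H.eval x) ^ 2) = p - 1 then (1 : ℂ) else 0) - (p : ℂ) * c 1 =
        c 1 * (∑ x : ZMod p, (1 : DirichletCharacter ℂ p) (H.eval x) - (p : ℂ)) +
        ∑ χ ∈ univ.erase (1 : DirichletCharacter ℂ p), c χ * ∑ x : ZMod p, χ (H.eval x) := by
      rw [sum_congr rfl fun x _ => hf (H.eval x), sum_comm,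
        ← add_sum_erase univ _ (mem_univ (1 : DirichletCharacter ℂ p)), ← mul_sum]
      have h3 : ∑ χ ∈ univ.erase (1 : DirichletCharacter ℂ p), ∑ x : ZMod p, c χ * χ (H.eval x) =
          ∑ χ ∈ univ.erase (1 : DirichletCharacter ℂ p), c χ * ∑ x : ZMod p, χ (H.eval x) :=
        sum_congr rfl fun χ _ => (mul_sum _ _ _).symm
      rw [h3]
      ring
    rw [h2]
    have hd0 : (0 : ℝ) ≤ H.natDegree := Nat.cast_nonneg _
    have h3 : ‖c 1 * (∑ x : ZMod p, (1 : DirichletCharacter ℂ p) (H.eval x) - (p : ℂ))‖ ≤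
        ‖c 1‖ * (H.natDegree * Real.sqrt p) := by
      rw [norm_mul]
      apply mul_le_mul_of_nonneg_left _ (norm_nonneg _)
      refine hzero.trans ?_
      nlinarith
    have h4 : ‖∑ χ ∈ univ.erase (1 : DirichletCharacter ℂ p), c χ * ∑ x : ZMod p, χ (H.eval x)‖ ≤
        (∑ χ ∈ univ.erase (1 : DirichletCharacter ℂ p), ‖c χ‖) * (H.natDegree * Real.sqrt p) := by
      rw [sum_mul]
      refine (norm_sum_le _ _).trans (sum_le_sum fun χ hχ => ?_)
      rw [norm_mul]
      exact mul_le_mul_of_nonneg_left (char_sum p hp3 H v hv χ (ne_of_mem_erase hχ)) (norm_nonneg _)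
    have h5 : ‖c 1‖ + ∑ χ ∈ univ.erase (1 : DirichletCharacter ℂ p), ‖c χ‖ = ∑ χ, ‖c χ‖ :=
      add_sum_erase univ (fun χ => ‖c χ‖) (mem_univ (1 : DirichletCharacter ℂ p))
    refine (norm_add_le _ _).trans ((add_le_add h3 h4).trans ?_)
    rw [← add_mul, h5]
    exact mul_le_mul_of_nonneg_right hc (by positivity)
  have hcount : ∑ x : ZMod p, (if orderOf ((B : ZMod p) * (H.eval x) ^ 2) = p - 1 then (1 : ℂ) else 0) =
      ((#((univ : Finset (ZMod p)).filter (fun x => orderOf ((B : ZMod p) * (H.eval x) ^ 2) = p - 1)) : ℝ) : ℂ) := by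
    rw [card_filter]
    push_cast
    refine sum_congr rfl fun x _ => ?_
    split_ifs <;> simp
  rw [hcount, hc1] at hmain
  have h6 : (((#((univ : Finset (ZMod p)).filter (fun x => orderOf ((B : ZMod p) * (H.eval x) ^ 2) = p - 1)) : ℝ) : ℂ) -
      (p : ℂ) * ((locDens B 2 p : ℝ) : ℂ)) =
      (((#((univ : Finset (ZMod p)).filter (fun x => orderOf ((B : ZMod p) * (H.eval x) ^ 2) = p - 1)) : ℝ) -
        p * locDens B 2 p : ℝ) : ℂ) := by
    push_cast
    ring
  rw [h6, Complex.norm_real, Real.norm_eq_abs] at hmain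
  have h7 : (1 / (p : ℝ)) * (#((univ : Finset (ZMod p)).filter
      (fun x : ZMod p => orderOf ((B : ZMod p) * (H.eval x) ^ 2) = p - 1)) : ℝ) - locDens B 2 p =
      (1 / (p : ℝ)) * ((#((univ : Finset (ZMod p)).filter
      (fun x : ZMod p => orderOf ((B : ZMod p) * (H.eval x) ^ 2) = p - 1)) : ℝ) - p * locDens B 2 p) := by
    field_simp
  rw [h7, abs_mul, abs_of_pos (by positivity : (0 : ℝ) < 1 / p), one_div_mul_eq_div, div_le_div_iff₀ hp0 hs0]
  have h8 : Real.sqrt p * Real.sqrt p = p := Real.mul_self_sqrt hp0.le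
  calc |((#((univ : Finset (ZMod p)).filter
      (fun x : ZMod p => orderOf ((B : ZMod p) * (H.eval x) ^ 2) = p - 1)) : ℝ) - p * locDens B 2 p)| * Real.sqrt p
      ≤ K * (H.natDegree * Real.sqrt p) * Real.sqrt p := mul_le_mul_of_nonneg_right hmain hs0.le
    _ = K * H.natDegree * (Real.sqrt p * Real.sqrt p) := by ring
    _ = _ := by rw [h8]

/-- a simple rational root gives a simple root modulo all large primes -/
theorem simple_root (G : ℤ[X]) (r : ℚ) (h0 : aeval r G = 0) (h1 : aeval r (derivative G) ≠ 0) :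
    ∃ p₀ : ℕ, ∀ p : ℕ, p₀ ≤ p → p.Prime → ∃ v : ZMod p,
      (G.map (Int.castRingHom (ZMod p))).rootMultiplicity v = 1 := by
  obtain ⟨b, hb⟩ : ∃ b : ℤ, b = (r.den : ℤ) := ⟨_, rfl⟩
  have hb0 : b ≠ 0 := by rw [hb]; exact_mod_cast r.den_ne_zero
  have hbr : (b : ℚ) * r = (r.num : ℚ) := by
    rw [hb]
    push_cast
    rw [mul_comm]
    exact Rat.mul_den_eq_num r
  -- evaluation
  have key : ∀ (R : Type) [Field R] (s : R), (b : R) * s = (r.num : R) → ∀ H : ℤ[X],
      (((scaleRoots H b).eval r.num : ℤ) : R) = (b : R) ^ H.natDegree * eval₂ (Int.castRingHom R) s H := by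
    intro R _ s hs H
    have h := scaleRoots_eval₂_mul (p := H) (Int.castRingHom R) s b
    rw [eq_intCast, hs] at h
    rw [← h]
    have h2 := eval₂_at_apply (p := scaleRoots H b) (Int.castRingHom R) r.num
    rw [eq_intCast, eq_intCast] at h2
    exact h2.symm
  have e0 : (scaleRoots G b).eval r.num = 0 := by
    have h := key ℚ r hbr G
    have h2 : eval₂ (Int.castRingHom ℚ) r G = 0 := h0
    rw [h2, mul_zero] at h
    exact_mod_cast h
  have e1 : (scaleRoots (derivative G) b).eval r.num ≠ 0 := by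
    intro h3
    have h := key ℚ r hbr (derivative G)
    rw [h3] at h
    have h4 : eval₂ (Int.castRingHom ℚ) r (derivative G) ≠ 0 := h1
    have h5 : (b : ℚ) ^ (derivative G).natDegree ≠ 0 := pow_ne_zero _ (by exact_mod_cast hb0)
    have h6 := mul_ne_zero h5 h4
    rw [← h] at h6
    simp at h6
  obtain ⟨e, he⟩ : ∃ e, e = (scaleRoots (derivative G) b).eval r.num := ⟨_, rfl⟩
  rw [← he] at e1
  refine ⟨b.natAbs + e.natAbs + 1, fun p hp hpp => ?_⟩
  have : Fact p.Prime := ⟨hpp⟩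
  have hbp : (b : ZMod p) ≠ 0 := by
    intro h
    rw [ZMod.intCast_zmod_eq_zero_iff_dvd] at h
    have h2 := Nat.le_of_dvd (by omega : 0 < b.natAbs) (Int.natCast_dvd.1 h)
    omega
  have hep : (e : ZMod p) ≠ 0 := by
    intro h
    rw [ZMod.intCast_zmod_eq_zero_iff_dvd] at h
    have h2 := Nat.le_of_dvd (by omega : 0 < e.natAbs) (Int.natCast_dvd.1 h)
    omega
  obtain ⟨v, hv⟩ : ∃ v : ZMod p, v = (b : ZMod p)⁻¹ * (r.num : ZMod p) := ⟨_, rfl⟩
  have hbv : (b : ZMod p) * v = (r.num : ZMod p) := by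
    rw [hv, ← mul_assoc, mul_inv_cancel₀ hbp, one_mul]
  have k0 : eval₂ (Int.castRingHom (ZMod p)) v G = 0 := by
    have h := key (ZMod p) v hbv G
    rw [e0] at h
    simp only [Int.cast_zero] at h
    rcases mul_eq_zero.1 h.symm with h2 | h2
    · exact absurd h2 (pow_ne_zero _ hbp)
    · exact h2
  have k1 : eval₂ (Int.castRingHom (ZMod p)) v (derivative G) ≠ 0 := by
    intro h3
    have h := key (ZMod p) v hbv (derivative G)
    rw [h3, mul_zero, ← he] at h
    exact hep h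
  refine ⟨v, ?_⟩
  set H := G.map (Int.castRingHom (ZMod p)) with hH
  have r0 : H.IsRoot v := by
    rw [IsRoot.def, hH, eval_map]
    exact k0
  have r1 : ¬ (derivative H).IsRoot v := by
    rw [IsRoot.def, hH, derivative_map, eval_map]
    exact k1
  have hH0 : H ≠ 0 := by
    intro h
    apply r1
    rw [h]
    simp
  have h2 : 0 < H.rootMultiplicity v := (rootMultiplicity_pos hH0).2 r0
  have h3 : ¬ 1 < H.rootMultiplicity v := by
    rw [one_lt_rootMultiplicity_iff_isRoot hH0]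
    exact fun h => r1 h.2
  omega

end Pool.Agent.X55.Art
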