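import Pool.Agent.X55.Art.Poly1

set_option autoImplicit false

/-! # Polynomial values: the counting function -/

namespace Pool.Agent.X55.Art

open Finset Filter Polynomial
open Pool.Agent.H730R2.AA
open Pool.Agent.TH890.AS (locDens order_zero two_pow_le)

/-- the base `B G(m)²` -/
noncomputable def bs (B : ℤ) (G : ℤ[X]) (m : ℕ) : ℤ := B * (G.eval (m : ℤ)) ^ 2

/-- its indicator -/
noncomputable def gG (B : ℤ) (G : ℤ[X]) (p m : ℕ) : ℝ := by
  classical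
  exact if orderOf ((bs B G m : ℤ) : ZMod p) = p - 1 then 1 else 0

theorem bs_cast (B : ℤ) (G : ℤ[X]) (p m : ℕ) :
    ((bs B G m : ℤ) : ZMod p) = (B : ZMod p) * ((G.map (Int.castRingHom (ZMod p))).eval (m : ZMod p)) ^ 2 := by
  unfold bs
  have h := eval₂_at_apply (p := G) (Int.castRingHom (ZMod p)) (m : ℤ)
  rw [eq_intCast, eq_intCast] at h
  rw [eval_map]
  push_cast at h ⊢
  rw [h]

theorem gG_per (B : ℤ) (G : ℤ[X]) (p m : ℕ) : gG B G p m = gG B G p (m % p) := by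
  unfold gG
  rw [bs_cast, bs_cast, ZMod.natCast_mod]

theorem gG_nonneg (B : ℤ) (G : ℤ[X]) (p m : ℕ) : 0 ≤ gG B G p m := by
  unfold gG
  split_ifs <;> norm_num

theorem gG_le (B : ℤ) (G : ℤ[X]) (p m : ℕ) : gG B G p m ≤ 1 := by
  unfold gG
  split_ifs <;> norm_num

/-- the mean -/
noncomputable def fG (B : ℤ) (G : ℤ[X]) (p : ℕ) : ℝ := 1 / (p : ℝ) * ∑ m ∈ range p, gG B G p m

theorem fG_bd (B : ℤ) (G : ℤ[X]) (p : ℕ) (hp : 1 ≤ p) : 0 ≤ fG B G p ∧ fG B G p ≤ 1 := by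
  have hp0 : (0 : ℝ) < p := by exact_mod_cast hp
  unfold fG
  constructor
  · exact mul_nonneg (by positivity) (sum_nonneg fun n _ => gG_nonneg B G p n)
  · rw [one_div_mul_eq_div, div_le_one hp0]
    refine (sum_le_sum fun n _ => gG_le B G p n).trans ?_
    simp

open Classical in
theorem fG_eq (B : ℤ) (G : ℤ[X]) (p : ℕ) [hp : Fact p.Prime] :
    fG B G p = (1 / (p : ℝ)) * (#((univ : Finset (ZMod p)).filter
      (fun x : ZMod p => orderOf ((B : ZMod p) * ((G.map (Int.castRingHom (ZMod p))).eval x) ^ 2) = p - 1)) : ℝ) := by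
  unfold fG
  congr 1
  rw [card_filter]
  push_cast
  symm
  refine sum_bij (fun (x : ZMod p) _ => x.val) ?_ ?_ ?_ ?_
  · intro x _
    rw [mem_range]
    exact ZMod.val_lt x
  · intro x _ y _ h
    exact ZMod.val_injective p h
  · intro a ha
    rw [mem_range] at ha
    exact ⟨(a : ZMod p), mem_univ _, ZMod.val_cast_of_lt ha⟩
  · intro x _
    unfold gG
    rw [bs_cast, ZMod.natCast_val, ZMod.cast_id', id]

/-- the count and the sum -/
theorem cnt_eq_sumG (B : ℤ) (G : ℤ[X]) (m x : ℕ) :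
    |(cnt (bs B G m) x : ℝ) - ∑ p ∈ PR B x, gG B G p m| ≤ 1 := by
  classical
  have h1 : ∑ p ∈ PR B x, gG B G p m =
      (((PR B x).filter (fun p => orderOf ((bs B G m : ℤ) : ZMod p) = p - 1)).card : ℝ) := by
    rw [card_filter]
    push_cast
    refine sum_congr rfl fun p _ => ?_
    unfold gG
    split_ifs <;> simp
  rw [h1]
  unfold cnt
  set S := (range (x + 1)).filter (fun p : ℕ => p.Prime ∧ orderOf ((bs B G m : ℤ) : ZMod p) = p - 1) with hS
  set T := (PR B x).filter (fun p => orderOf ((bs B G m : ℤ) : ZMod p) = p - 1) with hT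
  have hTS : T ⊆ S := by
    intro p hp
    rw [hT, mem_filter, PR, mem_filter] at hp
    rw [hS, mem_filter]
    exact ⟨hp.1.1, hp.1.2.1, hp.2⟩
  have hST : S ⊆ insert 2 T := by
    intro p hp
    rw [hS, mem_filter] at hp
    obtain ⟨h2, h3, h4⟩ := hp
    rw [mem_insert]
    by_cases hp2 : p = 2
    · exact Or.inl hp2
    right
    have : Fact p.Prime := ⟨h3⟩
    rw [hT, mem_filter, PR, mem_filter]
    refine ⟨⟨h2, h3, hp2, fun hd => ?_⟩, h4⟩
    have h5 : ((bs B G m : ℤ) : ZMod p) = 0 := by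
      rw [ZMod.intCast_zmod_eq_zero_iff_dvd]
      exact Dvd.dvd.mul_right hd _
    rw [h5] at h4
    exact order_zero h4
  have h5 := card_le_card hTS
  have h6 := (card_le_card hST).trans (card_insert_le _ _)
  have h7 : (T.card : ℝ) ≤ S.card := by exact_mod_cast h5
  have h8 : (S.card : ℝ) ≤ T.card + 1 := by exact_mod_cast h6
  rw [abs_le]
  constructor <;> linarith

/-- the sum of the means and the main term -/
theorem mean_mainG (G : ℤ[X]) (r : ℚ) (h0 : aeval r G = 0) (h1 : aeval r (derivative G) ≠ 0) :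
    ∃ C : ℝ, 0 < C ∧ ∀ (B : ℤ) (x : ℕ), 1 ≤ x →
      |∑ p ∈ PR B x, fG B G p - mainT B x| ≤ C * (x : ℝ) ^ (7 / 8 : ℝ) := by
  classical
  obtain ⟨p₀, hp₀⟩ := simple_root G r h0 h1
  obtain ⟨C₄, hC₄, hdiv⟩ := Pool.Agent.H510R2.divisor_bound (1 / 4) (by norm_num)
  obtain ⟨p₁, hp₁⟩ : ∃ p₁, p₁ = max p₀ 3 := ⟨_, rfl⟩
  obtain ⟨c, hc⟩ : ∃ c : ℝ, c = C₄ * G.natDegree := ⟨_, rfl⟩
  have hc0 : 0 ≤ c := by rw [hc]; positivity
  have hone : ∀ (B : ℤ) (p : ℕ), p.Prime → p ≠ 2 → ¬ (p : ℤ) ∣ B → p₁ ≤ p →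
      |fG B G p - rho p * (1 - (jacobiSym B p : ℝ))| ≤ c * (p : ℝ) ^ (-(1 / 4) : ℝ) := by
    intro B p hp hp2 hB hpp
    have : Fact p.Prime := ⟨hp⟩
    have hp3 : 3 ≤ p := (le_max_right p₀ 3).trans (by rw [← hp₁]; exact hpp)
    obtain ⟨v, hv⟩ := hp₀ p ((le_max_left p₀ 3).trans (by rw [← hp₁]; exact hpp)) hp
    have hp0 : (0 : ℝ) < p := by exact_mod_cast hp.pos
    have h2 := loc_poly p hp3 (G.map (Int.castRingHom (ZMod p))) v hv B
    have h2' : |fG B G p - (1 - (jacobiSym B p : ℝ)) * rho p| ≤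
        (∏ l ∈ (p - 1).primeFactors, ((1 : ℝ) + 1)) * (G.map (Int.castRingHom (ZMod p))).natDegree / Real.sqrt p := by
      rw [fG_eq B G p, ← loc2 B p hp hp2 hB]
      exact h2
    rw [mul_comm (rho p)]
    have h3 : (∏ l ∈ (p - 1).primeFactors, ((1 : ℝ) + 1)) * (G.map (Int.castRingHom (ZMod p))).natDegree / Real.sqrt p ≤
        c * (p : ℝ) ^ (-(1 / 4) : ℝ) := by
      have h4 : (∏ l ∈ (p - 1).primeFactors, ((1 : ℝ) + 1)) ≤ C₄ * (p : ℝ) ^ (1 / 4 : ℝ) := by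
        refine (two_pow_le (by omega)).trans ((hdiv (p - 1) (by omega)).trans ?_)
        apply mul_le_mul_of_nonneg_left _ hC₄.le
        apply Real.rpow_le_rpow (Nat.cast_nonneg _) _ (by norm_num)
        exact_mod_cast Nat.sub_le p 1
      have h5 : ((G.map (Int.castRingHom (ZMod p))).natDegree : ℝ) ≤ G.natDegree := by
        exact_mod_cast natDegree_map_le
      have hs0 : 0 < Real.sqrt p := Real.sqrt_pos.2 hp0
      calc (∏ l ∈ (p - 1).primeFactors, ((1 : ℝ) + 1)) * (G.map (Int.castRingHom (ZMod p))).natDegree / Real.sqrt p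
          ≤ (C₄ * (p : ℝ) ^ (1 / 4 : ℝ)) * G.natDegree / Real.sqrt p := by
            apply div_le_div_of_nonneg_right _ hs0.le
            exact mul_le_mul h4 h5 (Nat.cast_nonneg _) (by positivity)
        _ = c * (p : ℝ) ^ (-(1 / 4) : ℝ) := by
            rw [hc, Real.sqrt_eq_rpow, show (-(1 / 4) : ℝ) = 1 / 4 - 1 / 2 by norm_num, Real.rpow_sub hp0]
            ring
    exact h2'.trans h3
  refine ⟨2 * p₁ + 2 * c + 1, by positivity, fun B x hx => ?_⟩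
  have hx1 : (1 : ℝ) ≤ x := by exact_mod_cast hx
  have hx0 : (0 : ℝ) < x := by linarith
  have hX : (1 : ℝ) ≤ (x : ℝ) ^ (7 / 8 : ℝ) := Real.one_le_rpow hx1 (by norm_num)
  unfold mainT
  rw [← sum_sub_distrib]
  refine (abs_sum_le_sum_abs _ _).trans ?_
  have hterm : ∀ p ∈ PR B x, |fG B G p - rho p * (1 - (jacobiSym B p : ℝ))| ≤
      (if p < p₁ then (2 : ℝ) else 0) + ((if (p : ℝ) ≤ (x : ℝ) ^ (1 / 2 : ℝ) then c else 0) +
        c * (x : ℝ) ^ (-(1 / 8) : ℝ)) := by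
    intro p hp
    rw [PR, mem_filter, mem_range] at hp
    have hp0 : (0 : ℝ) < p := by exact_mod_cast hp.2.1.pos
    have hp1 : (1 : ℝ) ≤ p := by exact_mod_cast hp.2.1.one_lt.le
    have t1 : 0 ≤ c * (x : ℝ) ^ (-(1 / 8) : ℝ) := by positivity
    have t2 : 0 ≤ (if (p : ℝ) ≤ (x : ℝ) ^ (1 / 2 : ℝ) then c else 0) := by split_ifs <;> simp [hc0]
    by_cases hpp : p < p₁
    · rw [if_pos hpp]
      have h2 := fG_bd B G p hp.2.1.one_lt.le
      have h3 := term_bd B p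
      have h4 : |fG B G p - rho p * (1 - (jacobiSym B p : ℝ))| ≤ 2 := by
        rw [mul_comm (rho p), abs_le]
        constructor <;> linarith [h2.1, h2.2, h3.1, h3.2]
      linarith
    · rw [if_neg hpp, zero_add]
      refine (hone B p hp.2.1 hp.2.2.1 hp.2.2.2 (by omega)).trans ?_
      by_cases h5 : (p : ℝ) ≤ (x : ℝ) ^ (1 / 2 : ℝ)
      · rw [if_pos h5]
        have h6 : (p : ℝ) ^ (-(1 / 4) : ℝ) ≤ 1 := Real.rpow_le_one_of_one_le_of_nonpos hp1 (by norm_num)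
        have h7 : c * (p : ℝ) ^ (-(1 / 4) : ℝ) ≤ c * 1 := mul_le_mul_of_nonneg_left h6 hc0
        linarith
      · rw [if_neg h5, zero_add]
        push Not at h5
        apply mul_le_mul_of_nonneg_left _ hc0
        calc (p : ℝ) ^ (-(1 / 4) : ℝ) ≤ ((x : ℝ) ^ (1 / 2 : ℝ)) ^ (-(1 / 4) : ℝ) :=
              Real.rpow_le_rpow_of_nonpos (by positivity) h5.le (by norm_num)
          _ = (x : ℝ) ^ (-(1 / 8) : ℝ) := by
              rw [← Real.rpow_mul hx0.le]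
              norm_num
  refine (sum_le_sum hterm).trans ?_
  rw [sum_add_distrib, sum_add_distrib]
  have hsubs : PR B x ⊆ Finset.Icc 1 x := by
    intro p hp
    rw [PR, mem_filter, mem_range] at hp
    rw [Finset.mem_Icc]
    exact ⟨hp.2.1.one_lt.le, by omega⟩
  have s1 : ∑ p ∈ PR B x, (if p < p₁ then (2 : ℝ) else 0) ≤ 2 * p₁ := by
    rw [← sum_filter, sum_const, nsmul_eq_mul]
    have h2 : ((PR B x).filter (fun p => p < p₁)).card ≤ p₁ := by
      have h3 : (PR B x).filter (fun p => p < p₁) ⊆ range p₁ := by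
        intro p hp
        rw [mem_filter] at hp
        exact mem_range.2 hp.2
      simpa using card_le_card h3
    have h3 : (((PR B x).filter (fun p => p < p₁)).card : ℝ) ≤ p₁ := by exact_mod_cast h2
    linarith
  have s2 : ∑ p ∈ PR B x, (if (p : ℝ) ≤ (x : ℝ) ^ (1 / 2 : ℝ) then c else 0) ≤ c * (x : ℝ) ^ (7 / 8 : ℝ) := by
    rw [← sum_filter, sum_const, nsmul_eq_mul, mul_comm]
    apply mul_le_mul_of_nonneg_left _ hc0
    have h2 : (PR B x).filter (fun p : ℕ => (p : ℝ) ≤ (x : ℝ) ^ (1 / 2 : ℝ)) ⊆ Finset.Icc 1 ⌊(x : ℝ) ^ (1 / 2 : ℝ)⌋₊ := by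
      intro p hp
      rw [mem_filter] at hp
      have h3 := hsubs hp.1
      rw [Finset.mem_Icc] at h3 ⊢
      exact ⟨h3.1, Nat.le_floor hp.2⟩
    have h3 := card_le_card h2
    rw [Nat.card_Icc, Nat.add_sub_cancel] at h3
    calc (((PR B x).filter (fun p : ℕ => (p : ℝ) ≤ (x : ℝ) ^ (1 / 2 : ℝ))).card : ℝ) ≤ (⌊(x : ℝ) ^ (1 / 2 : ℝ)⌋₊ : ℝ) := by
          exact_mod_cast h3
      _ ≤ (x : ℝ) ^ (1 / 2 : ℝ) := Nat.floor_le (by positivity)
      _ ≤ (x : ℝ) ^ (7 / 8 : ℝ) := Real.rpow_le_rpow_of_exponent_le hx1 (by norm_num)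
  have s3 : ∑ _p ∈ PR B x, c * (x : ℝ) ^ (-(1 / 8) : ℝ) ≤ c * (x : ℝ) ^ (7 / 8 : ℝ) := by
    rw [sum_const, nsmul_eq_mul]
    have h2 : ((PR B x).card : ℝ) ≤ x := by
      have := card_le_card hsubs
      rw [Nat.card_Icc, Nat.add_sub_cancel] at this
      exact_mod_cast this
    calc ((PR B x).card : ℝ) * (c * (x : ℝ) ^ (-(1 / 8) : ℝ)) ≤ x * (c * (x : ℝ) ^ (-(1 / 8) : ℝ)) :=
          mul_le_mul_of_nonneg_right h2 (by positivity)
      _ = c * (x : ℝ) ^ (7 / 8 : ℝ) := by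
          rw [show (7 / 8 : ℝ) = 1 + -(1 / 8) by norm_num, Real.rpow_add hx0, Real.rpow_one]
          ring
  have hp1r : (0 : ℝ) ≤ p₁ := Nat.cast_nonneg _
  nlinarith

/-- one `x` -/
theorem one_xG (G : ℤ[X]) (r : ℚ) (h0 : aeval r G = 0) (h1 : aeval r (derivative G) ≠ 0) (β α' τ θ : ℝ)
    (hβ1 : β < 1) (hτ : 0 < τ) (hτβ : 4 * τ ≤ β) (hτ8 : τ ≤ 1 / 16)
    (k1 : 1 - β / 2 + 3 * τ ≤ θ) (k2 : 3 / 4 + 3 * τ ≤ θ) (hα : 0 < α') (k3 : α' * (1 + 3 * τ) ≤ θ) :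
    ∃ N₀ : ℕ, ∀ N : ℕ, N₀ ≤ N → ∀ x : ℕ, Real.log N ≤ (x : ℝ) ^ (1 - β) → (x : ℝ) ≤ (N : ℝ) ^ α' →
      ∀ B : ℤ, ((BdG (τ / 2) (fun m x => (cnt (bs B G m) x : ℝ)) (mainT B) N x).card : ℝ) ≤ (N : ℝ) ^ θ := by
  classical
  obtain ⟨C, hC, hmean⟩ := mean_mainG G r h0 h1
  obtain ⟨N₁, hN₁⟩ := range12G β τ θ hβ1 hτ hτβ (by linarith) k1 k2
  obtain ⟨N₂, hN₂⟩ := range4G α' τ θ hα hτ k3
  have hev : ∀ᶠ x : ℝ in atTop, x ^ (1 - τ) + 1 + C * x ^ (7 / 8 : ℝ) ≤ x ^ (1 - τ / 2) := by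
    have e1 : ∀ᶠ x : ℝ in atTop, C + 2 ≤ x ^ (τ / 2) := (tendsto_rpow_atTop (by positivity)).eventually_ge_atTop _
    filter_upwards [e1, eventually_ge_atTop 1] with x h1 h4
    have hx0 : 0 < x := by linarith
    have h5 : x ^ (1 - τ / 2) = x ^ (1 - τ) * x ^ (τ / 2) := by
      rw [← Real.rpow_add hx0]
      ring_nf
    have h6 : x ^ (7 / 8 : ℝ) ≤ x ^ (1 - τ) := Real.rpow_le_rpow_of_exponent_le h4 (by linarith)
    have h7 : 1 ≤ x ^ (1 - τ) := Real.one_le_rpow h4 (by linarith)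
    rw [h5]
    have h8 : x ^ (1 - τ) * (C + 2) ≤ x ^ (1 - τ) * x ^ (τ / 2) := mul_le_mul_of_nonneg_left h1 (by linarith)
    nlinarith
  obtain ⟨y₁, hy₁⟩ := ev_nat hev
  obtain ⟨N₃, hN₃⟩ := ev_nat (Real.tendsto_log_atTop.eventually_ge_atTop (((y₁ + 3 : ℕ) : ℝ) ^ (1 - β)))
  refine ⟨max (max N₁ N₂) N₃, fun N hN x hx hxA B => ?_⟩
  have hxy : y₁ + 3 ≤ x := by
    by_contra hcon
    push Not at hcon
    have h3 : (x : ℝ) < ((y₁ + 3 : ℕ) : ℝ) := by exact_mod_cast hcon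
    have h4 : (x : ℝ) ^ (1 - β) < ((y₁ + 3 : ℕ) : ℝ) ^ (1 - β) :=
      Real.rpow_lt_rpow (Nat.cast_nonneg _) h3 (by linarith)
    linarith [hN₃ N ((le_max_right _ _).trans hN)]
  have hsys : Sys (PR B x) x (fun p m => gG B G p m - fG B G p) := by
    refine ⟨?_, ?_, ?_, ?_⟩
    · intro p hp
      rw [PR, mem_filter, mem_range] at hp
      exact ⟨hp.2.1, by omega⟩
    · intro p _ n
      show gG B G p n - fG B G p = gG B G p (n % p) - fG B G p
      rw [gG_per]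
    · intro p hp n
      rw [PR, mem_filter] at hp
      have h2 := fG_bd B G p hp.2.1.one_lt.le
      have h3 := gG_nonneg B G p n
      have h4 := gG_le B G p n
      rw [abs_le]
      constructor <;> linarith [h2.1, h2.2]
    · intro p hp
      rw [PR, mem_filter] at hp
      have hp0 : (p : ℝ) ≠ 0 := by exact_mod_cast hp.2.1.ne_zero
      rw [sum_sub_distrib, sum_const, card_range, nsmul_eq_mul]
      unfold fG
      field_simp
      ring
  have hmaj : ((BdG (τ / 2) (fun m x => (cnt (bs B G m) x : ℝ)) (mainT B) N x).card : ℝ) ≤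
      (((Finset.Icc 1 N).filter (fun m => (x : ℝ) ^ (1 - τ) ≤ |∑ p ∈ PR B x, (gG B G p m - fG B G p)|)).card : ℝ) := by
    apply Nat.cast_le.2
    apply card_le_card
    intro m hm
    unfold BdG at hm
    rw [mem_filter] at hm ⊢
    refine ⟨hm.1, ?_⟩
    by_contra hcon
    push Not at hcon
    have a1 := cnt_eq_sumG B G m x
    have a2 := hmean B x (by omega)
    have a3 := hy₁ x (by omega)
    rw [sum_sub_distrib] at hcon
    have a4 : |(cnt (bs B G m) x : ℝ) - mainT B x| ≤ (x : ℝ) ^ (1 - τ) + 1 + C * (x : ℝ) ^ (7 / 8 : ℝ) := by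
      have a5 := hcon.le
      rw [abs_le] at a1 a2 a5 ⊢
      constructor <;> linarith [a1.1, a1.2, a2.1, a2.2, a5.1, a5.2]
    have a6 := hm.2
    simp only at a6
    linarith
  refine hmaj.trans ?_
  rcases Nat.lt_or_ge N (x ^ 2) with hcase | hcase
  · exact hN₂ N ((le_max_right _ _).trans ((le_max_left _ _).trans hN)) x hcase hxA (PR B x) _ hsys
  · exact hN₁ N ((le_max_left _ _).trans ((le_max_left _ _).trans hN)) x hx hcase (PR B x) _ hsys

/-- all `x` -/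
theorem all_xP (G : ℤ[X]) (r : ℚ) (h0 : aeval r G = 0) (h1 : aeval r (derivative G) ≠ 0) (β θ α : ℝ)
    (hβ0 : 0 < β) (hβ1 : β < 1) (k1 : 1 - β / 2 < θ) (k2 : 3 / 4 < θ) (hα : 0 < α) (hαθ : α < θ) :
    ∃ c : ℝ, 0 < c ∧ c < 1 ∧ ∃ N₀ : ℕ, ∀ N : ℕ, N₀ ≤ N → ∀ B : ℤ, ∀ E ⊆ Finset.Icc 1 N,
      (∀ m ∈ E, ∃ x : ℕ, Real.log N ≤ (x : ℝ) ^ (1 - β) ∧ (x : ℝ) ≤ (N : ℝ) ^ α ∧
        (x : ℝ) ^ (1 - c) < |(cnt (bs B G m) x : ℝ) - mainT B x|) → (E.card : ℝ) ≤ (N : ℝ) ^ θ := by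
  obtain ⟨α', hα'⟩ : ∃ α', α' = (α + θ) / 2 := ⟨_, rfl⟩
  obtain ⟨τ, hτ⟩ : ∃ τ, τ = min (min (β / 4) (1 / 16)) (min (min ((θ - (1 - β / 2)) / 4) ((θ - 3 / 4) / 4))
    ((θ - α) / (2 * (1 + 3 * θ)))) := ⟨_, rfl⟩
  have hθ0 : 0 < θ := by linarith
  have hτ0 : 0 < τ := by
    rw [hτ]
    refine lt_min (lt_min (by linarith) (by norm_num)) (lt_min (lt_min (by linarith) (by linarith)) ?_)
    apply div_pos (by linarith) (by positivity)
  have t1 : τ ≤ β / 4 := by rw [hτ]; exact (min_le_left _ _).trans (min_le_left _ _)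
  have t2 : τ ≤ 1 / 16 := by rw [hτ]; exact (min_le_left _ _).trans (min_le_right _ _)
  have t3 : τ ≤ (θ - (1 - β / 2)) / 4 := by
    rw [hτ]; exact (min_le_right _ _).trans ((min_le_left _ _).trans (min_le_left _ _))
  have t4 : τ ≤ (θ - 3 / 4) / 4 := by
    rw [hτ]; exact (min_le_right _ _).trans ((min_le_left _ _).trans (min_le_right _ _))
  have t5 : τ ≤ (θ - α) / (2 * (1 + 3 * θ)) := by rw [hτ]; exact (min_le_right _ _).trans (min_le_right _ _)
  rw [le_div_iff₀ (by positivity)] at t5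
  have hα'0 : 0 < α' := by rw [hα']; linarith
  have hα'θ : α' ≤ θ := by rw [hα']; linarith
  have t6 : α' * (1 + 3 * τ) ≤ θ - τ := by
    have h2 : α' * (3 * τ) ≤ θ * (3 * τ) := mul_le_mul_of_nonneg_right hα'θ (by positivity)
    have h3 : α' = θ - (θ - α) / 2 := by rw [hα']; ring
    nlinarith
  obtain ⟨N₁, hN₁⟩ := one_xG G r h0 h1 β α' τ (θ - τ) hβ1 hτ0 (by linarith) t2 (by linarith) (by linarith) hα'0 t6
  obtain ⟨c, hc0, hc1, N₂, hN₂⟩ := all_xG β θ τ α α' (τ / 2) hβ1 hτ0 (by positivity) hα (by rw [hα']; linarith)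
  refine ⟨c, hc0, hc1, max N₁ N₂, fun N hN B E hE hEb => ?_⟩
  refine hN₂ N ((le_max_right _ _).trans hN) (fun m x => (cnt (bs B G m) x : ℝ)) (mainT B) ?_ ?_ ?_ E hE hEb
  · intro m x y hxy
    exact_mod_cast cnt_mono (bs B G m) hxy
  · intro x y hxy
    exact mainT_diff B hxy
  · intro x hx hxA
    exact hN₁ N ((le_max_left _ _).trans hN) x hx hxA B

/-- from the local prediction to the density -/
theorem to_dens (σ c : ℝ) (hσ : 1 < σ) (hc0 : 0 < c) (A : ℕ) : ∃ N₀ : ℕ, ∀ N : ℕ, N₀ ≤ N → ∀ x : ℕ,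
    (Real.log N) ^ σ ≤ x → ∀ n B D k : ℤ, B = D * k ^ 2 → (|B| : ℝ) ≤ (N : ℝ) ^ A → k ≠ 0 → Squarefree D → D % 4 = 1 →
    D ≠ 1 → (|D| : ℝ) ≤ (Real.log x) ^ A → |(cnt n x : ℝ) - mainT B x| ≤ (x : ℝ) ^ (1 - c) →
    |(cnt n x : ℝ) - dens D * (Nat.primeCounting x : ℝ)| ≤ x / (Real.log x) ^ A := by
  have hσ0 : 0 < σ := by linarith
  have hσ1 : 1 / σ < 1 := by rw [div_lt_one hσ0]; exact hσ
  have hσ2 : 0 < 1 / σ := by positivity
  obtain ⟨x₁, hx₁⟩ := ml (A + 1) A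
  -- large `x`
  have ev : ∀ᶠ x : ℝ in atTop, x ^ (1 - c) + 4 * (A * x ^ (1 / σ)) + x / (Real.log x) ^ (A + 1) ≤
      x / (Real.log x) ^ A := by
    have e1 : ∀ᶠ x : ℝ in atTop, Real.log x ^ A ≤ 1 / 4 * x ^ c := by
      have h := (isLittleO_log_rpow_rpow_atTop (A : ℝ) hc0).bound (c := 1 / 4) (by norm_num)
      filter_upwards [h, eventually_gt_atTop 1] with x h1 h2
      rw [Real.rpow_natCast, Real.norm_of_nonneg (pow_nonneg (Real.log_nonneg h2.le) _),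
        Real.norm_of_nonneg (by positivity)] at h1
      exact h1
    have e2 : ∀ᶠ x : ℝ in atTop, Real.log x ^ A ≤ 1 / (16 * (A + 1)) * x ^ (1 - 1 / σ) := by
      have h := (isLittleO_log_rpow_rpow_atTop (A : ℝ) (show 0 < 1 - 1 / σ by linarith)).bound
        (c := 1 / (16 * ((A : ℝ) + 1))) (by positivity)
      filter_upwards [h, eventually_gt_atTop 1] with x h1 h2
      rw [Real.rpow_natCast, Real.norm_of_nonneg (pow_nonneg (Real.log_nonneg h2.le) _),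
        Real.norm_of_nonneg (by positivity)] at h1
      exact h1
    have e3 : ∀ᶠ x : ℝ in atTop, 4 ≤ Real.log x := Real.tendsto_log_atTop.eventually_ge_atTop 4
    filter_upwards [e1, e2, e3, eventually_gt_atTop 1] with x k1 k2 k3 k4
    have hx0 : 0 < x := by linarith
    have hl : 0 < Real.log x := by linarith
    have hlA : 0 < Real.log x ^ A := by positivity
    have m1 : x ^ (1 - c) ≤ 1 / 4 * (x / Real.log x ^ A) := by
      rw [← mul_div_assoc, le_div_iff₀ hlA]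
      calc x ^ (1 - c) * Real.log x ^ A ≤ x ^ (1 - c) * (1 / 4 * x ^ c) :=
            mul_le_mul_of_nonneg_left k1 (by positivity)
        _ = 1 / 4 * (x ^ (1 - c) * x ^ c) := by ring
        _ = 1 / 4 * x := by rw [← Real.rpow_add hx0]; norm_num
    have m2 : 4 * (A * x ^ (1 / σ)) ≤ 1 / 4 * (x / Real.log x ^ A) := by
      rw [← mul_div_assoc, le_div_iff₀ hlA]
      calc 4 * (A * x ^ (1 / σ)) * Real.log x ^ A
          ≤ 4 * (A * x ^ (1 / σ)) * (1 / (16 * (A + 1)) * x ^ (1 - 1 / σ)) :=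
            mul_le_mul_of_nonneg_left k2 (by positivity)
        _ = 1 / 4 * (A / (A + 1)) * (x ^ (1 / σ) * x ^ (1 - 1 / σ)) := by
            have : (A : ℝ) + 1 ≠ 0 := by positivity
            field_simp
            ring
        _ = 1 / 4 * (A / (A + 1)) * x := by rw [← Real.rpow_add hx0]; norm_num
        _ ≤ 1 / 4 * x := by
            have h5 : (A : ℝ) / (A + 1) ≤ 1 := by
              rw [div_le_one (by positivity)]
              linarith
            nlinarith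
    have m3 : x / Real.log x ^ (A + 1) ≤ 1 / 4 * (x / Real.log x ^ A) := by
      rw [pow_succ, ← div_div, div_le_iff₀ hl]
      have : 0 ≤ x / Real.log x ^ A := by positivity
      nlinarith
    have m4 : 0 ≤ x / Real.log x ^ A := by positivity
    linarith
  obtain ⟨x₂, hx₂⟩ := ev_nat ev
  have evN : ∀ᶠ N : ℝ in atTop, ((max x₁ x₂ + 3 : ℕ) : ℝ) ≤ (Real.log N) ^ σ :=
    ((tendsto_rpow_atTop hσ0).comp Real.tendsto_log_atTop).eventually_ge_atTop _
  obtain ⟨N₂, hN₂⟩ := ev_nat evN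
  refine ⟨max N₂ 3, fun N hN x hx1 n B D k hB hBA hk hD hD1 hD2 hDx hcon => ?_⟩
  have hN2 : N₂ ≤ N := (le_max_left _ _).trans hN
  have hN3 : 3 ≤ N := (le_max_right _ _).trans hN
  have hN1r : (1 : ℝ) ≤ N := by exact_mod_cast (by omega : 1 ≤ N)
  have hN0r : (0 : ℝ) < N := by linarith
  have hlN : 0 ≤ Real.log N := Real.log_nonneg hN1r
  have hxl : Real.log N ≤ (x : ℝ) ^ (1 / σ) := by
    have h5 : ((Real.log N) ^ σ) ^ (1 / σ) ≤ (x : ℝ) ^ (1 / σ) :=
      Real.rpow_le_rpow (by positivity) hx1 hσ2.le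
    rw [← Real.rpow_mul hlN, mul_one_div_cancel hσ0.ne', Real.rpow_one] at h5
    exact h5
  have hxM : (max x₁ x₂ + 3 : ℕ) ≤ x := by
    have := (hN₂ N hN2).trans hx1
    exact_mod_cast this
  have hxa : x₁ ≤ x := by
    have := le_max_left x₁ x₂
    omega
  have hxb : x₂ ≤ x := by
    have := le_max_right x₁ x₂
    omega
  have hD0 : D ≠ 0 := hD.ne_zero
  have f1 := mainT_sq D k hk x
  have f2 := pf_le_log (k := k.natAbs) (by omega)
  have f3 := hx₁ x hxa D hD hD1 hD2 (by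
    rw [Nat.cast_natAbs, Int.cast_abs]
    exact hDx)
  have f4 : Real.log (k.natAbs : ℝ) ≤ A * Real.log N := by
    have g1 : (k.natAbs : ℝ) ≤ (N : ℝ) ^ A := by
      refine le_trans ?_ hBA
      have g2 : (k.natAbs : ℝ) = |(k : ℝ)| := by rw [Nat.cast_natAbs, Int.cast_abs]
      rw [g2, hB]
      push_cast
      rw [abs_mul, abs_pow]
      have g3 : (1 : ℝ) ≤ |(D : ℝ)| := by
        have : (1 : ℤ) ≤ |D| := Int.one_le_abs hD0
        exact_mod_cast this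
      have g4 : (1 : ℝ) ≤ |(k : ℝ)| := by
        have : (1 : ℤ) ≤ |k| := Int.one_le_abs hk
        exact_mod_cast this
      nlinarith [mul_le_mul_of_nonneg_right g3 (sq_nonneg |(k : ℝ)|)]
    have g5 : Real.log (k.natAbs : ℝ) ≤ Real.log ((N : ℝ) ^ A) := by
      apply Real.log_le_log _ g1
      exact_mod_cast (by omega : 0 < k.natAbs)
    rwa [Real.log_pow] at g5
  have f5 : (A : ℝ) * Real.log N ≤ A * (x : ℝ) ^ (1 / σ) := mul_le_mul_of_nonneg_left hxl (Nat.cast_nonneg _)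
  have f6 := hx₂ x hxb
  rw [hB] at hcon
  have f7 : |(cnt n x : ℝ) - dens D * (Nat.primeCounting x : ℝ)| ≤
      |(cnt n x : ℝ) - mainT (D * k ^ 2) x| + |mainT (D * k ^ 2) x - mainT D x| +
      |mainT D x - dens D * (Nat.primeCounting x : ℝ)| := by
    refine (abs_sub_le _ (mainT D x) _).trans ?_
    have := abs_sub_le (cnt n x : ℝ) (mainT (D * k ^ 2) x) (mainT D x)
    linarith
  linarith

end Pool.Agent.X55.Art
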