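import Pool.Agent.X55.Art.Pl2

set_option autoImplicit false

/-! # Sums of periodic functions: the exceptional sets at one `x` -/

namespace Pool.Agent.X55.Art

open Finset Filter
open Pool.Agent.TH894.NE (mean Per mean_mono mean_mul mean_add mean_const)

/-- a system: primes `≤ x` and centred functions -/
structure Sys (I : Finset ℕ) (x : ℕ) (F : ℕ → ℕ → ℝ) : Prop where
  pr : ∀ p ∈ I, p.Prime ∧ p ≤ x
  per : ∀ p ∈ I, ∀ n, F p n = F p (n % p)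
  bd : ∀ p ∈ I, ∀ n, |F p n| ≤ 1
  cen : ∀ p ∈ I, ∑ n ∈ range p, F p n = 0

theorem dev_cardG (I : Finset ℕ) (x : ℕ) (F : ℕ → ℕ → ℝ) (hS : Sys I x F) (N j : ℕ) (hj : 1 ≤ j) (hjx : j ≤ x)
    (lam : ℝ) (hlam : 0 ≤ lam) (E : Finset ℕ) (hE : E ⊆ Finset.Icc 1 N)
    (hbig : ∀ m ∈ E, lam ≤ |∑ p ∈ I, F p m|) :
    (E.card : ℝ) * lam ^ (2 * j) ≤ 6 * (N + ((x : ℝ) ^ j) ^ 2) * (2 * (12 * j * x) ^ j) := by
  classical
  have hm : ∀ (q : ℕ) (H : ℕ → ℝ), mean 1 q (fun n : Fin 1 → ℕ => H (n 0)) = 1 / (q : ℝ) * ∑ n ∈ range q, H n := by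
    intro q H
    unfold mean
    rw [pow_one, box_one]
  have hF0 : ∀ p ∈ I, mean 1 p (fun n : Fin 1 → ℕ => F p (n 0)) = 0 := by
    intro p hp
    rw [hm p (F p), hS.cen p hp, mul_zero]
  have hcard : (I.card : ℝ) ≤ x := by
    have : I ⊆ Finset.Icc 1 x := by
      intro p hp
      rw [Finset.mem_Icc]
      exact ⟨(hS.pr p hp).1.one_lt.le, (hS.pr p hp).2⟩
    have h2 := card_le_card this
    simp only [Nat.card_Icc, Nat.add_sub_cancel] at h2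
    exact_mod_cast h2
  have hV : ∑ p ∈ I, mean 1 p (fun n : Fin 1 → ℕ => F p (n 0) ^ 2) ≤ (x : ℝ) := by
    calc ∑ p ∈ I, mean 1 p (fun n : Fin 1 → ℕ => F p (n 0) ^ 2) ≤ ∑ _p ∈ I, (1 : ℝ) := by
          refine sum_le_sum fun p hp => ?_
          have h1 := mean_mono (d := 1) (q := p) (F := fun n : Fin 1 → ℕ => F p (n 0) ^ 2) (G := fun _ => (1 : ℝ))
            (fun n => by
              have h2 := hS.bd p hp (n 0)
              rw [← sq_abs]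
              have h3 := abs_nonneg (F p (n 0))
              nlinarith)
          rw [mean_const 1 p (hS.pr p hp).1.one_lt.le] at h1
          exact h1
      _ = (I.card : ℝ) := by simp
      _ ≤ x := hcard
  have h1 := ls_mom I (fun p => p) x j N (fun p hp => ⟨(hS.pr p hp).1.one_lt.le, (hS.pr p hp).2⟩)
    (fun p n => F p (n 0)) (fun p hp n => hS.per p hp (n 0))
    E hE lam hlam (fun m hm => hbig m hm)
  have h2 := mom I (fun p => p) (fun p hp => (hS.pr p hp).1.one_lt.le)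
    (fun p hp p' hp' hne => (Nat.coprime_primes (hS.pr p hp).1 (hS.pr p' hp').1).2 hne)
    (fun p (n : Fin 1 → ℕ) => F p (n 0)) (fun p hp n => hS.per p hp (n 0)) (fun p hp n => hS.bd p hp (n 0)) hF0
    (x : ℝ) hV j hj (by exact_mod_cast hjx)
  refine h1.trans ?_
  exact mul_le_mul_of_nonneg_left h2 (by positivity)

/-- with exponents -/
theorem dev_card2G (I : Finset ℕ) (x : ℕ) (F : ℕ → ℕ → ℝ) (hS : Sys I x F) (N j : ℕ) (hx : 2 ≤ x) (hN : 1 ≤ N)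
    (hj : 1 ≤ j) (hxN : x ^ (2 * j) ≤ N)
    (t s : ℝ) (ht : 0 ≤ t) (hjx : 12 * (j : ℝ) ≤ (x : ℝ) ^ (1 - 2 * t - s)) (hs : 0 ≤ s) :
    (((Finset.Icc 1 N).filter (fun m => (x : ℝ) ^ (1 - t) ≤ |∑ p ∈ I, F p m|)).card : ℝ) ≤
      24 * Real.exp (Real.log N - s * (j * Real.log x)) := by
  classical
  have hx1 : (1 : ℝ) < x := by exact_mod_cast (by omega : 1 < x)
  have hx0 : (0 : ℝ) < x := by linarith
  have hN0 : (0 : ℝ) < N := by exact_mod_cast hN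
  have hj0 : (1 : ℝ) ≤ j := by exact_mod_cast hj
  have hjx' : j ≤ x := by
    have h1 : (x : ℝ) ^ (1 - 2 * t - s) ≤ (x : ℝ) ^ (1 : ℝ) :=
      Real.rpow_le_rpow_of_exponent_le hx1.le (by linarith)
    rw [Real.rpow_one] at h1
    have h2 : (j : ℝ) ≤ x := by linarith
    exact_mod_cast h2
  have h1 := dev_cardG I x F hS N j hj hjx' ((x : ℝ) ^ (1 - t)) (by positivity)
    ((Finset.Icc 1 N).filter (fun m => (x : ℝ) ^ (1 - t) ≤ |∑ p ∈ I, F p m|)) (filter_subset _ _)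
    (fun m hm => (mem_filter.1 hm).2)
  have h10 : 6 * ((N : ℝ) + ((x : ℝ) ^ j) ^ 2) * (2 * (12 * j * x) ^ j) ≤ 24 * N * (12 * j * x) ^ j := by
    have h3 : ((x : ℝ) ^ j) ^ 2 ≤ N := by
      rw [← pow_mul, mul_comm j 2]
      exact_mod_cast hxN
    have h4 : (0 : ℝ) ≤ (12 * j * x) ^ j := by positivity
    nlinarith
  replace h1 := h1.trans h10
  set n : ℝ := (((Finset.Icc 1 N).filter (fun m => (x : ℝ) ^ (1 - t) ≤ |∑ p ∈ I, F p m|)).card : ℝ) with hn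
  have hl : ((x : ℝ) ^ (1 - t)) ^ (2 * j) = ((x : ℝ) ^ (2 - 2 * t)) ^ j := by
    rw [pow_mul, ← Real.rpow_natCast ((x : ℝ) ^ (1 - t)) 2, ← Real.rpow_mul hx0.le]
    congr 2
    push_cast
    ring
  have hle : (12 * (j : ℝ) * x) ^ j ≤ ((x : ℝ) ^ (2 - 2 * t)) ^ j * ((x : ℝ) ^ (-s)) ^ j := by
    rw [← mul_pow]
    apply pow_le_pow_left₀ (by positivity)
    calc 12 * (j : ℝ) * x ≤ (x : ℝ) ^ (1 - 2 * t - s) * x := mul_le_mul_of_nonneg_right hjx hx0.le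
      _ = (x : ℝ) ^ (2 - 2 * t) * (x : ℝ) ^ (-s) := by
          nth_rewrite 2 [← Real.rpow_one (x : ℝ)]
          rw [← Real.rpow_add hx0, ← Real.rpow_add hx0]
          ring_nf
  rw [hl] at h1
  have hpos : 0 < ((x : ℝ) ^ (2 - 2 * t)) ^ j := by positivity
  have h2 : n * ((x : ℝ) ^ (2 - 2 * t)) ^ j ≤ (24 * N * ((x : ℝ) ^ (-s)) ^ j) * ((x : ℝ) ^ (2 - 2 * t)) ^ j := by
    refine h1.trans ?_
    calc 24 * (N : ℝ) * (12 * j * x) ^ j ≤ 24 * N * (((x : ℝ) ^ (2 - 2 * t)) ^ j * ((x : ℝ) ^ (-s)) ^ j) :=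
          mul_le_mul_of_nonneg_left hle (by positivity)
      _ = _ := by ring
  have h3 := le_of_mul_le_mul_right h2 hpos
  refine h3.trans (le_of_eq ?_)
  have h4 : ((x : ℝ) ^ (-s)) ^ j = Real.exp (-(s * (j * Real.log x))) := by
    rw [← Real.rpow_natCast, ← Real.rpow_mul hx0.le, Real.rpow_def_of_pos hx0]
    congr 1
    ring
  rw [h4, sub_eq_add_neg, Real.exp_add, Real.exp_log hN0]
  ring

theorem range12G (β τ θ : ℝ) (hβ1 : β < 1) (hτ : 0 < τ) (hτβ : 4 * τ ≤ β) (hτ8 : τ ≤ 1 / 8)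
    (h1 : 1 - β / 2 + 3 * τ ≤ θ) (h2 : 3 / 4 + 3 * τ ≤ θ) : ∃ N₀ : ℕ, ∀ N : ℕ, N₀ ≤ N → ∀ x : ℕ,
    Real.log N ≤ (x : ℝ) ^ (1 - β) → x ^ 2 ≤ N → ∀ (I : Finset ℕ) (F : ℕ → ℕ → ℝ), Sys I x F →
    (((Finset.Icc 1 N).filter (fun m => (x : ℝ) ^ (1 - τ) ≤ |∑ p ∈ I, F p m|)).card : ℝ) ≤ (N : ℝ) ^ θ := by
  -- how large `x` has to be
  obtain ⟨y₁, hy₁⟩ := ev_nat ((tendsto_rpow_atTop hτ).eventually_ge_atTop (max 12 (6 / τ)))
  obtain ⟨N₁, hN₁⟩ := ev_nat (Real.tendsto_log_atTop.eventually_ge_atTop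
    (max (max 1 (((y₁ + 3 : ℕ) : ℝ) ^ (1 - β))) (max 1 (8 * Real.log 24 / τ))))
  refine ⟨max N₁ 2, fun N hN x hx hxN I F hS => ?_⟩
  have hN2 : 2 ≤ N := (le_max_right _ _).trans hN
  have hNL := hN₁ N ((le_max_left _ _).trans hN)
  set L := Real.log N with hL
  have hL1 : ((y₁ + 3 : ℕ) : ℝ) ^ (1 - β) ≤ L := (le_max_right _ _).trans ((le_max_left _ _).trans hNL)
  have hL2 : 8 * Real.log 24 / τ ≤ L := (le_max_right _ _).trans ((le_max_right _ _).trans hNL)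
  have hL0 : 1 ≤ L := (le_max_left _ _).trans ((le_max_left _ _).trans hNL)
  have hN0 : (0 : ℝ) < N := by exact_mod_cast (by omega : 0 < N)
  -- `x` is large
  have hxy : y₁ + 3 ≤ x := by
    by_contra hcon
    push Not at hcon
    have h3 : (x : ℝ) < ((y₁ + 3 : ℕ) : ℝ) := by exact_mod_cast hcon
    have h4 : (x : ℝ) ^ (1 - β) < ((y₁ + 3 : ℕ) : ℝ) ^ (1 - β) :=
      Real.rpow_lt_rpow (Nat.cast_nonneg _) h3 (by linarith)
    linarith
  have hx3 : 3 ≤ x := by omega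
  have hx0 : (0 : ℝ) < x := by exact_mod_cast (by omega : 0 < x)
  have hx1 : (1 : ℝ) ≤ x := by exact_mod_cast (by omega : 1 ≤ x)
  have hxτ := hy₁ x (by omega)
  have hx12 : 12 ≤ (x : ℝ) ^ τ := (le_max_left _ _).trans hxτ
  have hx6 : 6 / τ ≤ (x : ℝ) ^ τ := (le_max_right _ _).trans hxτ
  set l := Real.log x with hl
  have hl1 : 1 ≤ l := by
    rw [hl, Real.le_log_iff_exp_le hx0]
    have h3 : (3 : ℝ) ≤ x := by exact_mod_cast hx3
    have := Real.exp_one_lt_d9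
    linarith
  have hl0 : 0 < l := by linarith
  have h2l : 2 * l ≤ L := by
    rw [hL, hl, ← Nat.cast_ofNat (R := ℝ) (n := 2), ← Real.log_pow]
    apply Real.log_le_log (by positivity)
    exact_mod_cast hxN
  obtain ⟨j, hj⟩ : ∃ j, j = ⌊L / (2 * l)⌋₊ := ⟨_, rfl⟩
  have hj1 : 1 ≤ j := by
    rw [hj]
    apply Nat.le_floor
    rw [Nat.cast_one, le_div_iff₀ (by positivity)]
    linarith
  have hj0 : (1 : ℝ) ≤ j := by exact_mod_cast hj1
  have hjle : (j : ℝ) ≤ L / (2 * l) := by rw [hj]; exact Nat.floor_le (by positivity)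
  have hjlt : L / (2 * l) < j + 1 := by rw [hj]; exact Nat.lt_floor_add_one _
  have hjl : (j : ℝ) * (2 * l) ≤ L := by rwa [le_div_iff₀ (by positivity)] at hjle
  have hjl2 : L < (j + 1) * (2 * l) := by rwa [div_lt_iff₀ (by positivity)] at hjlt
  have hxN2 : x ^ (2 * j) ≤ N := by
    have h3 : Real.log ((x : ℝ) ^ (2 * j)) ≤ Real.log N := by
      rw [Real.log_pow, ← hl, ← hL]
      push_cast
      linarith
    have h4 := (Real.log_le_log_iff (by positivity) hN0).1 h3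
    exact_mod_cast h4
  have hjL : (j : ℝ) ≤ L := by
    have : (j : ℝ) * 1 ≤ j * (2 * l) := mul_le_mul_of_nonneg_left (by linarith) (by linarith)
    linarith
  have hfin : ∀ s : ℝ, 0 ≤ s → 12 * (j : ℝ) ≤ (x : ℝ) ^ (1 - 2 * τ - s) →
      Real.log 24 + L - s * (j * l) ≤ θ * L →
      (((Finset.Icc 1 N).filter (fun m => (x : ℝ) ^ (1 - τ) ≤ |∑ p ∈ I, F p m|)).card : ℝ) ≤ (N : ℝ) ^ θ := by
    intro s hs hs1 hs2
    refine (dev_card2G I x F hS N j (by omega) (by omega) hj1 hxN2 τ s hτ.le hs1 hs).trans ?_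
    rw [Real.rpow_def_of_pos hN0, ← hL, ← hl]
    calc 24 * Real.exp (L - s * (j * l)) = Real.exp (Real.log 24 + (L - s * (j * l))) := by
          rw [Real.exp_add, Real.exp_log (by norm_num)]
      _ ≤ Real.exp (L * θ) := by
          apply Real.exp_le_exp.2
          linarith
  have hlog : Real.log 24 ≤ τ / 8 * L := by
    rw [div_le_iff₀ hτ] at hL2
    linarith
  rcases le_total l (τ * L) with hcase | hcase
  · apply hfin (β - 3 * τ) (by linarith)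
    · have h3 : 12 * (j : ℝ) ≤ (x : ℝ) ^ τ * (x : ℝ) ^ (1 - β) :=
        mul_le_mul hx12 (hjL.trans hx) (by linarith) (by positivity)
      refine h3.trans (le_of_eq ?_)
      rw [← Real.rpow_add hx0]
      ring_nf
    · have h3 : (1 / 2 - τ) * L ≤ j * l := by nlinarith
      have h4 : (β - 3 * τ) * ((1 / 2 - τ) * L) ≤ (β - 3 * τ) * (j * l) :=
        mul_le_mul_of_nonneg_left h3 (by linarith)
      have h5 : (β / 2 - 5 / 2 * τ) * L ≤ (β - 3 * τ) * ((1 / 2 - τ) * L) := by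
        have h6 : β / 2 - 5 / 2 * τ ≤ (β - 3 * τ) * (1 / 2 - τ) := by nlinarith
        calc (β / 2 - 5 / 2 * τ) * L ≤ ((β - 3 * τ) * (1 / 2 - τ)) * L :=
              mul_le_mul_of_nonneg_right h6 (by linarith)
          _ = _ := by ring
      have h7 : (1 - β / 2 + 3 * τ) * L ≤ θ * L := mul_le_mul_of_nonneg_right h1 (by linarith)
      have h8 : 0 ≤ τ * L := by positivity
      nlinarith
  · apply hfin (1 - 3 * τ) (by linarith)
    · have h3 : (j : ℝ) ≤ 1 / (2 * τ) := by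
        rw [le_div_iff₀ (by positivity)]
        by_contra hcon
        push Not at hcon
        have h4 : L < j * (2 * τ) * L := by
          have : 1 * L < j * (2 * τ) * L := mul_lt_mul_of_pos_right hcon (by linarith)
          linarith
        have h5 : j * (2 * τ) * L ≤ j * (2 * l) := by
          have : (j : ℝ) * 2 * (τ * L) ≤ j * 2 * l := mul_le_mul_of_nonneg_left hcase (by positivity)
          linarith
        linarith
      have h4 : 12 * (j : ℝ) ≤ 6 / τ := by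
        have : 12 * (1 / (2 * τ)) = 6 / τ := by field_simp; ring
        linarith
      refine (h4.trans hx6).trans (le_of_eq ?_)
      ring_nf
    · have h3 : L / 4 ≤ j * l := by
        have h4 : (j : ℝ) + 1 ≤ 2 * j := by linarith
        have h5 : (j + 1) * (2 * l) ≤ (2 * j) * (2 * l) := mul_le_mul_of_nonneg_right h4 (by positivity)
        linarith
      have h4 : (1 - 3 * τ) * (L / 4) ≤ (1 - 3 * τ) * (j * l) := mul_le_mul_of_nonneg_left h3 (by linarith)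
      have h7 : (3 / 4 + 3 * τ) * L ≤ θ * L := mul_le_mul_of_nonneg_right h2 (by linarith)
      have h8 : 0 ≤ τ * L := by positivity
      nlinarith

/-- the range `N < x²`, `x ≤ N ^ α` -/
theorem range4G (α τ θ : ℝ) (hα : 0 < α) (hτ : 0 < τ) (h1 : α * (1 + 3 * τ) ≤ θ) : ∃ N₀ : ℕ, ∀ N : ℕ, N₀ ≤ N → ∀ x : ℕ,
    N < x ^ 2 → (x : ℝ) ≤ (N : ℝ) ^ α → ∀ (I : Finset ℕ) (F : ℕ → ℕ → ℝ), Sys I x F →
    (((Finset.Icc 1 N).filter (fun m => (x : ℝ) ^ (1 - τ) ≤ |∑ p ∈ I, F p m|)).card : ℝ) ≤ (N : ℝ) ^ θ := by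
  obtain ⟨y₁, hy₁⟩ := ev_nat ((tendsto_rpow_atTop hτ).eventually_ge_atTop 288)
  refine ⟨(y₁ + 3) ^ 2, fun N hN x hNx hxN I F hS => ?_⟩
  have hxy : y₁ + 3 ≤ x := by
    by_contra hcon
    push Not at hcon
    have : x ^ 2 < (y₁ + 3) ^ 2 := Nat.pow_lt_pow_left hcon (by norm_num)
    omega
  have hN9 : 9 ≤ N := by
    have : 3 ^ 2 ≤ (y₁ + 3) ^ 2 := Nat.pow_le_pow_left (by omega) 2
    omega
  have hN0 : (0 : ℝ) < N := by exact_mod_cast (by omega : 0 < N)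
  have hN1 : (1 : ℝ) ≤ N := by exact_mod_cast (by omega : 1 ≤ N)
  have hx0 : (0 : ℝ) < x := by exact_mod_cast (by omega : 0 < x)
  have hx1 : (1 : ℝ) ≤ x := by exact_mod_cast (by omega : 1 ≤ x)
  have hxτ := hy₁ x (by omega)
  have h2 := dev_cardG I x F hS N 1 le_rfl (by omega) ((x : ℝ) ^ (1 - τ)) (by positivity)
    ((Finset.Icc 1 N).filter (fun m => (x : ℝ) ^ (1 - τ) ≤ |∑ p ∈ I, F p m|)) (filter_subset _ _)
    (fun m hm => (mem_filter.1 hm).2)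
  set n : ℝ := (((Finset.Icc 1 N).filter (fun m => (x : ℝ) ^ (1 - τ) ≤ |∑ p ∈ I, F p m|)).card : ℝ) with hn
  have hNx' : (N : ℝ) ≤ (x : ℝ) ^ 2 := by exact_mod_cast hNx.le
  have h3 : 6 * ((N : ℝ) + ((x : ℝ) ^ 1) ^ 2) * (2 * (12 * ((1 : ℕ) : ℝ) * x) ^ 1) ≤ 288 * (x : ℝ) ^ 3 := by
    rw [pow_one, pow_one, Nat.cast_one, mul_one]
    have h4 : (N : ℝ) * x ≤ (x : ℝ) ^ 2 * x := mul_le_mul_of_nonneg_right hNx' hx0.le
    nlinarith
  have h5 : ((x : ℝ) ^ (1 - τ)) ^ (2 * 1) = (x : ℝ) ^ (2 - 2 * τ) := by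
    rw [mul_one, ← Real.rpow_natCast, ← Real.rpow_mul hx0.le]
    congr 1
    push_cast
    ring
  rw [h5] at h2
  have h6 : 288 * (x : ℝ) ^ 3 ≤ (x : ℝ) ^ (1 + 3 * τ) * (x : ℝ) ^ (2 - 2 * τ) := by
    rw [← Real.rpow_add hx0]
    have h7 : (1 + 3 * τ + (2 - 2 * τ) : ℝ) = 3 + τ := by ring
    rw [h7, Real.rpow_add hx0]
    have h8 : (x : ℝ) ^ (3 : ℝ) = (x : ℝ) ^ 3 := by exact_mod_cast Real.rpow_natCast (x : ℝ) 3
    rw [h8, mul_comm]
    exact mul_le_mul_of_nonneg_left hxτ (by positivity)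
  have h7 : n * (x : ℝ) ^ (2 - 2 * τ) ≤ (x : ℝ) ^ (1 + 3 * τ) * (x : ℝ) ^ (2 - 2 * τ) := (h2.trans h3).trans h6
  have h8 := le_of_mul_le_mul_right h7 (by positivity)
  refine h8.trans ?_
  calc (x : ℝ) ^ (1 + 3 * τ) ≤ ((N : ℝ) ^ α) ^ (1 + 3 * τ) := Real.rpow_le_rpow hx0.le hxN (by linarith)
    _ = (N : ℝ) ^ (α * (1 + 3 * τ)) := (Real.rpow_mul hN0.le _ _).symm
    _ ≤ (N : ℝ) ^ θ := Real.rpow_le_rpow_of_exponent_le hN1 h1

end Pool.Agent.X55.Art
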