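import Pool.Agent.X55.Art.Sys1
import Pool.Agent.X55.Art.Pl3

set_option autoImplicit false

/-! # All `x` at once, for monotone counting functions -/

namespace Pool.Agent.X55.Art

open Finset Filter

open Classical in
/-- the exceptional `m ≤ N` at `x` -/
noncomputable def BdG (c : ℝ) (C : ℕ → ℕ → ℝ) (M : ℕ → ℝ) (N x : ℕ) : Finset ℕ :=
  (Finset.Icc 1 N).filter (fun m : ℕ => (x : ℝ) ^ (1 - c) < |C m x - M x|)

/-- between two points -/
theorem betweenG (C : ℕ → ℕ → ℝ) (M : ℕ → ℝ) (hC : ∀ m x y, x ≤ y → C m x ≤ C m y)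
    (hM : ∀ x y : ℕ, x ≤ y → M x ≤ M y ∧ M y ≤ M x + 2 * ((y : ℝ) - x))
    (c : ℝ) (N m x y z h : ℕ) (hxy : x ≤ y) (hyz : y ≤ z) (hzh : z ≤ x + h)
    (hm : m ∈ Finset.Icc 1 N) (h1 : m ∉ BdG c C M N x) (h2 : m ∉ BdG c C M N z) (hc : c ≤ 1) :
    |C m y - M y| ≤ (z : ℝ) ^ (1 - c) + 2 * h := by
  unfold BdG at h1 h2
  rw [mem_filter, not_and, not_lt] at h1 h2
  have k1 := h1 hm
  have k2 := h2 hm
  have k3 := hC m x y hxy
  have k4 := hC m y z hyz
  have k5 := hM x y hxy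
  have k6 := hM y z hyz
  have hxz : (x : ℝ) ≤ z := by exact_mod_cast hxy.trans hyz
  have hzhr : (z : ℝ) ≤ x + h := by exact_mod_cast hzh
  have hxyr : (x : ℝ) ≤ y := by exact_mod_cast hxy
  have hyzr : (y : ℝ) ≤ z := by exact_mod_cast hyz
  have k7 : (x : ℝ) ^ (1 - c) ≤ (z : ℝ) ^ (1 - c) := Real.rpow_le_rpow (Nat.cast_nonneg _) hxz (by linarith)
  rw [abs_le] at k1 k2 ⊢
  constructor
  · linarith [k1.1, k1.2, k2.1, k2.2, k5.1, k5.2, k6.1, k6.2]
  · linarith [k1.1, k1.2, k2.1, k2.2, k5.1, k5.2, k6.1, k6.2]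

theorem all_xG (β θ τ α α' c₀ : ℝ) (hβ1 : β < 1) (hτ : 0 < τ) (hc₀ : 0 < c₀) (hα : 0 < α)
    (hαα : α < α') :
    ∃ c : ℝ, 0 < c ∧ c < 1 ∧ ∃ N₀ : ℕ, ∀ N : ℕ, N₀ ≤ N → ∀ (C : ℕ → ℕ → ℝ) (M : ℕ → ℝ),
      (∀ m x y, x ≤ y → C m x ≤ C m y) →
      (∀ x y : ℕ, x ≤ y → M x ≤ M y ∧ M y ≤ M x + 2 * ((y : ℝ) - x)) →
      (∀ x : ℕ, Real.log N ≤ (x : ℝ) ^ (1 - β) → (x : ℝ) ≤ (N : ℝ) ^ α' →
        ((BdG c₀ C M N x).card : ℝ) ≤ (N : ℝ) ^ (θ - τ)) →
      ∀ E ⊆ Finset.Icc 1 N, (∀ m ∈ E, ∃ x : ℕ, Real.log N ≤ (x : ℝ) ^ (1 - β) ∧ (x : ℝ) ≤ (N : ℝ) ^ α ∧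
        (x : ℝ) ^ (1 - c) < |C m x - M x|) → (E.card : ℝ) ≤ (N : ℝ) ^ θ := by
  classical
  have hα' : 0 < α' := hα.trans hαα
  obtain ⟨c₁, hc₁⟩ : ∃ c₁, c₁ = min c₀ 1 := ⟨_, rfl⟩
  have hc₁0 : 0 < c₁ := by rw [hc₁]; exact lt_min hc₀ one_pos
  have hc₁1 : c₁ ≤ 1 := by rw [hc₁]; exact min_le_right _ _
  obtain ⟨η, hη⟩ : ∃ η, η = τ / 4 := ⟨_, rfl⟩
  have hη0 : 0 < η := by rw [hη]; positivity
  obtain ⟨c, hc⟩ : ∃ c, c = min c₁ (η / α') / 2 := ⟨_, rfl⟩
  have hc0 : 0 < c := by rw [hc]; exact half_pos (lt_min hc₁0 (by positivity))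
  have hcc₁ : 2 * c ≤ c₁ := by
    rw [hc]
    have := min_le_left c₁ (η / α')
    linarith
  have hcη : 2 * c ≤ η / α' := by
    rw [hc]
    have := min_le_right c₁ (η / α')
    linarith
  have hc1 : c < 1 := by linarith
  -- large `N`
  have ev1 : ∀ᶠ N : ℝ in atTop, Real.log N ≤ (N ^ η / 4) ^ (1 - β) := by
    have h3 : ∀ᶠ N : ℝ in atTop, Real.log N ≤ (1 / 4) ^ (1 - β) * N ^ (η * (1 - β)) := by
      have hpos : (0 : ℝ) < (1 / 4) ^ (1 - β) := by positivity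
      have h := (isLittleO_log_rpow_atTop (show 0 < η * (1 - β) by
        have : 0 < 1 - β := by linarith
        positivity)).bound hpos
      filter_upwards [h, eventually_gt_atTop 1] with x h1 h2
      rw [Real.norm_of_nonneg (Real.log_nonneg h2.le), Real.norm_of_nonneg (by positivity)] at h1
      exact h1
    filter_upwards [h3, eventually_gt_atTop 0] with N h4 h5
    refine h4.trans (le_of_eq ?_)
    have h6 : N ^ η / 4 = (1 / 4) * N ^ η := by ring
    rw [h6, Real.mul_rpow (by norm_num) (by positivity), ← Real.rpow_mul h5.le]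
  have ev2 : ∀ᶠ N : ℝ in atTop, (2 * α' * Real.log N + 1) * (2 * (N ^ η + 1) + 1) + (N ^ η + 2) ≤ N ^ (3 * η) := by
    have h3 : ∀ᶠ N : ℝ in atTop, 7 ≤ N ^ η := (tendsto_rpow_atTop hη0).eventually_ge_atTop _
    have h4 : ∀ᶠ N : ℝ in atTop, Real.log N ≤ 1 / (6 * α') * N ^ η := by
      have h := (isLittleO_log_rpow_atTop hη0).bound (c := 1 / (6 * α')) (by positivity)
      filter_upwards [h, eventually_gt_atTop 1] with x h1 h2
      rw [Real.norm_of_nonneg (Real.log_nonneg h2.le), Real.norm_of_nonneg (by positivity)] at h1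
      exact h1
    filter_upwards [h3, h4, eventually_gt_atTop 0] with N h5 h6 h7
    have h8 : N ^ (3 * η) = N ^ η * N ^ η * N ^ η := by
      rw [← Real.rpow_add h7, ← Real.rpow_add h7]
      ring_nf
    rw [h8]
    set u := N ^ η with hu
    have h9 : 2 * α' * Real.log N ≤ 1 / 3 * u := by
      have h10 : 2 * α' * Real.log N ≤ 2 * α' * (1 / (6 * α') * u) :=
        mul_le_mul_of_nonneg_left h6 (by positivity)
      refine h10.trans (le_of_eq ?_)
      field_simp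
      ring
    nlinarith [mul_nonneg (by linarith : (0:ℝ) ≤ u) (by linarith : (0:ℝ) ≤ u - 7),
      mul_nonneg (mul_nonneg (by linarith : (0:ℝ) ≤ u) (by linarith : (0:ℝ) ≤ u)) (by linarith : (0:ℝ) ≤ u - 7)]
  have ev3 : ∀ᶠ N : ℝ in atTop, 4 ≤ N ^ η := (tendsto_rpow_atTop hη0).eventually_ge_atTop _
  have ev5 : ∀ᶠ N : ℝ in atTop, 2 * N ^ α ≤ N ^ α' := by
    have h3 : ∀ᶠ N : ℝ in atTop, 2 ≤ N ^ (α' - α) := (tendsto_rpow_atTop (by linarith)).eventually_ge_atTop _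
    filter_upwards [h3, eventually_gt_atTop 0] with N h4 h5
    calc 2 * N ^ α ≤ N ^ (α' - α) * N ^ α := mul_le_mul_of_nonneg_right h4 (by positivity)
      _ = N ^ α' := by rw [← Real.rpow_add h5]; ring_nf
  -- large `x`
  have ev4 : ∀ᶠ x : ℝ in atTop, (2 * x) ^ (1 - 2 * c) + 2 * (x ^ (1 - 2 * c) + 1) ≤ x ^ (1 - c) := by
    have h3 : ∀ᶠ x : ℝ in atTop, 6 ≤ x ^ c := (tendsto_rpow_atTop hc0).eventually_ge_atTop _
    filter_upwards [h3, eventually_ge_atTop 1] with x h4 h5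
    have h6 : x ^ (1 - c) = x ^ (1 - 2 * c) * x ^ c := by
      rw [← Real.rpow_add (by linarith)]
      ring_nf
    have h7 : (2 * x) ^ (1 - 2 * c) ≤ 2 * x ^ (1 - 2 * c) := by
      rw [Real.mul_rpow (by norm_num) (by linarith)]
      apply mul_le_mul_of_nonneg_right _ (by positivity)
      calc (2 : ℝ) ^ (1 - 2 * c) ≤ 2 ^ (1 : ℝ) := Real.rpow_le_rpow_of_exponent_le (by norm_num) (by linarith)
        _ = 2 := Real.rpow_one 2
    have h8 : (1 : ℝ) ≤ x ^ (1 - 2 * c) := Real.one_le_rpow h5 (by linarith)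
    rw [h6]
    nlinarith
  obtain ⟨y₄, hy₄⟩ := ev_nat ev4
  obtain ⟨N₂, hN₂⟩ := ev_nat ((ev1.and ev2).and ((ev3.and ev5).and
    ((tendsto_rpow_atTop hη0).eventually_ge_atTop ((y₄ + 8 : ℕ) : ℝ))))
  obtain ⟨N₃, hN₃⟩ := ev_nat (Real.tendsto_log_atTop.eventually_ge_atTop (((y₄ + 3 : ℕ) : ℝ) ^ (1 - β)))
  refine ⟨c, hc0, hc1, max N₂ (max N₃ 2), fun N hN C M hC hM hone E hE hEb => ?_⟩
  have hN2 : 2 ≤ N := (le_max_right _ _).trans ((le_max_right _ _).trans hN)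
  have hN0 : (0 : ℝ) < N := by exact_mod_cast (by omega : 0 < N)
  have hN1r : (1 : ℝ) ≤ N := by exact_mod_cast (by omega : 1 ≤ N)
  obtain ⟨⟨k1, k2⟩, ⟨k3, k3'⟩, k4⟩ := hN₂ N ((le_max_left _ _).trans hN)
  have k5 := hN₃ N ((le_max_left _ _).trans ((le_max_right _ _).trans hN))
  obtain ⟨g, hg⟩ : ∃ g, g = ⌈(N : ℝ) ^ η⌉₊ := ⟨_, rfl⟩
  have hg1 : (N : ℝ) ^ η ≤ g := by rw [hg]; exact Nat.le_ceil _
  have hg2 : (g : ℝ) ≤ (N : ℝ) ^ η + 1 := by rw [hg]; exact (Nat.ceil_lt_add_one (by positivity)).le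
  have hg4 : (4 : ℝ) ≤ g := k3.trans hg1
  have hg0 : 1 ≤ g := by
    have : (1 : ℝ) ≤ g := by linarith
    exact_mod_cast this
  -- the points
  obtain ⟨K, hK⟩ : ∃ K, K = Nat.log 2 ⌊(N : ℝ) ^ α⌋₊ := ⟨_, rfl⟩
  set P1 : Finset ℕ := (range (⌊(N : ℝ) ^ η⌋₊ + 1)).filter (fun x => Real.log N ≤ (x : ℝ) ^ (1 - β) ∧ (x : ℝ) ≤ (N : ℝ) ^ α') with hP1
  set P2 : Finset ℕ := (((range (K + 1)) ×ˢ (range (2 * g + 1))).image
    (fun a : ℕ × ℕ => a.2 * (2 ^ a.1 / g + 1))).filter (fun x => Real.log N ≤ (x : ℝ) ^ (1 - β) ∧ (x : ℝ) ≤ (N : ℝ) ^ α') with hP2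
  have hcov : E ⊆ (P1 ∪ P2).biUnion (fun x => BdG c₀ C M N x) := by
    intro m hm
    obtain ⟨x, hx1, hx2, hx3⟩ := hEb m hm
    have hmI := hE hm
    rw [mem_biUnion]
    by_contra hcon
    push Not at hcon
    have hgood : ∀ x ∈ P1 ∪ P2, m ∉ BdG c₁ C M N x := by
      intro x hx hmB
      apply hcon x hx
      unfold BdG at hmB ⊢
      rw [mem_filter] at hmB ⊢
      refine ⟨hmB.1, lt_of_le_of_lt ?_ hmB.2⟩
      have hx' : Real.log N ≤ (x : ℝ) ^ (1 - β) := by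
        rw [mem_union, hP1, hP2, mem_filter, mem_filter] at hx
        rcases hx with h | h
        · exact h.2.1
        · exact h.2.1
      have hx1' : (1 : ℝ) ≤ x := by
        by_contra hlt
        push Not at hlt
        have h3 : x = 0 := by
          have : x < 1 := by exact_mod_cast hlt
          omega
        rw [h3, Nat.cast_zero, Real.zero_rpow (by linarith)] at hx'
        have h4 : (0 : ℝ) < ((y₄ + 3 : ℕ) : ℝ) ^ (1 - β) := by positivity
        linarith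
      apply Real.rpow_le_rpow_of_exponent_le hx1'
      have : c₁ ≤ c₀ := by rw [hc₁]; exact min_le_left _ _
      linarith
    have hxA : (x : ℝ) ≤ (N : ℝ) ^ α' := hx2.trans (Real.rpow_le_rpow_of_exponent_le hN1r hαα.le)
    have hxy : y₄ + 3 ≤ x := by
      by_contra hlt
      push Not at hlt
      have h3 : (x : ℝ) < ((y₄ + 3 : ℕ) : ℝ) := by exact_mod_cast hlt
      have h4 : (x : ℝ) ^ (1 - β) < ((y₄ + 3 : ℕ) : ℝ) ^ (1 - β) :=
        Real.rpow_lt_rpow (Nat.cast_nonneg _) h3 (by linarith)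
      linarith
    have hxr1 : (1 : ℝ) ≤ x := by exact_mod_cast (by omega : 1 ≤ x)
    have hx0 : (0 : ℝ) < x := by linarith
    rcases le_or_gt (x : ℝ) ((N : ℝ) ^ η) with hcase | hcase
    · have hxP : x ∈ P1 ∪ P2 := by
        refine mem_union_left _ ?_
        rw [hP1, mem_filter, mem_range]
        exact ⟨Nat.lt_succ_of_le (Nat.le_floor hcase), hx1, hxA⟩
      apply hgood x hxP
      unfold BdG
      rw [mem_filter]
      refine ⟨hmI, lt_of_le_of_lt ?_ hx3⟩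
      apply Real.rpow_le_rpow_of_exponent_le hxr1
      linarith
    · obtain ⟨i, h, hh, hi, hix, hxi, hhg⟩ := grid x g (by omega) hg0
      have hgr0 : (0 : ℝ) < g := by linarith
      have hhle : (h : ℝ) ≤ x / g + 1 := by
        have h3 : (h : ℝ) * g ≤ x + g := by exact_mod_cast hhg
        rw [← sub_le_iff_le_add, le_div_iff₀ hgr0]
        linarith
      have hx8 : (8 : ℝ) ≤ x := by
        have h3 : ((y₄ + 8 : ℕ) : ℝ) ≤ x := k4.trans hcase.le
        push_cast at h3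
        have h4 : (0 : ℝ) ≤ y₄ := Nat.cast_nonneg _
        linarith
      have hxg : (x : ℝ) / g ≤ x / 4 := div_le_div_of_nonneg_left hx0.le (by norm_num) hg4
      have hh2 : (h : ℝ) ≤ x / 2 := by linarith
      have hixr : ((i * h : ℕ) : ℝ) ≤ x := by exact_mod_cast hix
      have hxir : (x : ℝ) ≤ (((i + 1) * h : ℕ) : ℝ) := by exact_mod_cast hxi
      have hiz : (((i + 1) * h : ℕ) : ℝ) = ((i * h : ℕ) : ℝ) + h := by push_cast; ring
      have hlow : (N : ℝ) ^ η / 4 ≤ ((i * h : ℕ) : ℝ) := by linarith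
      have hkk : Nat.log 2 x < K + 1 := by
        rw [hK]
        exact Nat.lt_succ_of_le (Nat.log_mono_right (Nat.le_floor hx2))
      have hup : (((i + 1) * h : ℕ) : ℝ) ≤ (N : ℝ) ^ α' := by
        have h3 : (((i + 1) * h : ℕ) : ℝ) ≤ 2 * x := by linarith
        linarith
      have hup' : ((i * h : ℕ) : ℝ) ≤ (N : ℝ) ^ α' := by
        have h4 : (0 : ℝ) ≤ h := Nat.cast_nonneg _
        linarith
      have hmem1 : i * h ∈ P1 ∪ P2 := by
        refine mem_union_right _ ?_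
        rw [hP2, mem_filter, mem_image]
        refine ⟨⟨(Nat.log 2 x, i), ?_, ?_⟩, ?_, hup'⟩
        · rw [mem_product, mem_range, mem_range]
          exact ⟨hkk, by show i < 2 * g + 1; omega⟩
        · show i * (2 ^ Nat.log 2 x / g + 1) = i * h
          rw [hh]
        · exact k1.trans (Real.rpow_le_rpow (by positivity) hlow (by linarith))
      have hmem2 : (i + 1) * h ∈ P1 ∪ P2 := by
        refine mem_union_right _ ?_
        rw [hP2, mem_filter, mem_image]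
        refine ⟨⟨(Nat.log 2 x, i + 1), ?_, ?_⟩, ?_, hup⟩
        · rw [mem_product, mem_range, mem_range]
          exact ⟨hkk, by show i + 1 < 2 * g + 1; omega⟩
        · show (i + 1) * (2 ^ Nat.log 2 x / g + 1) = (i + 1) * h
          rw [hh]
        · exact k1.trans (Real.rpow_le_rpow (by positivity) (by linarith) (by linarith))
      have hb := betweenG C M hC hM c₁ N m (i * h) x ((i + 1) * h) h hix hxi (by rw [add_mul, one_mul]) hmI
        (hgood _ hmem1) (hgood _ hmem2) hc₁1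
      have hz : ((((i + 1) * h : ℕ)) : ℝ) ^ (1 - c₁) ≤ (2 * (x : ℝ)) ^ (1 - 2 * c) := by
        have h3 : (((i + 1) * h : ℕ) : ℝ) ≤ 2 * x := by linarith
        calc ((((i + 1) * h : ℕ)) : ℝ) ^ (1 - c₁) ≤ (2 * (x : ℝ)) ^ (1 - c₁) :=
              Real.rpow_le_rpow (Nat.cast_nonneg _) h3 (by linarith)
          _ ≤ (2 * (x : ℝ)) ^ (1 - 2 * c) := Real.rpow_le_rpow_of_exponent_le (by linarith) (by linarith)
      have hh3 : (h : ℝ) ≤ (x : ℝ) ^ (1 - 2 * c) + 1 := by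
        have h3 : (x : ℝ) / g ≤ (x : ℝ) ^ (1 - 2 * c) := by
          have h4 : (x : ℝ) ^ (2 * c) ≤ g := by
            refine le_trans ?_ hg1
            calc (x : ℝ) ^ (2 * c) ≤ ((N : ℝ) ^ α') ^ (2 * c) :=
                  Real.rpow_le_rpow hx0.le hxA (by linarith)
              _ = (N : ℝ) ^ (α' * (2 * c)) := (Real.rpow_mul hN0.le _ _).symm
              _ ≤ (N : ℝ) ^ η := by
                  apply Real.rpow_le_rpow_of_exponent_le hN1r
                  rw [le_div_iff₀ hα'] at hcη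
                  linarith
          rw [div_le_iff₀ hgr0]
          calc (x : ℝ) = (x : ℝ) ^ (1 - 2 * c) * (x : ℝ) ^ (2 * c) := by
                rw [← Real.rpow_add hx0]
                simp
            _ ≤ (x : ℝ) ^ (1 - 2 * c) * g := mul_le_mul_of_nonneg_left h4 (by positivity)
        linarith
      have hfin := hy₄ x (by omega)
      linarith
  -- the number
  have hcard1 : ((P1 ∪ P2).card : ℝ) ≤ (N : ℝ) ^ (3 * η) := by
    have c1 : (P1.card : ℝ) ≤ (N : ℝ) ^ η + 1 := by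
      have : P1.card ≤ ⌊(N : ℝ) ^ η⌋₊ + 1 := by
        rw [hP1]
        refine (card_filter_le _ _).trans ?_
        rw [card_range]
      have h3 : (P1.card : ℝ) ≤ (⌊(N : ℝ) ^ η⌋₊ : ℝ) + 1 := by exact_mod_cast this
      have h4 := Nat.floor_le (show 0 ≤ (N : ℝ) ^ η by positivity)
      linarith
    have c2 : (P2.card : ℝ) ≤ (2 * α' * Real.log N + 1) * (2 * ((N : ℝ) ^ η + 1) + 1) := by
      have h3 : P2.card ≤ (K + 1) * (2 * g + 1) := by
        rw [hP2]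
        refine (card_filter_le _ _).trans (card_image_le.trans ?_)
        rw [card_product, card_range, card_range]
      have h4 : (P2.card : ℝ) ≤ ((K : ℝ) + 1) * (2 * g + 1) := by exact_mod_cast h3
      refine h4.trans ?_
      have h5 : (K : ℝ) ≤ 2 * α' * Real.log N := by
        have h6 : ((2 : ℝ) ^ K) ≤ (N : ℝ) ^ α := by
          have h7 : (1 : ℝ) ≤ (N : ℝ) ^ α := Real.one_le_rpow hN1r hα.le
          have h8 : ⌊(N : ℝ) ^ α⌋₊ ≠ 0 := by
            have := Nat.le_floor (n := 1) (show ((1 : ℕ) : ℝ) ≤ (N : ℝ) ^ α by simpa using h7)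
            omega
          have h9 : 2 ^ K ≤ ⌊(N : ℝ) ^ α⌋₊ := by
            rw [hK]
            exact Nat.pow_log_le_self 2 h8
          have h10 : ((2 : ℝ) ^ K) ≤ (⌊(N : ℝ) ^ α⌋₊ : ℝ) := by exact_mod_cast h9
          exact h10.trans (Nat.floor_le (by positivity))
        have h7 : Real.log ((2 : ℝ) ^ K) ≤ Real.log ((N : ℝ) ^ α) :=
          Real.log_le_log (by positivity) h6
        rw [Real.log_pow, Real.log_rpow hN0] at h7
        have h8 : (1 / 2 : ℝ) < Real.log 2 := by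
          have := Real.log_two_gt_d9
          linarith
        have h9 : (0 : ℝ) ≤ K := Nat.cast_nonneg _
        have h10 : 0 ≤ Real.log N := Real.log_nonneg hN1r
        have h11 : α * Real.log N ≤ α' * Real.log N := mul_le_mul_of_nonneg_right hαα.le h10
        nlinarith
      have h10 : 0 ≤ Real.log N := Real.log_nonneg hN1r
      apply mul_le_mul (by linarith) (by linarith) (by positivity)
      positivity
    have c3 : ((P1 ∪ P2).card : ℝ) ≤ P1.card + P2.card := by exact_mod_cast card_union_le P1 P2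
    linarith
  have hBd : ∀ x ∈ P1 ∪ P2, ((BdG c₀ C M N x).card : ℝ) ≤ (N : ℝ) ^ (θ - τ) := by
    intro x hx
    rw [mem_union, hP1, hP2, mem_filter, mem_filter] at hx
    rcases hx with h | h
    · exact hone x h.2.1 h.2.2
    · exact hone x h.2.1 h.2.2
  calc (E.card : ℝ) ≤ (((P1 ∪ P2).biUnion (fun x => BdG c₀ C M N x)).card : ℝ) := by exact_mod_cast card_le_card hcov
    _ ≤ ∑ x ∈ P1 ∪ P2, ((BdG c₀ C M N x).card : ℝ) := by exact_mod_cast card_biUnion_le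
    _ ≤ ∑ _x ∈ P1 ∪ P2, (N : ℝ) ^ (θ - τ) := sum_le_sum hBd
    _ = ((P1 ∪ P2).card : ℝ) * (N : ℝ) ^ (θ - τ) := by rw [sum_const, nsmul_eq_mul]
    _ ≤ (N : ℝ) ^ (3 * η) * (N : ℝ) ^ (θ - τ) := mul_le_mul_of_nonneg_right hcard1 (by positivity)
    _ = (N : ℝ) ^ (3 * η + (θ - τ)) := (Real.rpow_add hN0 _ _).symm
    _ ≤ (N : ℝ) ^ θ := by
        apply Real.rpow_le_rpow_of_exponent_le hN1r
        rw [hη]
        linarith

end Pool.Agent.X55.Art
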